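import Pool.Agent.Q44.LD.Stm

/-!
# Project LD: the second moment over the families of divisors
-/

set_option autoImplicit false

namespace Q223.LD

open Finset Module
open scoped Classical

/-- second moment -/
theorem cheb {Ω T : Type} [Fintype Ω] [Fintype T] (E : Ω → T → Prop) (good : T → T → Prop)
    (L ε ε1 δ W : ℝ) (hε : 0 < ε) (hε1 : 0 ≤ ε1) (hW : 0 < W) (hT : (Fintype.card T : ℝ) ≤ W)
    (h1 : ∀ τ τ', good τ τ' →
      |((univ.filter fun α : Ω => E α τ).card : ℝ) - L * Fintype.card Ω| ≤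
        ε1 * Fintype.card Ω ∧
      |((univ.filter fun α : Ω => E α τ').card : ℝ) - L * Fintype.card Ω| ≤
        ε1 * Fintype.card Ω ∧
      |((univ.filter fun α : Ω => E α τ ∧ E α τ').card : ℝ) - L * L * Fintype.card Ω| ≤
        ε1 * Fintype.card Ω)
    (h3 : ((univ.filter fun x : T × T => ¬ good x.1 x.2).card : ℝ) ≤ δ * W ^ 2)
    (h4 : ε1 * (1 + 2 * |L|) + δ * (1 + |L|) ^ 2 ≤ ε ^ 3) :
    ((univ.filter fun α : Ω => ε * W <
      |((univ.filter fun τ : T => E α τ).card : ℝ) - L * Fintype.card T|).card : ℝ) ≤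
      ε * Fintype.card Ω := by
  obtain ⟨n, hn⟩ : ∃ n : ℝ, n = Fintype.card Ω := ⟨_, rfl⟩
  have hn0 : 0 ≤ n := by rw [hn]; positivity
  rw [← hn] at h1 ⊢
  obtain ⟨x, hx⟩ : ∃ x : Ω → T → ℝ, x = fun α τ => if E α τ then 1 else 0 := ⟨_, rfl⟩
  have hx01 : ∀ α τ, x α τ = 0 ∨ x α τ = 1 := by
    intro α τ; rw [hx]; by_cases h : E α τ <;> simp [h]
  have hS : ∀ α, ((univ.filter fun τ : T => E α τ).card : ℝ) - L * Fintype.card T =
      ∑ τ, (x α τ - L) := by
    intro α
    rw [Finset.sum_sub_distrib, Finset.sum_const, Finset.card_univ, nsmul_eq_mul, hx]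
    simp only [Finset.sum_boole]
    ring
  have ha : ∀ τ, ∑ α, x α τ = ((univ.filter fun α : Ω => E α τ).card : ℝ) := by
    intro τ; rw [hx]; simp only [Finset.sum_boole]
  have hb : ∀ τ τ', ∑ α, x α τ * x α τ' =
      ((univ.filter fun α : Ω => E α τ ∧ E α τ').card : ℝ) := by
    intro τ τ'
    rw [hx, ← Finset.sum_boole]
    refine Finset.sum_congr rfl fun α _ => ?_
    by_cases h : E α τ <;> by_cases h' : E α τ' <;> simp [h, h']
  have hL : 0 ≤ |L| := abs_nonneg L
  -- pairs
  have hpair : ∀ τ τ', |∑ α, (x α τ - L) * (x α τ' - L)| ≤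
      n * (ε1 * (1 + 2 * |L|)) + (if good τ τ' then 0 else n * (1 + |L|) ^ 2) := by
    intro τ τ'
    by_cases hg : good τ τ'
    · rw [if_pos hg, add_zero]
      obtain ⟨g1, g2, g3⟩ := h1 τ τ' hg
      have e1 : ∑ α, (x α τ - L) * (x α τ' - L) =
          (((univ.filter fun α : Ω => E α τ ∧ E α τ').card : ℝ) - L * L * n) -
          L * (((univ.filter fun α : Ω => E α τ).card : ℝ) - L * n) -
          L * (((univ.filter fun α : Ω => E α τ').card : ℝ) - L * n) := by
        rw [← hb, ← ha, ← ha, hn]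
        have : ∀ α, (x α τ - L) * (x α τ' - L) =
            x α τ * x α τ' - L * x α τ - L * x α τ' + L * L := by intro α; ring
        simp only [this, Finset.sum_add_distrib, Finset.sum_sub_distrib, ← Finset.mul_sum,
          Finset.sum_const, Finset.card_univ, nsmul_eq_mul]
        ring
      rw [e1]
      refine (abs_sub _ _).trans ?_
      refine (add_le_add (abs_sub _ _) le_rfl).trans ?_
      rw [abs_mul, abs_mul]
      have g1' := mul_le_mul_of_nonneg_left g1 hL
      have g2' := mul_le_mul_of_nonneg_left g2 hL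
      nlinarith
    · rw [if_neg hg]
      have : |∑ α, (x α τ - L) * (x α τ' - L)| ≤ n * (1 + |L|) ^ 2 := by
        refine (Finset.abs_sum_le_sum_abs _ _).trans ?_
        have h5 : ∀ α τ, |x α τ - L| ≤ 1 + |L| := by
          intro α τ
          refine (abs_sub _ _).trans ?_
          rcases hx01 α τ with h | h <;> rw [h] <;> simp
        have h6 : ∀ α ∈ (univ : Finset Ω), |(x α τ - L) * (x α τ' - L)| ≤ (1 + |L|) ^ 2 := by
          intro α _
          rw [abs_mul, sq]
          exact mul_le_mul (h5 α τ) (h5 α τ') (abs_nonneg _) (by positivity)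
        refine (Finset.sum_le_sum h6).trans ?_
        rw [Finset.sum_const, Finset.card_univ, nsmul_eq_mul, hn]
      have h7 : 0 ≤ n * (ε1 * (1 + 2 * |L|)) := by positivity
      linarith
  have hsec : ∑ α, (∑ τ, (x α τ - L)) ^ 2 ≤ ε ^ 3 * W ^ 2 * n := by
    have e2 : ∑ α, (∑ τ, (x α τ - L)) ^ 2 =
        ∑ z : T × T, ∑ α, (x α z.1 - L) * (x α z.2 - L) := by
      rw [Finset.sum_comm]
      refine Finset.sum_congr rfl fun α _ => ?_
      rw [sq, Finset.sum_mul_sum, ← Finset.univ_product_univ, Finset.sum_product]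
    rw [e2]
    refine (Finset.sum_le_sum fun z _ => (le_abs_self _).trans (hpair z.1 z.2)).trans ?_
    rw [Finset.sum_add_distrib, Finset.sum_const, Finset.card_univ, nsmul_eq_mul]
    have e3 : ∑ z : T × T, (if good z.1 z.2 then 0 else n * (1 + |L|) ^ 2) =
        ((univ.filter fun z : T × T => ¬ good z.1 z.2).card : ℝ) * (n * (1 + |L|) ^ 2) := by
      rw [← nsmul_eq_mul, ← Finset.sum_const, Finset.sum_filter]
      refine Finset.sum_congr rfl fun z _ => ?_
      by_cases h : good z.1 z.2 <;> simp [h]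
    rw [e3, Fintype.card_prod, Nat.cast_mul]
    have h8 : (Fintype.card T : ℝ) * (Fintype.card T : ℝ) ≤ W ^ 2 := by
      rw [sq]; exact mul_le_mul hT hT (by positivity) hW.le
    have h9 : 0 ≤ n * (ε1 * (1 + 2 * |L|)) := by positivity
    have h10 : 0 ≤ n * (1 + |L|) ^ 2 := by positivity
    calc (Fintype.card T : ℝ) * (Fintype.card T : ℝ) * (n * (ε1 * (1 + 2 * |L|))) +
          ((univ.filter fun z : T × T => ¬ good z.1 z.2).card : ℝ) * (n * (1 + |L|) ^ 2) ≤
        W ^ 2 * (n * (ε1 * (1 + 2 * |L|))) + δ * W ^ 2 * (n * (1 + |L|) ^ 2) := by gcongr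
      _ = (ε1 * (1 + 2 * |L|) + δ * (1 + |L|) ^ 2) * (W ^ 2 * n) := by ring
      _ ≤ ε ^ 3 * (W ^ 2 * n) := by gcongr
      _ = _ := by ring
  have hch : ((univ.filter fun α : Ω => ε * W <
      |((univ.filter fun τ : T => E α τ).card : ℝ) - L * Fintype.card T|).card : ℝ) *
      (ε * W) ^ 2 ≤ ∑ α, (∑ τ, (x α τ - L)) ^ 2 := by
    rw [← nsmul_eq_mul, ← Finset.sum_const]
    refine le_trans (Finset.sum_le_sum ?_) (Finset.sum_le_sum_of_subset_of_nonneg
      (Finset.filter_subset _ _) (fun _ _ _ => by positivity))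
    intro α hα
    rw [Finset.mem_filter] at hα
    have h11 := hα.2
    rw [hS α] at h11
    have h12 : 0 ≤ ε * W := by positivity
    rw [← sq_abs (∑ τ, (x α τ - L))]
    exact pow_le_pow_left₀ h12 h11.le 2
  have hfin := hch.trans hsec
  have hpos : 0 < ε ^ 2 * W ^ 2 := by positivity
  have : ((univ.filter fun α : Ω => ε * W <
      |((univ.filter fun τ : T => E α τ).card : ℝ) - L * Fintype.card T|).card : ℝ) *
      (ε ^ 2 * W ^ 2) ≤ (ε * n) * (ε ^ 2 * W ^ 2) := by
    calc _ = _ := by ring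
      _ ≤ _ := hfin
      _ = _ := by ring
  exact le_of_mul_le_mul_right this hpos

open Pool.Agent.Y703.CQ (prs ext)
open Q44.JQ Q44.LD

theorem POk_comp {s U ι Cc Cc' : Type} [Fintype s] [Fintype U] [Fintype ι] (b : Bk s U ι)
    (col : ι → Cc) (g : Cc → Cc') (hg : Function.Surjective g) (t₀ : s) (R : ℕ)
    (h : POk b col t₀ R) : POk b (fun i => g (col i)) t₀ R := by
  refine ⟨h.rU, h.rJ, ?_, ?_⟩
  · intro c μ hμ
    obtain ⟨c', rfl⟩ := hg c
    obtain ⟨i, hi, h2⟩ := h.nd c' μ hμ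
    exact ⟨i, by rw [hi], h2⟩
  · intro c φ
    obtain ⟨c', rfl⟩ := hg c
    refine (h.many c' φ).trans (Finset.card_le_card ?_)
    intro i hi
    rw [Finset.mem_filter] at hi ⊢
    exact ⟨hi.1, by rw [hi.2.1], hi.2.2⟩

theorem POk_mono {s U ι Cc : Type} [Fintype s] [Fintype U] [Fintype ι] (b : Bk s U ι)
    (col : ι → Cc) (t₀ : s) {R R' : ℕ} (hR : R' ≤ R)
    (h : POk b col t₀ R) : POk b col t₀ R' := by
  refine ⟨h.rU, h.rJ, h.nd, ?_⟩
  intro c φ
  exact (Nat.mul_le_mul_right _ hR).trans (h.many c φ)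

theorem z2 (a : ZMod 2) : a = 0 ∨ a = 1 := by
  revert a; decide

/-- the sum of the labels of a form -/
theorem lab {s U ι N M : Type} [Fintype s] [Fintype U] [Fintype ι] [Fintype N]
    (b : Bk s U ι) (e : M → N → ZMod 2) (ρ : N → s → ZMod 2) (τ : U ⊕ ι → N → ZMod 2)
    (hτ : lbs b.h τ = ρ) (m : M) :
    ∑ p, (sb b (fun u => act e τ m (Sum.inl u)) (fun i => act e τ m (Sum.inr i))).h p =
      lbf e ρ m := by
  have h1 : lbf e ρ m = ∑ p, (∑ i, e m i * τ p i) • b.h p := by
    rw [← hτ]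
    unfold lbf lbs
    simp only [Finset.smul_sum, Finset.sum_smul, smul_smul]
    rw [Finset.sum_comm]
  have h2 : ∀ p, (∑ i, e m i * τ p i) • b.h p = if act e τ m p then b.h p else 0 := by
    intro p
    unfold act
    rcases z2 (∑ i, e m i * τ p i) with h | h
    · simp [h]
    · simp [h]
  rw [h1, Finset.sum_congr rfl (fun p _ => h2 p), Fintype.sum_sum_type, Fintype.sum_sum_type]
  congr 1
  · rw [← Finset.sum_filter]
    rw [Finset.sum_subtype (univ.filter fun u => act e τ m (Sum.inl u)) (p := fun u =>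
      act e τ m (Sum.inl u)) (fun x => by simp)]
    rfl
  · rw [← Finset.sum_filter]
    rw [Finset.sum_subtype (univ.filter fun i => act e τ m (Sum.inr i)) (p := fun i =>
      act e τ m (Sum.inr i)) (fun x => by simp)]
    rfl

theorem inj1 {N : Type} [Fintype N] (e e' : N → ZMod 2)
    (h : ∀ c : N → ZMod 2, ∑ i, e i * c i ≠ 0 ↔ ∑ i, e' i * c i ≠ 0) : e = e' := by
  funext j
  have h1 := h (Pi.single j 1)
  have h2 : ∀ f : N → ZMod 2, ∑ i, f i * (Pi.single j (1 : ZMod 2) : N → ZMod 2) i = f j := by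
    intro f
    rw [Finset.sum_eq_single j]
    · simp
    · intro i _ hi; rw [Pi.single_eq_of_ne hi, mul_zero]
    · intro h; exact absurd (Finset.mem_univ _) h
  rw [h2, h2] at h1
  rcases z2 (e j) with h3 | h3 <;> rcases z2 (e' j) with h4 | h4 <;> rw [h3, h4] at h1 ⊢ <;>
    simp at h1

theorem ne1 {N : Type} [Fintype N] (e : N → ZMod 2) (h : e ≠ 0) :
    ∃ c : N → ZMod 2, ∑ i, e i * c i ≠ 0 := by
  by_contra hno
  push Not at hno
  apply h
  apply inj1
  intro c
  simp [hno c]

theorem t_DIV (h1 : S_LAJF) (h2 : S_COL) : S_DIV := by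
  intro s N M _ _ _ κ _ V _ _ _ _ e he hem t₀ ρ D hs₀ hok hadj r ε hε
  obtain ⟨L, hL⟩ : ∃ L : ℝ, L =
    ∏ m, ∏ k, lawc ((finrank (ZMod 2) (D m k).pm : ℕ) : ZMod 2) (r m k) := ⟨_, rfl⟩
  have hL0 : 0 ≤ |L| := abs_nonneg L
  obtain ⟨ε1, hε1, hε1'⟩ : ∃ ε1 : ℝ, 0 < ε1 ∧ ε1 * (1 + 2 * |L|) ≤ ε ^ 3 / 2 := by
    refine ⟨ε ^ 3 / 2 / (1 + 2 * |L|), by positivity, le_of_eq ?_⟩
    rw [div_mul_cancel₀ _ (by positivity)]
  obtain ⟨δ, hδ, hδ'⟩ : ∃ δ : ℝ, 0 < δ ∧ δ * (1 + |L|) ^ 2 ≤ ε ^ 3 / 2 := by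
    refine ⟨ε ^ 3 / 2 / (1 + |L|) ^ 2, by positivity, le_of_eq ?_⟩
    rw [div_mul_cancel₀ _ (by positivity)]
  obtain ⟨R1, -, hR1⟩ := h1 s M (N → ZMod 2) κ V
    (fun m => univ.filter fun c => ∑ i, e m i * c i ≠ 0)
    (by
      intro m m' hmm
      apply he
      apply inj1
      intro c
      have := congrArg (fun S : Finset (N → ZMod 2) => c ∈ S) hmm
      simpa using this)
    (by
      intro m
      obtain ⟨c, hc⟩ := ne1 (e m) (hem m)
      exact ⟨c, by simp [hc]⟩)
    t₀ (fun m => lbf e ρ m) D hs₀ hok hadj r ε1 hε1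
  obtain ⟨R2, -, hR2⟩ := h1 s (M ⊕ M) (N ⊕ N → ZMod 2) (fun f => κ (Sum.elim id id f))
    (fun f k => V (Sum.elim id id f) k)
    (Sum.elim (fun m => univ.filter fun c => ∑ i, e m i * c (Sum.inl i) ≠ 0)
      (fun m => univ.filter fun c => ∑ i, e m i * c (Sum.inr i) ≠ 0))
    (by
      intro f f' hff
      rcases f with m | m <;> rcases f' with m' | m'
      · congr 1
        apply he
        apply inj1
        intro c
        have := congrArg (fun S : Finset (N ⊕ N → ZMod 2) => (Sum.elim c 0 : N ⊕ N → ZMod 2) ∈ S) hff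
        simpa using this
      · exfalso
        obtain ⟨c, hc⟩ := ne1 (e m) (hem m)
        have := congrArg (fun S : Finset (N ⊕ N → ZMod 2) => (Sum.elim c 0 : N ⊕ N → ZMod 2) ∈ S) hff
        simp at this
        exact hc this
      · exfalso
        obtain ⟨c, hc⟩ := ne1 (e m') (hem m')
        have := congrArg (fun S : Finset (N ⊕ N → ZMod 2) => (Sum.elim c 0 : N ⊕ N → ZMod 2) ∈ S) hff
        simp at this
        exact hc this
      · congr 1
        apply he
        apply inj1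
        intro c
        have := congrArg (fun S : Finset (N ⊕ N → ZMod 2) => (Sum.elim 0 c : N ⊕ N → ZMod 2) ∈ S) hff
        simpa using this)
    (by
      intro f
      rcases f with m | m
      · obtain ⟨c, hc⟩ := ne1 (e m) (hem m)
        exact ⟨Sum.elim c 0, by simp [hc]⟩
      · obtain ⟨c, hc⟩ := ne1 (e m) (hem m)
        exact ⟨Sum.elim 0 c, by simp [hc]⟩)
    t₀ (fun f => lbf e ρ (Sum.elim id id f)) (fun f k => D (Sum.elim id id f) k)
    (fun f k => hs₀ _ _) (fun f k => hok _ _) (fun f => hadj _)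
    (fun f k => r (Sum.elim id id f) k) ε1 hε1
  obtain ⟨A, R, hAR⟩ := h2 s (N ⊕ N → ZMod 2) t₀ (max R1 R2) δ hδ
  refine ⟨A, R, ?_⟩
  intro U ι _ _ _ b hb Ev hEv
  have hbad := hAR U ι b hb
  have hcardΩ : (Fintype.card (prs (univ : Finset ι) → ZMod 2) : ℝ) =
      2 ^ (prs (univ : Finset ι)).card := by
    rw [Fintype.card_fun, ZMod.card, Fintype.card_coe]
    push_cast
    rfl
  have hΩpos : (0 : ℝ) < 2 ^ (prs (univ : Finset ι)).card := by positivity
  have key := cheb (Ω := prs (univ : Finset ι) → ZMod 2)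
    (T := {τ : U ⊕ ι → N → ZMod 2 // lbs b.h τ = ρ}) (fun α τ => Ev α τ.1)
    (fun τ τ' => POk b (fun i => (Sum.elim (τ.1 (Sum.inr i)) (τ'.1 (Sum.inr i)) :
      N ⊕ N → ZMod 2)) t₀ (max R1 R2)) L ε ε1 δ
    ((2 ^ Fintype.card N : ℝ) ^ (Fintype.card U + Fintype.card ι)) hε hε1.le (by positivity)
    (by
      have : Fintype.card {τ : U ⊕ ι → N → ZMod 2 // lbs b.h τ = ρ} ≤
          (2 ^ Fintype.card N) ^ (Fintype.card U + Fintype.card ι) := by
        refine (Fintype.card_subtype_le _).trans (le_of_eq ?_)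
        rw [Fintype.card_fun, Fintype.card_fun, ZMod.card, Fintype.card_sum]
      exact_mod_cast this)
    (by
      intro τ τ' hg
      have single : ∀ σ : {τ : U ⊕ ι → N → ZMod 2 // lbs b.h τ = ρ},
          POk b (fun i => σ.1 (Sum.inr i)) t₀ R1 →
          |((univ.filter fun α : prs (univ : Finset ι) → ZMod 2 => Ev α σ.1).card : ℝ) -
            L * Fintype.card (prs (univ : Finset ι) → ZMod 2)| ≤
            ε1 * Fintype.card (prs (univ : Finset ι) → ZMod 2) := by
        intro σ hσ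
        have h5 := hR1 U ι b (fun i => σ.1 (Sum.inr i)) (fun m u => act e σ.1 m (Sum.inl u))
          (fun m i => act e σ.1 m (Sum.inr i)) (by intro m i; simp [act]) hσ
          (fun m => lab b e ρ σ.1 σ.2 m)
        have h6 : (univ.filter fun α : prs (univ : Finset ι) → ZMod 2 => Ev α σ.1) =
            univ.filter fun α : prs (univ : Finset ι) → ZMod 2 => ∀ m k,
              finrank (ZMod 2) (Sel (D m k)
                ((sb b (fun u => act e σ.1 m (Sum.inl u)) (fun i => act e σ.1 m (Sum.inr i))).N t₀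
                  (ra (fun i => act e σ.1 m (Sum.inr i)) α))
                (sb b (fun u => act e σ.1 m (Sum.inl u))
                  (fun i => act e σ.1 m (Sum.inr i))).h) =
              finrank (ZMod 2) (V m k) + r m k := by
          apply Finset.filter_congr
          intro α _
          exact hEv α σ.1
        rw [h6, hcardΩ, hL]
        rw [div_sub' hΩpos.ne', abs_div, abs_of_pos hΩpos, div_le_iff₀ hΩpos] at h5
        rw [mul_comm (∏ m, ∏ k, _) ((2 : ℝ) ^ _)]
        exact h5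
      refine ⟨single τ ?_, single τ' ?_, ?_⟩
      · have h7 := POk_comp b _ (fun c : N ⊕ N → ZMod 2 => fun i : N => c (Sum.inl i)) (by
          intro c; exact ⟨Sum.elim c 0, by funext i; rfl⟩) t₀ _ hg
        exact POk_mono b _ t₀ (le_max_left _ _) h7
      · have h7 := POk_comp b _ (fun c : N ⊕ N → ZMod 2 => fun i : N => c (Sum.inr i)) (by
          intro c; exact ⟨Sum.elim 0 c, by funext i; rfl⟩) t₀ _ hg
        exact POk_mono b _ t₀ (le_max_left _ _) h7
      · have h5 := hR2 U ι b (fun i => (Sum.elim (τ.1 (Sum.inr i)) (τ'.1 (Sum.inr i)) :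
            N ⊕ N → ZMod 2))
          (Sum.elim (fun m u => act e τ.1 m (Sum.inl u)) (fun m u => act e τ'.1 m (Sum.inl u)))
          (Sum.elim (fun m i => act e τ.1 m (Sum.inr i)) (fun m i => act e τ'.1 m (Sum.inr i)))
          (by
            intro f i
            rcases f with m | m <;> simp [act])
          (POk_mono b _ t₀ (le_max_right _ _) hg)
          (by
            intro f
            rcases f with m | m
            · exact lab b e ρ τ.1 τ.2 m
            · exact lab b e ρ τ'.1 τ'.2 m)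
        rw [Fintype.prod_sum_type] at h5
        have h8 : ((univ.filter fun α : prs (univ : Finset ι) → ZMod 2 =>
            Ev α τ.1 ∧ Ev α τ'.1).card : ℝ) = _ := rfl
        rw [div_sub' hΩpos.ne', abs_div, abs_of_pos hΩpos, div_le_iff₀ hΩpos] at h5
        rw [hcardΩ]
        refine le_trans (le_of_eq (congrArg (fun z : ℝ => |z|) ?_)) h5
        congr 1
        · norm_cast
          congr 1
          apply Finset.filter_congr
          intro α _
          rw [hEv α τ.1, hEv α τ'.1, Sum.forall]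
          rfl
        · rw [hL, mul_comm]
          rfl)
    (by
      have hinj : (univ.filter fun x : {τ : U ⊕ ι → N → ZMod 2 // lbs b.h τ = ρ} ×
          {τ : U ⊕ ι → N → ZMod 2 // lbs b.h τ = ρ} =>
          ¬ POk b (fun i => (Sum.elim (x.1.1 (Sum.inr i)) (x.2.1 (Sum.inr i)) :
            N ⊕ N → ZMod 2)) t₀ (max R1 R2)).card ≤
          Fintype.card (U → N ⊕ N → ZMod 2) *
            Nat.card {col : ι → N ⊕ N → ZMod 2 // ¬ POk b col t₀ (max R1 R2)} := by
        rw [← Fintype.card_subtype, Nat.card_eq_fintype_card, ← Fintype.card_prod]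
        refine Fintype.card_le_of_injective (fun x =>
          (fun u => (Sum.elim (x.1.1.1 (Sum.inl u)) (x.1.2.1 (Sum.inl u)) : N ⊕ N → ZMod 2),
            ⟨fun i => (Sum.elim (x.1.1.1 (Sum.inr i)) (x.1.2.1 (Sum.inr i)) : N ⊕ N → ZMod 2),
              x.2⟩)) ?_
        rintro ⟨⟨⟨x, hx⟩, ⟨y, hy⟩⟩, hxy⟩ ⟨⟨⟨x', hx'⟩, ⟨y', hy'⟩⟩, hxy'⟩ heq
        simp only [Prod.mk.injEq, Subtype.mk.injEq] at heq
        obtain ⟨q1, q2⟩ := heq
        have q3 : x = x' := by
          funext p j
          rcases p with u | i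
          · exact congrFun (congrFun q1 u) (Sum.inl j)
          · exact congrFun (congrFun q2 i) (Sum.inl j)
        have q4 : y = y' := by
          funext p j
          rcases p with u | i
          · exact congrFun (congrFun q1 u) (Sum.inr j)
          · exact congrFun (congrFun q2 i) (Sum.inr j)
        subst q3 q4
        rfl
      have h9 : (Fintype.card (N ⊕ N → ZMod 2) : ℝ) = (2 ^ Fintype.card N) ^ 2 := by
        rw [Fintype.card_fun, ZMod.card, Fintype.card_sum]
        push_cast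
        rw [← pow_mul]; congr 1; ring
      have h10 : (Fintype.card (U → N ⊕ N → ZMod 2) : ℝ) =
          ((2 ^ Fintype.card N) ^ 2) ^ Fintype.card U := by
        rw [Fintype.card_fun]
        push_cast
        rw [h9]
      have h11 := Nat.cast_le (α := ℝ) |>.2 hinj
      refine h11.trans ?_
      rw [Nat.cast_mul, h10]
      rw [h9] at hbad
      calc (((2 : ℝ) ^ Fintype.card N) ^ 2) ^ Fintype.card U *
            (Nat.card {col : ι → N ⊕ N → ZMod 2 // ¬ POk b col t₀ (max R1 R2)} : ℝ) ≤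
          (((2 : ℝ) ^ Fintype.card N) ^ 2) ^ Fintype.card U *
            (δ * (((2 : ℝ) ^ Fintype.card N) ^ 2) ^ Fintype.card ι) := by gcongr
        _ = δ * (((2 : ℝ) ^ Fintype.card N) ^ (Fintype.card U + Fintype.card ι)) ^ 2 := by
          rw [← pow_mul, ← pow_mul, ← pow_mul, pow_add, mul_pow, ← pow_mul, ← pow_mul]
          ring)
    (by linarith)
  rw [hcardΩ] at key
  refine le_trans (le_of_eq ?_) key
  congr 2
  apply Finset.filter_congr
  intro α _
  have h12 : (Nat.card {τ : U ⊕ ι → N → ZMod 2 // lbs b.h τ = ρ ∧ Ev α τ} : ℝ) =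
      ((univ.filter fun τ : {τ : U ⊕ ι → N → ZMod 2 // lbs b.h τ = ρ} => Ev α τ.1).card : ℝ) := by
    rw [← Fintype.card_subtype, ← Nat.card_eq_fintype_card]
    congr 1
    exact (Nat.card_congr (Equiv.subtypeSubtypeEquivSubtypeInter
      (fun τ : U ⊕ ι → N → ZMod 2 => lbs b.h τ = ρ) (fun τ => Ev α τ))).symm
  rw [h12, hL, Nat.card_eq_fintype_card]

end Q223.LD
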