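import Mathlib

/-! Sylow subgroups of hyperelementary groups. -/

set_option autoImplicit false

namespace Pool.Agent.Q223.LD

theorem hyper_card {G : Type} [Group G] [Finite G] {p : ℕ} (hp : p.Prime) {C : Subgroup G}
    (hcyc : IsCyclic C) (hpow : ∀ g : G, ∃ k : ℕ, g ^ p ^ k ∈ C)
    {r : ℕ} (hr : r.Prime) (hrp : r ≠ p) (S : Subgroup G) {z : ℕ}
    (hz : ∀ x ∈ S, (∃ s : ℕ, x ^ r ^ s = 1) → x ^ r ^ z = 1) {n : ℕ}
    (hn : r ^ n ∣ Nat.card S) : n ≤ z := by
  have hrf : Fact r.Prime := ⟨hr⟩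
  obtain ⟨R, hR⟩ := Sylow.exists_subgroup_card_pow_prime (G := S) r hn
  let R' : Subgroup G := R.map S.subtype
  have hR'card : Nat.card R' = r ^ n := by
    rw [← hR]
    exact Nat.card_congr (R.equivMapOfInjective S.subtype S.subtype_injective).toEquiv.symm
  have hR'S : R' ≤ S := by
    rintro _ ⟨y, -, rfl⟩
    exact y.2
  have hpowR : ∀ x ∈ R', x ^ r ^ n = 1 := by
    intro x hx
    have h1 : (⟨x, hx⟩ : R') ^ Nat.card R' = 1 := pow_card_eq_one'
    rw [hR'card] at h1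
    exact congrArg Subtype.val h1
  have hRC : R' ≤ C := by
    intro x hx
    obtain ⟨k, hk⟩ := hpow x
    have hcop : (p ^ k).Coprime (r ^ n) :=
      Nat.Coprime.pow _ _ ((Nat.coprime_primes hp hr).2 (Ne.symm hrp))
    have h2 : orderOf x ∣ r ^ n := orderOf_dvd_of_pow_eq_one (hpowR x hx)
    have h3 : (p ^ k).Coprime (orderOf x) := Nat.Coprime.coprime_dvd_right h2 hcop
    obtain ⟨m, hm⟩ := exists_pow_eq_self_of_coprime h3
    rw [← hm]
    exact C.pow_mem hk m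
  have hRcyc : IsCyclic R' := by
    have h4 : IsCyclic (R'.subgroupOf C) := inferInstance
    exact (Subgroup.subgroupOfEquivOfLe hRC).isCyclic.1 h4
  obtain ⟨g, hg⟩ := hRcyc.exists_ofOrder_eq_natCard
  have h5 : (g : G) ^ r ^ z = 1 := by
    refine hz g (hR'S g.2) ⟨n, hpowR g g.2⟩
  have h6 : orderOf g ∣ r ^ z := by
    refine orderOf_dvd_of_pow_eq_one (Subtype.ext ?_)
    exact h5
  rw [hg, hR'card] at h6
  exact (Nat.pow_dvd_pow_iff_le_right hr.one_lt).1 h6

end Pool.Agent.Q223.LD
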