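import Pool.Agent.Q223.LD.Loc
import Pool.Agent.Q223.LD.Grp

/-! The local degrees of the fixed fields of hyperelementary groups. -/

set_option autoImplicit false
set_option linter.unusedSectionVars false

namespace Pool.Agent.Q223.LD

open NumberField MulAction Ideal
open scoped Pointwise

attribute [local instance] Ideal.Quotient.field

/-- a weak form of `p`-hyperelementary -/
def HypP (p : ℕ) (G : Type) [Group G] : Prop :=
  ∃ C : Subgroup G, IsCyclic C ∧ ∀ g : G, ∃ k : ℕ, g ^ p ^ k ∈ C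

theorem HypP.of_surj {p : ℕ} {G H : Type} [Group G] [Group H] (h : HypP p G) (f : G →* H)
    (hf : Function.Surjective f) : HypP p H := by
  obtain ⟨C, hC, hpow⟩ := h
  refine ⟨C.map f, ?_, fun g => ?_⟩
  · exact isCyclic_of_surjective (f.subgroupMap C) (f.subgroupMap_surjective C)
  · obtain ⟨x, rfl⟩ := hf g
    obtain ⟨k, hk⟩ := hpow x
    exact ⟨k, x ^ p ^ k, hk, map_pow f _ _⟩

/-- local degrees -/
def LocDvd (q d : ℕ) (F : Type) [Field F] [NumberField F] : Prop :=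
  ∀ P : Ideal (𝓞 F), P.IsPrime → (q : 𝓞 F) ∈ P → d ∣ P.ramificationIdx ℤ * P.inertiaDeg ℤ

theorem liesOver_of_mem {F : Type} [Field F] [NumberField F] {q : ℕ} (hq : q.Prime)
    (P : Ideal (𝓞 F)) [P.IsPrime] (h : (q : 𝓞 F) ∈ P) : P.LiesOver (Ideal.span {(q : ℤ)}) := by
  refine ⟨?_⟩
  have h1 : (Ideal.span {(q : ℤ)}) ≤ P.under ℤ := by
    rw [Ideal.span_singleton_le_iff_mem, Ideal.mem_comap]
    simpa using h
  have hmax : (Ideal.span {(q : ℤ)}).IsMaximal := by
    have hp : Prime (q : ℤ) := Nat.prime_iff_prime_int.1 hq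
    have : (Ideal.span {(q : ℤ)}).IsPrime := (Ideal.span_singleton_prime hp.ne_zero).2 hp
    exact this.isMaximal (by rw [Ne, Ideal.span_singleton_eq_bot]; exact hp.ne_zero)
  exact hmax.eq_of_le (Ideal.IsPrime.under ℤ P).ne_top h1

theorem locDvd_up {q d : ℕ} {F F' : Type} [Field F] [NumberField F] [Field F'] [NumberField F']
    (i : F →+* F') (h : LocDvd q d F) : LocDvd q d F' := by
  let _ : Algebra F F' := i.toAlgebra
  intro P hP hq
  have h1 := h (P.under (𝓞 F)) (Ideal.IsPrime.under (𝓞 F) P) (by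
    rw [Ideal.mem_comap]
    simpa using hq)
  refine h1.trans ?_
  exact mul_dvd_mul (ramificationIdx_below_dvd (R := ℤ) (P.under (𝓞 F)) P)
    (inertiaDeg_below_dvd (R := ℤ) (P.under (𝓞 F)) P)

section
variable {N : Type} [Field N] [NumberField N] [IsGalois ℚ N] {q r b : ℕ} [Fact q.Prime]
  [Fact r.Prime] {z₁ z₂ a : N}

theorem locDvd_fixed (hb : 0 < b) (h₁ : IsPrimitiveRoot z₁ (r ^ b))
    (h₂ : IsPrimitiveRoot z₂ (q ^ r ^ b - 1)) (ha : a ^ r ^ b = (q : N))
    (hN : ∀ s : Gal(N/ℚ), s z₁ = z₁ → s z₂ = z₂ → s a = a → s = 1)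
    {p : ℕ} (hp : p.Prime) (hrp : r ≠ p) (F : Type) [Field F] [NumberField F] [Algebra F N]
    (hF : HypP p Gal(N/F)) : LocDvd q (r ^ b) F := by
  intro P hP hqP
  have hq := (Fact.out : q.Prime)
  have hr := (Fact.out : r.Prime)
  have hP' : P.LiesOver (Ideal.span {(q : ℤ)}) := liesOver_of_mem hq P hqP
  have hspan : (Ideal.span {(q : ℤ)} : Ideal ℤ) ≠ ⊥ := by
    rw [Ne, Ideal.span_singleton_eq_bot]
    exact_mod_cast hq.ne_zero
  have hP0 : P ≠ ⊥ := Ideal.ne_bot_of_liesOver_of_ne_bot hspan P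
  have hPm : P.IsMaximal := hP.isMaximal hP0
  have hgal : IsGalois F N := IsGalois.tower_top_of_isGalois ℚ F N
  obtain ⟨Q, hQm, hQP⟩ := Ideal.exists_maximal_ideal_liesOver_of_isIntegral (S := 𝓞 N) P
  have hQq : Q.LiesOver (Ideal.span {(q : ℤ)}) := LiesOver.trans Q P (Ideal.span {(q : ℤ)})
  have hG : IsGaloisGroup Gal(N/F) (𝓞 F) (𝓞 N) := IsGaloisGroup.of_isFractionRing _ _ _ F N
  have hfinF : Finite (𝓞 F ⧸ P) := Ring.HasFiniteQuotients.finiteQuotient hP0
  have hcard : Nat.card (stabilizer Gal(N/F) Q) = Q.ramificationIdx (𝓞 F) * Q.inertiaDeg (𝓞 F) := by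
    rw [card_stabilizer_eq P, ramificationIdxIn_eq_ramificationIdx P Q Gal(N/F),
      inertiaDegIn_eq_inertiaDeg P Q Gal(N/F)]
  have hram : Q.ramificationIdx ℤ = P.ramificationIdx ℤ * Q.ramificationIdx (𝓞 F) :=
    ramificationIdx_tower (R := ℤ) P Q
  have hin : Q.inertiaDeg ℤ = P.inertiaDeg ℤ * Q.inertiaDeg (𝓞 F) :=
    inertiaDeg_tower (R := ℤ) P Q
  have hdvd : r ^ (b + b) ∣ (P.ramificationIdx ℤ * P.inertiaDeg ℤ) *
      Nat.card (stabilizer Gal(N/F) Q) := by
    have h5 : r ^ (b + b) ∣ Q.ramificationIdx ℤ * Q.inertiaDeg ℤ := by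
      rw [pow_add]
      exact mul_dvd_mul (ram Q ha) (inert Q h₂)
    rw [hram, hin] at h5
    rw [hcard]
    convert h5 using 1
    ring
  obtain ⟨C, hC, hpow⟩ := hF
  have hbound : ∀ n : ℕ, r ^ n ∣ Nat.card (stabilizer Gal(N/F) Q) → n ≤ b := by
    intro n hn
    refine hyper_card hp hC hpow hr hrp (stabilizer Gal(N/F) Q) (z := b) ?_ hn
    rintro x hx ⟨k, hk⟩
    have h6 : (AlgEquiv.restrictScalarsHom ℚ x : Gal(N/ℚ)) ∈ stabilizer Gal(N/ℚ) Q := by
      rw [mem_stabilizer_iff] at hx ⊢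
      conv_rhs => rw [← hx]
      rfl
    have h7 := dec_exp Q hb h₁ h₂ ha hN h6 ⟨k, by rw [← map_pow, hk, map_one]⟩
    rw [← map_pow] at h7
    ext y
    have h8 := DFunLike.congr_fun h7 y
    exact h8
  have hcard0 : Nat.card (stabilizer Gal(N/F) Q) ≠ 0 := Nat.card_pos.ne'
  obtain ⟨c, w, hw, hcw⟩ := Nat.exists_eq_pow_mul_and_not_dvd hcard0 r hr.ne_one
  have hcb : c ≤ b := hbound c (by rw [hcw]; exact dvd_mul_right _ _)
  rw [hcw, ← mul_assoc] at hdvd
  have h9 : r ^ (b + b) ∣ (P.ramificationIdx ℤ * P.inertiaDeg ℤ) * r ^ c :=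
    (Nat.Coprime.pow_left _ ((Nat.Prime.coprime_iff_not_dvd hr).2 hw)).dvd_of_dvd_mul_right hdvd
  have h10 : r ^ (b + c) ∣ (P.ramificationIdx ℤ * P.inertiaDeg ℤ) * r ^ c :=
    (pow_dvd_pow r (by omega)).trans h9
  rw [pow_add] at h10
  exact Nat.dvd_of_mul_dvd_mul_right (pow_pos hr.pos c) h10

end

end Pool.Agent.Q223.LD

namespace Pool.Agent.Q223.LD

open NumberField MulAction Ideal

/-- a field embeds in a subfield -/
theorem exists_hom_of_range {F Y L : Type} [Field F] [Field Y] [Field L] [Algebra Y L]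
    (i : F →+* L) (h : ∀ x, i x ∈ (algebraMap Y L).range) : Nonempty (F →+* Y) := by
  let e : Y ≃+* (algebraMap Y L).range :=
    RingEquiv.ofBijective (algebraMap Y L).rangeRestrict
      ⟨fun x y hxy => (algebraMap Y L).injective (congrArg Subtype.val hxy),
        (algebraMap Y L).rangeRestrict_surjective⟩
  exact ⟨(e.symm : (algebraMap Y L).range →+* Y).comp (i.codRestrict _ h)⟩

section
variable {N : Type} [Field N] [NumberField N] [IsGalois ℚ N] {q r b : ℕ} [Fact q.Prime]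
  [Fact r.Prime] {z₁ z₂ a : N}

theorem locDvd_hyper (hb : 0 < b) (h₁ : IsPrimitiveRoot z₁ (r ^ b))
    (h₂ : IsPrimitiveRoot z₂ (q ^ r ^ b - 1)) (ha : a ^ r ^ b = (q : N))
    (hN : ∀ s : Gal(N/ℚ), s z₁ = z₁ → s z₂ = z₂ → s a = a → s = 1)
    {p : ℕ} (hp : p.Prime) (hrp : r ≠ p) {L Y : Type} [Field L] [NumberField L] [Field Y]
    [NumberField Y] [Algebra Y L] [IsGalois Y L] (i : N →+* L) (hY : HypP p Gal(L/Y)) :
    LocDvd q (r ^ b) Y := by
  let _ : Algebra N L := i.toAlgebra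
  let ρ : Gal(L/Y) →* Gal(N/ℚ) :=
    (AlgEquiv.restrictNormalHom (F := ℚ) (K₁ := L) N).comp (AlgEquiv.restrictScalarsHom ℚ)
  let F : IntermediateField ℚ N := IntermediateField.fixedField ρ.range
  have hnf : NumberField F := NumberField.of_module_finite ℚ F
  have hF : HypP p Gal(N/F) := by
    have h3 : HypP p ρ.range := hY.of_surj ρ.rangeRestrict ρ.rangeRestrict_surjective
    let e : ρ.range ≃* Gal(N/F) :=
      (MulEquiv.subgroupCongr (IntermediateField.fixingSubgroup_fixedField ρ.range).symm).trans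
        (IntermediateField.fixingSubgroupEquiv F)
    exact h3.of_surj e.toMonoidHom e.surjective
  have h4 := locDvd_fixed hb h₁ h₂ ha hN hp hrp F hF
  obtain ⟨j⟩ := exists_hom_of_range (Y := Y) (L := L) ((algebraMap N L).comp (algebraMap F N)) (by
    intro x
    rw [RingHom.mem_range]
    have h5 := (IsGalois.mem_range_algebraMap_iff_fixed (F := Y) (E := L)
      (algebraMap N L (x : N))).2 (by
        intro s
        have h6 : ρ s (x : N) = x := by
          have h7 := x.2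
          rw [IntermediateField.mem_fixedField_iff] at h7
          exact h7 _ ⟨s, rfl⟩
        have h8 : algebraMap N L (ρ s (x : N)) = s (algebraMap N L (x : N)) :=
          AlgEquiv.restrictNormal_commutes (AlgEquiv.restrictScalarsHom ℚ s) N (x : N)
        rw [← h8, h6])
    exact h5)
  exact locDvd_up j h4

end

end Pool.Agent.Q223.LD
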