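import Pool.Agent.Q223.LD.Dec

/-! Local degrees: a general criterion, and pairs of Galois extensions. -/

set_option autoImplicit false
set_option linter.unusedSectionVars false

namespace Pool.Agent.Q223.LD

open NumberField MulAction Ideal
open scoped Pointwise

attribute [local instance] Ideal.Quotient.field

/-- the decomposition groups at `q` are far from `r`-cyclic -/
def ZC (q r b : ℕ) (N : Type) [Field N] [NumberField N] : Prop :=
  ∀ P : Ideal (𝓞 N), P.IsMaximal → P.LiesOver (Ideal.span {(q : ℤ)}) → ∃ z : ℕ,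
    r ^ (b + z) ∣ P.ramificationIdx ℤ * P.inertiaDeg ℤ ∧
    ∀ s ∈ stabilizer Gal(N/ℚ) P, (∃ k : ℕ, s ^ r ^ k = 1) → s ^ r ^ z = 1

section
variable {N : Type} [Field N] [NumberField N] [IsGalois ℚ N] {q r b : ℕ} [Fact q.Prime]
  [Fact r.Prime]

theorem locDvd_fixedZ (hZ : ZC q r b N) {p : ℕ} (hp : p.Prime) (hrp : r ≠ p) (F : Type) [Field F]
    [NumberField F] [Algebra F N] (hF : HypP p Gal(N/F)) : LocDvd q (r ^ b) F := by
  intro P hP hqP
  have hq := (Fact.out : q.Prime)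
  have hr := (Fact.out : r.Prime)
  have hP' : P.LiesOver (Ideal.span {(q : ℤ)}) := liesOver_of_mem hq P hqP
  have hspan : (Ideal.span {(q : ℤ)} : Ideal ℤ) ≠ ⊥ := by
    rw [Ne, Ideal.span_singleton_eq_bot]
    exact_mod_cast hq.ne_zero
  have hP0 : P ≠ ⊥ := Ideal.ne_bot_of_liesOver_of_ne_bot hspan P
  have hPm : P.IsMaximal := hP.isMaximal hP0
  have hgal : IsGalois F N := IsGalois.tower_top_of_isGalois ℚ F N
  obtain ⟨Q, hQm, hQP⟩ := Ideal.exists_maximal_ideal_liesOver_of_isIntegral (S := 𝓞 N) P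
  have hQq : Q.LiesOver (Ideal.span {(q : ℤ)}) := LiesOver.trans Q P (Ideal.span {(q : ℤ)})
  have hG : IsGaloisGroup Gal(N/F) (𝓞 F) (𝓞 N) := IsGaloisGroup.of_isFractionRing _ _ _ F N
  have hfinF : Finite (𝓞 F ⧸ P) := Ring.HasFiniteQuotients.finiteQuotient hP0
  obtain ⟨z, hdz, hz⟩ := hZ Q hQm hQq
  have hcard : Nat.card (stabilizer Gal(N/F) Q) = Q.ramificationIdx (𝓞 F) * Q.inertiaDeg (𝓞 F) := by
    rw [card_stabilizer_eq P, ramificationIdxIn_eq_ramificationIdx P Q Gal(N/F),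
      inertiaDegIn_eq_inertiaDeg P Q Gal(N/F)]
  have hram : Q.ramificationIdx ℤ = P.ramificationIdx ℤ * Q.ramificationIdx (𝓞 F) :=
    ramificationIdx_tower (R := ℤ) P Q
  have hin : Q.inertiaDeg ℤ = P.inertiaDeg ℤ * Q.inertiaDeg (𝓞 F) :=
    inertiaDeg_tower (R := ℤ) P Q
  have hdvd : r ^ (b + z) ∣ (P.ramificationIdx ℤ * P.inertiaDeg ℤ) *
      Nat.card (stabilizer Gal(N/F) Q) := by
    have h5 := hdz
    rw [hram, hin] at h5
    rw [hcard]
    convert h5 using 1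
    ring
  obtain ⟨C, hC, hpow⟩ := hF
  have hbound : ∀ n : ℕ, r ^ n ∣ Nat.card (stabilizer Gal(N/F) Q) → n ≤ z := by
    intro n hn
    refine hyper_card hp hC hpow hr hrp (stabilizer Gal(N/F) Q) (z := z) ?_ hn
    rintro x hx ⟨k, hk⟩
    have h6 : (AlgEquiv.restrictScalarsHom ℚ x : Gal(N/ℚ)) ∈ stabilizer Gal(N/ℚ) Q := by
      rw [mem_stabilizer_iff] at hx ⊢
      conv_rhs => rw [← hx]
      rfl
    have h7 := hz _ h6 ⟨k, by rw [← map_pow, hk, map_one]⟩
    rw [← map_pow] at h7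
    ext y
    have h8 := DFunLike.congr_fun h7 y
    exact h8
  have hcard0 : Nat.card (stabilizer Gal(N/F) Q) ≠ 0 := Nat.card_pos.ne'
  obtain ⟨c, w, hw, hcw⟩ := Nat.exists_eq_pow_mul_and_not_dvd hcard0 r hr.ne_one
  have hcb : c ≤ z := hbound c (by rw [hcw]; exact dvd_mul_right _ _)
  rw [hcw, ← mul_assoc] at hdvd
  have h9 : r ^ (b + z) ∣ (P.ramificationIdx ℤ * P.inertiaDeg ℤ) * r ^ c :=
    (Nat.Coprime.pow_left _ ((Nat.Prime.coprime_iff_not_dvd hr).2 hw)).dvd_of_dvd_mul_right hdvd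
  have h10 : r ^ (b + c) ∣ (P.ramificationIdx ℤ * P.inertiaDeg ℤ) * r ^ c :=
    (pow_dvd_pow r (by omega)).trans h9
  rw [pow_add] at h10
  exact Nat.dvd_of_mul_dvd_mul_right (pow_pos hr.pos c) h10

theorem locDvd_hyperZ (hZ : ZC q r b N) {p : ℕ} (hp : p.Prime) (hrp : r ≠ p) {L Y : Type}
    [Field L] [NumberField L] [Field Y] [NumberField Y] [Algebra Y L] [IsGalois Y L]
    (i : N →+* L) (hY : HypP p Gal(L/Y)) : LocDvd q (r ^ b) Y := by
  let _ : Algebra N L := i.toAlgebra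
  let ρ : Gal(L/Y) →* Gal(N/ℚ) :=
    (AlgEquiv.restrictNormalHom (F := ℚ) (K₁ := L) N).comp (AlgEquiv.restrictScalarsHom ℚ)
  let F : IntermediateField ℚ N := IntermediateField.fixedField ρ.range
  have hnf : NumberField F := NumberField.of_module_finite ℚ F
  have hF : HypP p Gal(N/F) := by
    have h3 : HypP p ρ.range := hY.of_surj ρ.rangeRestrict ρ.rangeRestrict_surjective
    let e : ρ.range ≃* Gal(N/F) :=
      (MulEquiv.subgroupCongr (IntermediateField.fixingSubgroup_fixedField ρ.range).symm).trans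
        (IntermediateField.fixingSubgroupEquiv F)
    exact h3.of_surj e.toMonoidHom e.surjective
  have h4 := locDvd_fixedZ hZ hp hrp F hF
  obtain ⟨j⟩ := exists_hom_of_range (Y := Y) (L := L) ((algebraMap N L).comp (algebraMap F N)) (by
    intro x
    rw [RingHom.mem_range]
    have h5 := (IsGalois.mem_range_algebraMap_iff_fixed (F := Y) (E := L)
      (algebraMap N L (x : N))).2 (by
        intro s
        have h6 : ρ s (x : N) = x := by
          have h7 := x.2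
          rw [IntermediateField.mem_fixedField_iff] at h7
          exact h7 _ ⟨s, rfl⟩
        have h8 : algebraMap N L (ρ s (x : N)) = s (algebraMap N L (x : N)) :=
          AlgEquiv.restrictNormal_commutes (AlgEquiv.restrictScalarsHom ℚ s) N (x : N)
        rw [← h8, h6])
    exact h5)
  exact locDvd_up j h4

end

/-- elements of `r`-power order in a group of given order -/
theorem pow_of_card {G : Type} [Group G] [Finite G] {r : ℕ} (hr : r.Prime) {x : G}
    (hx : ∃ k : ℕ, x ^ r ^ k = 1) : x ^ r ^ (Nat.card G).factorization r = 1 := by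
  obtain ⟨k, hk⟩ := hx
  obtain ⟨j, -, hj⟩ := (Nat.dvd_prime_pow hr).1 (orderOf_dvd_of_pow_eq_one hk)
  have h1 : r ^ j ∣ Nat.card G := by
    rw [← hj]
    exact orderOf_dvd_natCard x
  have h2 : j ≤ (Nat.card G).factorization r :=
    (hr.pow_dvd_iff_le_factorization Nat.card_pos.ne').1 h1
  rw [← orderOf_dvd_iff_pow_eq_one, hj]
  exact pow_dvd_pow r h2

section
variable {N N₁ N₂ : Type} [Field N] [NumberField N] [IsGalois ℚ N] [Field N₁] [NumberField N₁]
  [IsGalois ℚ N₁] [Field N₂] [NumberField N₂] [IsGalois ℚ N₂] [Algebra N₁ N] [Algebra N₂ N]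
  {q r b : ℕ} [Fact q.Prime] [Fact r.Prime]

theorem zc_pair
    (hgen : ∀ s : Gal(N/ℚ), (∀ x : N₁, s (algebraMap N₁ N x) = algebraMap N₁ N x) →
      (∀ x : N₂, s (algebraMap N₂ N x) = algebraMap N₂ N x) → s = 1)
    (h1 : ∀ P : Ideal (𝓞 N₁), P.IsMaximal → P.LiesOver (Ideal.span {(q : ℤ)}) →
      r ^ b ∣ P.ramificationIdx ℤ)
    (h2 : ∀ P : Ideal (𝓞 N₂), P.IsMaximal → P.LiesOver (Ideal.span {(q : ℤ)}) →
      P.ramificationIdx ℤ = 1 ∧
        r ^ (Nat.card Gal(N₁/ℚ)).factorization r ∣ P.inertiaDeg ℤ) : ZC q r b N := by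
  intro P hP hPq
  have hq := (Fact.out : q.Prime)
  have hr := (Fact.out : r.Prime)
  have hspan : (Ideal.span {(q : ℤ)} : Ideal ℤ) ≠ ⊥ := by
    rw [Ne, Ideal.span_singleton_eq_bot]
    exact_mod_cast hq.ne_zero
  have hsmax : (Ideal.span {(q : ℤ)}).IsMaximal := by
    have hp : Prime (q : ℤ) := Nat.prime_iff_prime_int.1 hq
    have : (Ideal.span {(q : ℤ)}).IsPrime := (Ideal.span_singleton_prime hp.ne_zero).2 hp
    exact this.isMaximal hspan
  have hP1m : (P.under (𝓞 N₁)).IsMaximal := Ideal.IsMaximal.under (𝓞 N₁) P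
  have hP2m : (P.under (𝓞 N₂)).IsMaximal := Ideal.IsMaximal.under (𝓞 N₂) P
  have hP1q : (P.under (𝓞 N₁)).LiesOver (Ideal.span {(q : ℤ)}) :=
    LiesOver.tower_bot P (P.under (𝓞 N₁)) (Ideal.span {(q : ℤ)})
  have hP2q : (P.under (𝓞 N₂)).LiesOver (Ideal.span {(q : ℤ)}) :=
    LiesOver.tower_bot P (P.under (𝓞 N₂)) (Ideal.span {(q : ℤ)})
  have hram := (h1 _ hP1m hP1q).trans
    (ramificationIdx_below_dvd (R := ℤ) (P.under (𝓞 N₁)) P)
  obtain ⟨h3, h4⟩ := h2 _ hP2m hP2q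
  have hf0 : (P.under (𝓞 N₂)).inertiaDeg ℤ ≠ 0 := (inertiaDeg_pos _ ℤ).ne'
  set z := ((P.under (𝓞 N₂)).inertiaDeg ℤ).factorization r with hz
  have huz : (Nat.card Gal(N₁/ℚ)).factorization r ≤ z :=
    (hr.pow_dvd_iff_le_factorization hf0).1 h4
  refine ⟨z, ?_, ?_⟩
  · rw [pow_add]
    refine mul_dvd_mul hram ?_
    exact (Nat.ordProj_dvd _ r).trans (inertiaDeg_below_dvd (R := ℤ) (P.under (𝓞 N₂)) P)
  · rintro s hs ⟨k, hk⟩
    refine hgen _ (fun x => ?_) (fun x => ?_)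
    · let ρ : Gal(N/ℚ) →* Gal(N₁/ℚ) := AlgEquiv.restrictNormalHom (F := ℚ) (K₁ := N) N₁
      have h5 : ρ s ^ r ^ z = 1 := by
        have h6 := pow_of_card hr (x := ρ s) ⟨k, by rw [← map_pow, hk, map_one]⟩
        obtain ⟨c, hc⟩ := Nat.exists_eq_add_of_le huz
        rw [hc, pow_add, pow_mul, h6, one_pow]
      have h7 : algebraMap N₁ N (ρ (s ^ r ^ z) x) = (s ^ r ^ z) (algebraMap N₁ N x) :=
        AlgEquiv.restrictNormal_commutes (s ^ r ^ z) N₁ x
      rw [← h7, map_pow, h5]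
      rfl
    · let ρ : Gal(N/ℚ) →* Gal(N₂/ℚ) := AlgEquiv.restrictNormalHom (F := ℚ) (K₁ := N) N₂
      have hG : IsGaloisGroup Gal(N₂/ℚ) ℤ (𝓞 N₂) := IsGaloisGroup.of_isFractionRing _ _ _ ℚ N₂
      have hfin : Finite (ℤ ⧸ Ideal.span {(q : ℤ)}) := Ring.HasFiniteQuotients.finiteQuotient hspan
      have hcard : Nat.card (stabilizer Gal(N₂/ℚ) (P.under (𝓞 N₂))) =
          (P.under (𝓞 N₂)).inertiaDeg ℤ := by
        rw [card_stabilizer_eq (Ideal.span {(q : ℤ)}),
          ramificationIdxIn_eq_ramificationIdx (Ideal.span {(q : ℤ)}) (P.under (𝓞 N₂)) Gal(N₂/ℚ),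
          inertiaDegIn_eq_inertiaDeg (Ideal.span {(q : ℤ)}) (P.under (𝓞 N₂)) Gal(N₂/ℚ), h3,
          one_mul]
      have hρ : ρ s ∈ stabilizer Gal(N₂/ℚ) (P.under (𝓞 N₂)) := by
        rw [mem_stabilizer_iff] at hs ⊢
        have hcomm : ∀ (t : Gal(N/ℚ)) (y : 𝓞 N₂),
            algebraMap (𝓞 N₂) (𝓞 N) (ρ t • y) = t • algebraMap (𝓞 N₂) (𝓞 N) y := by
          intro t y
          apply RingOfIntegers.ext
          exact AlgEquiv.restrictNormal_commutes t N₂ (y : N₂)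
        ext y
        rw [Ideal.mem_pointwise_smul_iff_inv_smul_mem, Ideal.mem_comap, Ideal.mem_comap,
          ← map_inv, hcomm, ← Ideal.mem_pointwise_smul_iff_inv_smul_mem, hs]
      have h5 : ρ s ^ r ^ z = 1 := by
        have h6 := pow_of_card hr (x := (⟨ρ s, hρ⟩ : stabilizer Gal(N₂/ℚ) (P.under (𝓞 N₂))))
          ⟨k, by
            apply Subtype.ext
            change (ρ s) ^ r ^ k = 1
            rw [← map_pow, hk, map_one]⟩
        rw [hcard] at h6
        exact congrArg Subtype.val h6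
      have h7 : algebraMap N₂ N (ρ (s ^ r ^ z) x) = (s ^ r ^ z) (algebraMap N₂ N x) :=
        AlgEquiv.restrictNormal_commutes (s ^ r ^ z) N₂ x
      rw [← h7, map_pow, h5]
      rfl

end

end Pool.Agent.Q223.LD
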