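import Pool.Agent.Q223.LD.Dec

/-! A dichotomy for the primes of the fixed fields of hyperelementary groups. -/

set_option autoImplicit false
set_option linter.unusedSectionVars false

namespace Pool.Agent.Q223.LD

open NumberField MulAction Ideal
open scoped Pointwise

attribute [local instance] Ideal.Quotient.field

/-- the ramification -/
theorem ram_nf {N : Type} [Field N] [NumberField N] {q n : ℕ} [Fact q.Prime] (hn : 0 < n) {a : N}
    (P : Ideal (𝓞 N)) [P.IsMaximal] [P.LiesOver (Ideal.span {(q : ℤ)})] (ha : a ^ n = (q : N)) :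
    n ∣ P.ramificationIdx ℤ := by
  have hq0 : q ≠ 0 := (Fact.out : q.Prime).ne_zero
  have hint : IsIntegral ℤ a := by
    refine IsIntegral.of_pow hn ?_
    rw [ha]
    have h := isIntegral_algebraMap (R := ℤ) (A := N) (x := (q : ℤ))
    simpa using h
  let α : 𝓞 N := ⟨a, hint⟩
  have hα : α ^ n = (q : 𝓞 N) := by
    apply RingOfIntegers.ext
    push_cast
    exact ha
  have hmap : (Ideal.span {(q : ℤ)}).map (algebraMap ℤ (𝓞 N)) = (Ideal.span {α}) ^ n := by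
    rw [Ideal.map_span, Set.image_singleton, Ideal.span_singleton_pow, hα]
    congr 2
    simp
  have hα0 : α ≠ 0 := by
    intro h
    rw [h, zero_pow hn.ne'] at hα
    exact hq0 (by exact_mod_cast hα.symm)
  have hne : (Ideal.span {α} : Ideal (𝓞 N)) ≠ ⊥ := by
    rwa [Ne, Ideal.span_singleton_eq_bot]
  have hmap0 : (Ideal.span {(q : ℤ)}).map (algebraMap ℤ (𝓞 N)) ≠ ⊥ := by
    rw [hmap]
    exact pow_ne_zero _ hne
  have hspan : (Ideal.span {(q : ℤ)} : Ideal ℤ) ≠ ⊥ := by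
    rw [Ne, Ideal.span_singleton_eq_bot]
    exact_mod_cast hq0
  have hP0 : P ≠ ⊥ := Ideal.ne_bot_of_liesOver_of_ne_bot hspan P
  rw [Ideal.IsDedekindDomain.ramificationIdx_eq_multiplicity (Ideal.span {(q : ℤ)}) P hmap0, hmap]
  have hPp : Prime P := Ideal.prime_of_isPrime hP0 inferInstance
  have hfin : FiniteMultiplicity P (Ideal.span {α}) :=
    FiniteMultiplicity.of_prime_left hPp hne
  rw [hfin.multiplicity_pow hPp]
  exact dvd_mul_right _ _

section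
variable {Y L : Type} [Field Y] [NumberField Y] [Field L] [NumberField L] [Algebra Y L]
  [IsGalois Y L]

/-- roots of unity modulo a prime -/
theorem root_inj {Q : Ideal (𝓞 L)} {n : ℕ} (hn : 0 < n) {Z : 𝓞 L} (hZ : IsPrimitiveRoot Z n)
    (hZ' : IsPrimitiveRoot (Ideal.Quotient.mk Q Z) n) {i j : ℕ} (h : Z ^ i - Z ^ j ∈ Q) :
    Z ^ i = Z ^ j := by
  have : NeZero n := ⟨hn.ne'⟩
  rw [← Ideal.Quotient.eq, map_pow, map_pow, (hZ'.isOfFinOrder (NeZero.ne _)).pow_inj_mod,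
    ← hZ'.eq_orderOf] at h
  rw [(hZ.isOfFinOrder (NeZero.ne _)).pow_inj_mod, ← hZ.eq_orderOf]
  exact h

/-- the inertia group fixes the roots of unity of order prime to the characteristic -/
theorem inertia_root {Q : Ideal (𝓞 L)} {n : ℕ} (hn : 0 < n) {Z : 𝓞 L} (hZ : IsPrimitiveRoot Z n)
    (hZ' : IsPrimitiveRoot (Ideal.Quotient.mk Q Z) n) {s : Gal(L/Y)} (hs : s ∈ Q.inertia Gal(L/Y)) :
    s • Z = Z := by
  have : NeZero n := ⟨hn.ne'⟩
  obtain ⟨j, -, hj⟩ := hZ.eq_pow_of_pow_eq_one (ξ := s • Z) (by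
    rw [← smul_pow', hZ.pow_eq_one, smul_one])
  have h1 := hs Z
  rw [← hj] at h1 ⊢
  have h2 : Z ^ j - Z ^ 1 ∈ Q := by
    rw [pow_one]
    exact h1
  rw [root_inj hn hZ hZ' h2, pow_one]

/-- the inertia group is normal in the decomposition group -/
theorem inertia_conj {Q : Ideal (𝓞 L)} {c s : Gal(L/Y)} (hc : c ∈ stabilizer Gal(L/Y) Q)
    (hs : s ∈ Q.inertia Gal(L/Y)) : c * s * c⁻¹ ∈ Q.inertia Gal(L/Y) := by
  intro x
  have h1 : (c * s * c⁻¹) • x - x = c • (s • (c⁻¹ • x) - c⁻¹ • x) := by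
    rw [smul_sub, smul_inv_smul, mul_smul, mul_smul]
  rw [h1]
  have h2 : s • (c⁻¹ • x) - c⁻¹ • x ∈ Q := hs _
  have h3 : c • Q = Q := hc
  have h4 := Ideal.smul_mem_pointwise_smul c _ Q h2
  rwa [h3] at h4

/-- the case that the inertia group fixes a radical -/
theorem ram_of_fix {q n : ℕ} [Fact q.Prime] (hn : 0 < n) {a : L} (ha : a ^ n = (q : L))
    (P : Ideal (𝓞 Y)) [P.IsMaximal] (hP0 : P ≠ ⊥) (hPq : P.LiesOver (Ideal.span {(q : ℤ)}))
    (Q : Ideal (𝓞 L)) [Q.IsMaximal] [Q.LiesOver P]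
    (h : ∀ s ∈ Q.inertia Gal(L/Y), s a = a) : n ∣ P.ramificationIdx ℤ := by
  let F : IntermediateField Y L := IntermediateField.adjoin Y {a}
  have hnf : NumberField F := NumberField.of_module_finite Y F
  let Q₁ : Ideal (𝓞 F) := Q.under (𝓞 F)
  have hQ₁m : Q₁.IsMaximal := Ideal.IsMaximal.under (𝓞 F) Q
  have hQ₁P : Q₁.LiesOver P := by
    refine ⟨?_⟩
    have h1 : P = Q.under (𝓞 Y) := Ideal.over_def Q P
    rw [h1]
    change Q.comap _ = (Q.comap _).comap _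
    rw [Ideal.comap_comap]
    rfl
  have hQ₁0 : Q₁ ≠ ⊥ := Ideal.ne_bot_of_liesOver_of_ne_bot hP0 Q₁
  have hQQ₁ : Q.LiesOver Q₁ := ⟨rfl⟩
  have hQ₁q : Q₁.LiesOver (Ideal.span {(q : ℤ)}) := LiesOver.trans Q₁ P (Ideal.span {(q : ℤ)})
  have hfinY : Finite (𝓞 Y ⧸ P) := Ring.HasFiniteQuotients.finiteQuotient hP0
  have hfinF : Finite (𝓞 F ⧸ Q₁) := Ring.HasFiniteQuotients.finiteQuotient hQ₁0
  have hG : IsGaloisGroup Gal(L/Y) (𝓞 Y) (𝓞 L) := IsGaloisGroup.of_isFractionRing _ _ _ Y L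
  have hG' : IsGaloisGroup Gal(L/F) (𝓞 F) (𝓞 L) := IsGaloisGroup.of_isFractionRing _ _ _ F L
  have h1 : Nat.card (Q.inertia Gal(L/Y)) = Q.ramificationIdx (𝓞 Y) := by
    rw [card_inertia_eq_ramificationIdxIn P Q, ramificationIdxIn_eq_ramificationIdx P Q Gal(L/Y)]
  have h2 : Nat.card (Q.inertia Gal(L/F)) = Q.ramificationIdx (𝓞 F) := by
    rw [card_inertia_eq_ramificationIdxIn Q₁ Q, ramificationIdxIn_eq_ramificationIdx Q₁ Q Gal(L/F)]
  have hfix : ∀ s ∈ Q.inertia Gal(L/Y), ∀ x : F, s (x : L) = x := by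
    intro s hs x
    have h3 : F ≤ IntermediateField.fixedField (Subgroup.zpowers s) := by
      rw [IntermediateField.adjoin_le_iff, Set.singleton_subset_iff]
      change a ∈ IntermediateField.fixedField (Subgroup.zpowers s)
      rw [IntermediateField.mem_fixedField_iff]
      intro t ht
      rw [Subgroup.mem_zpowers_iff] at ht
      obtain ⟨k, rfl⟩ := ht
      exact h _ (Subgroup.zpow_mem _ hs k)
    have h4 := h3 x.2
    rw [IntermediateField.mem_fixedField_iff] at h4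
    exact h4 s (Subgroup.mem_zpowers s)
  have h3 : Nat.card (Q.inertia Gal(L/Y)) ≤ Nat.card (Q.inertia Gal(L/F)) := by
    let f : Q.inertia Gal(L/Y) → Q.inertia Gal(L/F) := fun s =>
      ⟨{ (s : Gal(L/Y)) with
          commutes' := fun x => hfix s s.2 x }, fun x => s.2 x⟩
    refine Nat.card_le_card_of_injective f ?_
    intro s t hst
    apply Subtype.ext
    ext x
    have h4 := congrArg (fun u : Q.inertia Gal(L/F) => (u : Gal(L/F)) x) hst
    exact h4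
  have h4 : Q.ramificationIdx (𝓞 Y) = Q₁.ramificationIdx (𝓞 Y) * Q.ramificationIdx (𝓞 F) :=
    ramificationIdx_tower (R := 𝓞 Y) Q₁ Q
  rw [h1, h2, h4] at h3
  have h5 : 0 < Q.ramificationIdx (𝓞 F) := ramificationIdx_pos Q _
  have h6 : 0 < Q₁.ramificationIdx (𝓞 Y) := ramificationIdx_pos Q₁ _
  have h7 : Q₁.ramificationIdx (𝓞 Y) = 1 := by
    by_contra hcon
    have h8 : 2 ≤ Q₁.ramificationIdx (𝓞 Y) := by omega
    have h9 : 2 * Q.ramificationIdx (𝓞 F) ≤ Q₁.ramificationIdx (𝓞 Y) * Q.ramificationIdx (𝓞 F) :=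
      Nat.mul_le_mul_right _ h8
    omega
  have h8 : Q₁.ramificationIdx ℤ = P.ramificationIdx ℤ * Q₁.ramificationIdx (𝓞 Y) :=
    ramificationIdx_tower (R := ℤ) P Q₁
  rw [h7, mul_one] at h8
  rw [← h8]
  have haF : a ∈ F := IntermediateField.mem_adjoin_simple_self Y a
  exact ram_nf hn (a := (⟨a, haF⟩ : F)) Q₁ (by
    apply Subtype.ext
    push_cast
    exact ha)

/-- **The dichotomy.** -/
theorem dich {q p b : ℕ} (hq : q.Prime) (hp : p.Prime) (hqp : q ≠ p) {z a : L}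
    (hz : IsPrimitiveRoot z (p ^ b)) (ha : a ^ p ^ b = (q : L)) {C : Subgroup Gal(L/Y)}
    (hCn : C.Normal) (hCc : (Nat.card C).Coprime p) (hCp : ∀ g : Gal(L/Y), ∃ k : ℕ, g ^ p ^ k ∈ C)
    (P : Ideal (𝓞 Y)) [P.IsPrime] (hqP : (q : 𝓞 Y) ∈ P) :
    p ^ b ∣ P.ramificationIdx ℤ ∨ p ∣ Nat.card (𝓞 Y ⧸ P) - 1 := by
  have hqf : Fact q.Prime := ⟨hq⟩
  have hpf : Fact p.Prime := ⟨hp⟩
  have hposp : 0 < p ^ b := pow_pos hp.pos b
  have hnep : NeZero (p ^ b) := ⟨hposp.ne'⟩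
  have hnep' : NeZero p := ⟨hp.ne_zero⟩
  have hP' : P.LiesOver (Ideal.span {(q : ℤ)}) := liesOver_of_mem hq P hqP
  have hspan : (Ideal.span {(q : ℤ)} : Ideal ℤ) ≠ ⊥ := by
    rw [Ne, Ideal.span_singleton_eq_bot]
    exact_mod_cast hq.ne_zero
  have hP0 : P ≠ ⊥ := Ideal.ne_bot_of_liesOver_of_ne_bot hspan P
  have hPm : P.IsMaximal := Ideal.IsPrime.isMaximal inferInstance hP0
  obtain ⟨Q, hQm, hQP⟩ := Ideal.exists_maximal_ideal_liesOver_of_isIntegral (S := 𝓞 L) P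
  have hQq : Q.LiesOver (Ideal.span {(q : ℤ)}) := LiesOver.trans Q P (Ideal.span {(q : ℤ)})
  have hQ0 : Q ≠ ⊥ := Ideal.ne_bot_of_liesOver_of_ne_bot hspan Q
  have hfinQ : Finite (𝓞 L ⧸ Q) := Ring.HasFiniteQuotients.finiteQuotient hQ0
  have hG : IsGaloisGroup Gal(L/Y) (𝓞 Y) (𝓞 L) := IsGaloisGroup.of_isFractionRing _ _ _ Y L
  -- the roots of unity
  have hint : IsIntegral ℤ z := hz.isIntegral hposp
  let Z : 𝓞 L := ⟨z, hint⟩
  have hZ : IsPrimitiveRoot Z (p ^ b) := by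
    refine IsPrimitiveRoot.of_map_of_injective (f := algebraMap (𝓞 L) L) ?_
      RingOfIntegers.coe_injective
    exact hz
  have hZ' : IsPrimitiveRoot (Ideal.Quotient.mk Q Z) (p ^ b) := by
    refine hZ.idealQuotient_mk ?_ ?_
    · rw [Ne, absNorm_eq_one_iff]
      exact IsMaximal.ne_top inferInstance
    · rw [← pow_inertiaDeg q]
      exact Nat.Coprime.pow _ _ ((Nat.coprime_primes hq hp).2 hqp)
  have hIz : ∀ s ∈ Q.inertia Gal(L/Y), s z = z := by
    intro s hs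
    have h1 := inertia_root hposp hZ hZ' hs
    have h2 := congrArg (fun u : 𝓞 L => (u : L)) h1
    exact h2
  by_cases hfix : ∀ s ∈ Q.inertia Gal(L/Y), s a = a
  · exact Or.inl (ram_of_fix hposp ha P hP0 hP' Q hfix)
  right
  push Not at hfix
  obtain ⟨s₀, hs₀, hs₀a⟩ := hfix
  have ha0 : a ≠ 0 := by
    rintro rfl
    rw [zero_pow hposp.ne'] at ha
    have : (q : L) ≠ 0 := by exact_mod_cast hq.ne_zero
    exact this ha.symm
  have hroot : ∀ s : Gal(L/Y), ∃ t : ℕ, s a = z ^ t * a := by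
    intro s
    obtain ⟨t, -, ht⟩ := hz.eq_pow_of_pow_eq_one (ξ := s a / a) (by
      rw [div_pow, ← map_pow, ha, map_natCast]
      refine div_self ?_
      exact_mod_cast hq.ne_zero)
    exact ⟨t, by rw [ht, div_mul_cancel₀ _ ha0]⟩
  have hpow : ∀ s ∈ Q.inertia Gal(L/Y), ∀ t : ℕ, s a = z ^ t * a → ∀ n : ℕ,
      (s ^ n) a = (z ^ t) ^ n * a := by
    intro s hs t ht n
    induction n with
    | zero => simp
    | succ n ih =>
      rw [pow_succ', AlgEquiv.mul_apply, ih, map_mul, map_pow, map_pow, hIz s hs, ht, pow_succ']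
      ring
  obtain ⟨t, ht⟩ := hroot s₀
  have hzt : z ^ t ≠ 1 := by
    intro h1
    rw [h1, one_mul] at ht
    exact hs₀a ht
  have hztp : (z ^ t) ^ p ^ b = 1 := by
    rw [← pow_mul, mul_comm, pow_mul, hz.pow_eq_one, one_pow]
  obtain ⟨r, -, hr⟩ := (Nat.dvd_prime_pow hp).1 (orderOf_dvd_of_pow_eq_one hztp)
  have hr0 : r ≠ 0 := by
    rintro rfl
    rw [pow_zero, orderOf_eq_one_iff] at hr
    exact hzt hr
  obtain ⟨r', rfl⟩ := Nat.exists_eq_succ_of_ne_zero hr0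
  -- an element of the inertia group that multiplies `a` by a root of unity of order `p`
  set s := s₀ ^ p ^ r' with hs
  have hsI : s ∈ Q.inertia Gal(L/Y) := Subgroup.pow_mem _ hs₀ _
  set ω := (z ^ t) ^ p ^ r' with hω
  have hωp : IsPrimitiveRoot ω p := by
    have h1 : IsPrimitiveRoot (z ^ t) (p ^ (r' + 1)) := by
      have h2 := IsPrimitiveRoot.orderOf (z ^ t)
      rwa [hr] at h2
    exact h1.pow (pow_pos hp.pos _) (pow_succ p r')
  have hsa : s a = ω * a := hpow s₀ hs₀ t ht _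
  have hωz : ω = z ^ (t * p ^ r') := by rw [hω, ← pow_mul]
  have hIω : ∀ u ∈ Q.inertia Gal(L/Y), u ω = ω := by
    intro u hu
    rw [hωz, map_pow, hIz u hu]
  have hω0 : ω ≠ 0 := hωp.ne_zero hp.ne_zero
  have hωpp : ω ^ p = 1 := hωp.pow_eq_one
  -- the elements of `C`
  have hCω : ∀ c ∈ C, c ∈ stabilizer Gal(L/Y) Q → c ω = ω := by
    intro c hc hcD
    set τ := c * s * c⁻¹ * s⁻¹ with hτ
    have hτI : τ ∈ Q.inertia Gal(L/Y) :=
      Subgroup.mul_mem _ (inertia_conj hcD hsI) (Subgroup.inv_mem _ hsI)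
    have hτC : τ ∈ C := by
      rw [hτ, mul_assoc, mul_assoc, ← mul_assoc s]
      exact C.mul_mem hc (hCn.conj_mem _ (C.inv_mem hc) _)
    obtain ⟨u, hu⟩ := hroot c⁻¹
    have hs' : s⁻¹ a = ω⁻¹ * a := by
      have h1 : s (ω⁻¹ * a) = a := by
        rw [map_mul, map_inv₀, hIω s hsI, hsa, ← mul_assoc, inv_mul_cancel₀ hω0, one_mul]
      have h2 := congrArg (fun y => s⁻¹ y) h1
      change s⁻¹ (s (ω⁻¹ * a)) = s⁻¹ a at h2
      rw [← AlgEquiv.mul_apply, inv_mul_cancel, AlgEquiv.one_apply] at h2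
      exact h2.symm
    obtain ⟨w, -, hw⟩ := hz.eq_pow_of_pow_eq_one (ξ := c⁻¹ ω) (by
      rw [← map_pow, hωz, ← pow_mul, mul_comm, pow_mul, hz.pow_eq_one, one_pow, map_one])
    have hsw : s (c⁻¹ ω) = c⁻¹ ω := by
      rw [← hw, map_pow, hIz s hsI]
    have hcc : ∀ y : L, c (c⁻¹ y) = y := by
      intro y
      rw [← AlgEquiv.mul_apply, mul_inv_cancel, AlgEquiv.one_apply]
    have hτa : τ a = (ω⁻¹ * c ω) * a := by
      rw [hτ, AlgEquiv.mul_apply, AlgEquiv.mul_apply, AlgEquiv.mul_apply, hs', map_mul, map_inv₀,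
        map_mul, map_inv₀, hsw, hu, map_mul s, map_pow s, hIz s hsI, hsa, map_mul, map_inv₀, hcc]
      have h3 : c (z ^ u * a) = a := by rw [← hu, hcc]
      have h4 : z ^ u * (ω * a) = ω * (z ^ u * a) := by ring
      rw [h4, map_mul, h3, ← mul_assoc]
    set κ := ω⁻¹ * c ω with hκ
    have hκp : κ ^ p = 1 := by
      rw [hκ, mul_pow, inv_pow, ← map_pow, hωpp, map_one, inv_one, one_mul]
    obtain ⟨v, -, hv⟩ := hωp.eq_pow_of_pow_eq_one hκp
    have hτκ : ∀ n : ℕ, (τ ^ n) a = κ ^ n * a := by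
      intro n
      induction n with
      | zero => simp
      | succ n ih =>
        rw [pow_succ', AlgEquiv.mul_apply, ih, map_mul, map_pow, ← hv, map_pow, hIω τ hτI, hv, hτa,
          pow_succ']
        ring
    have h5 : τ ^ Nat.card C = 1 := by
      have h6 : (⟨τ, hτC⟩ : C) ^ Nat.card C = 1 := pow_card_eq_one'
      exact congrArg Subtype.val h6
    have h7 : κ ^ Nat.card C = 1 := by
      have h8 := hτκ (Nat.card C)
      rw [h5, AlgEquiv.one_apply] at h8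
      exact mul_right_cancel₀ ha0 (by rw [← h8, one_mul])
    have h9 : κ = 1 := by
      have h10 : orderOf κ ∣ 1 := by
        have h11 := Nat.dvd_gcd (orderOf_dvd_of_pow_eq_one h7) (orderOf_dvd_of_pow_eq_one hκp)
        rwa [hCc.gcd_eq_one] at h11
      exact orderOf_eq_one_iff.1 (Nat.dvd_one.1 h10)
    rw [hκ] at h9
    have h12 := congrArg (fun y => ω * y) h9
    simp only [mul_one] at h12
    rwa [← mul_assoc, mul_inv_cancel₀ hω0, one_mul] at h12
  -- the Frobenius element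
  obtain ⟨g, hg⟩ := IsArithFrobAt.exists_of_isInvariant (𝓞 Y) Gal(L/Y) Q
  have hgD : g ∈ stabilizer Gal(L/Y) Q := hg.mem_stabilizer
  have hgω : g ω = ω := by
    obtain ⟨A, -, hA⟩ := hωp.eq_pow_of_pow_eq_one (ξ := g ω) (by
      rw [← map_pow, hωpp, map_one])
    have hpowA : ∀ n : ℕ, (g ^ n) ω = ω ^ A ^ n := by
      intro n
      induction n with
      | zero => simp
      | succ n ih =>
        rw [pow_succ', AlgEquiv.mul_apply, ih, map_pow, ← hA, ← pow_mul, pow_succ']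
    obtain ⟨k, hk⟩ := hCp g
    have h1 := hCω _ hk (Subgroup.pow_mem _ hgD _)
    rw [hpowA] at h1
    have h2 : ω ^ A ^ p ^ k = ω ^ 1 := by rw [h1, pow_one]
    rw [(hωp.isOfFinOrder (NeZero.ne _)).pow_inj_mod, ← hωp.eq_orderOf] at h2
    have h3 := (ZMod.natCast_eq_natCast_iff _ _ _).2 h2
    push_cast at h3
    rw [ZMod.pow_card_pow] at h3
    have h4 : ω ^ A = ω ^ 1 := by
      rw [(hωp.isOfFinOrder (NeZero.ne _)).pow_inj_mod, ← hωp.eq_orderOf]
      refine (ZMod.natCast_eq_natCast_iff _ _ _).1 ?_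
      rw [h3, Nat.cast_one]
    rw [← hA, h4, pow_one]
  have hP'' : Q.under (𝓞 Y) = P := (Ideal.over_def Q P).symm
  have h1 := hg (Z ^ (t * p ^ r'))
  have h2 : g • (Z ^ (t * p ^ r')) = Z ^ (t * p ^ r') := by
    apply RingOfIntegers.ext
    change g (((Z ^ (t * p ^ r') : 𝓞 L)) : L) = ((Z ^ (t * p ^ r') : 𝓞 L) : L)
    have h3 : ((Z ^ (t * p ^ r') : 𝓞 L) : L) = ω := by
      rw [hωz]
      push_cast
      rfl
    rw [h3, hgω]
  change g • (Z ^ (t * p ^ r')) - _ ∈ Q at h1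
  rw [h2, hP'', ← pow_mul] at h1
  have h4 := root_inj hposp hZ hZ' h1
  have h5 : ω = ω ^ Nat.card (𝓞 Y ⧸ P) := by
    have h6 := congrArg (fun u : 𝓞 L => (u : L)) h4
    rw [hωz, ← pow_mul]
    have h7 : ((Z ^ (t * p ^ r') : 𝓞 L) : L) = z ^ (t * p ^ r') := by
      push_cast
      rfl
    have h8 : ((Z ^ (t * p ^ r' * Nat.card (𝓞 Y ⧸ P)) : 𝓞 L) : L) =
        z ^ (t * p ^ r' * Nat.card (𝓞 Y ⧸ P)) := by
      push_cast
      rfl
    rw [← h7, ← h8]
    exact h6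
  have hN : 0 < Nat.card (𝓞 Y ⧸ P) := by
    have : Finite (𝓞 Y ⧸ P) := Ring.HasFiniteQuotients.finiteQuotient hP0
    exact Nat.card_pos
  have h9 : ω ^ (Nat.card (𝓞 Y ⧸ P) - 1) = 1 := by
    have h10 : ω ^ (Nat.card (𝓞 Y ⧸ P) - 1) * ω = 1 * ω := by
      rw [← pow_succ, Nat.sub_add_cancel hN, one_mul, ← h5]
    exact mul_right_cancel₀ hω0 h10
  exact hωp.dvd_of_pow_eq_one _ h9

end

end Pool.Agent.Q223.LD
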