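import Pool.Agent.Q223.LD.Dec2

/-! A totally real field that is ramified at `q`. -/

set_option autoImplicit false
set_option linter.unusedSectionVars false

namespace Pool.Agent.Q223.LD

open NumberField Polynomial Ideal

/-- real-rooted polynomials -/
def RR (f : ℚ[X]) : Prop := f ≠ 0 ∧ ∀ x : ℂ, aeval x f = 0 → (starRingEnd ℂ) x = x

theorem RR.mul {f g : ℚ[X]} (hf : RR f) (hg : RR g) : RR (f * g) := by
  refine ⟨mul_ne_zero hf.1 hg.1, fun x hx => ?_⟩
  rw [map_mul, mul_eq_zero] at hx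
  rcases hx with hx | hx
  · exact hf.2 x hx
  · exact hg.2 x hx

theorem rr_totallyReal {f : ℚ[X]} (hf : RR f) : IsTotallyReal f.SplittingField := by
  refine ⟨fun v => ?_⟩
  rw [InfinitePlace.isReal_iff, ComplexEmbedding.isReal_iff]
  set φ : f.SplittingField →+* ℂ := v.embedding
  let φ₁ : f.SplittingField →ₐ[ℚ] ℂ := RingHom.toRatAlgHom φ
  let φ₂ : f.SplittingField →ₐ[ℚ] ℂ := RingHom.toRatAlgHom (ComplexEmbedding.conjugate φ)
  have h1 : φ₂ = φ₁ := by
    refine AlgHom.ext_of_adjoin_eq_top (SplittingField.adjoin_rootSet f) ?_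
    intro x hx
    rw [mem_rootSet] at hx
    change (starRingEnd ℂ) (φ x) = φ x
    refine hf.2 _ ?_
    have h2 := congrArg φ hx.2
    rw [aeval_def, hom_eval₂, map_zero] at h2
    rwa [aeval_def, Subsingleton.elim (algebraMap ℚ ℂ) (φ.comp _)]
  ext x
  exact DFunLike.congr_fun h1 x

section dickson

/-- the structure of the Dickson polynomials -/
theorem dickson_struct (c : ℤ) (n : ℕ) : ∃ R : ℤ[X], R.natDegree ≤ n ∧
    dickson 1 (c ^ 4) (n + 1) = X ^ (n + 1) + C (c ^ 2) * R := by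
  have key : ∀ n : ℕ, (∃ R : ℤ[X], R.natDegree ≤ n ∧
      dickson 1 (c ^ 4) (n + 1) = X ^ (n + 1) + C (c ^ 2) * R) ∧
      ∃ R : ℤ[X], R.natDegree ≤ n + 1 ∧
      dickson 1 (c ^ 4) (n + 2) = X ^ (n + 2) + C (c ^ 2) * R := by
    intro n
    induction n with
    | zero =>
      refine ⟨⟨0, by simp, by simp⟩, ⟨C (-(2 * c ^ 2)),
        (natDegree_C _).le.trans (by omega), ?_⟩⟩
      rw [dickson_add_two]
      simp only [zero_add, dickson_one, dickson_zero, map_neg, map_mul, map_pow, Nat.cast_one]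
      have : (C (2 : ℤ) : ℤ[X]) = 2 := rfl
      rw [this]
      ring
    | succ n ih =>
      obtain ⟨⟨R, hR, h1⟩, ⟨R', hR', h2⟩⟩ := ih
      refine ⟨⟨R', hR', h2⟩, ⟨X * R' - C (c ^ 2) * dickson 1 (c ^ 4) (n + 1), ?_, ?_⟩⟩
      · refine (natDegree_sub_le _ _).trans (max_le ?_ ?_)
        · refine natDegree_mul_le.trans ?_
          rw [natDegree_X]
          omega
        · refine (natDegree_C_mul_le _ _).trans ?_
          rw [h1]
          refine (natDegree_add_le _ _).trans (max_le ?_ ?_)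
          · rw [natDegree_X_pow]; omega
          · exact (natDegree_C_mul_le _ _).trans (by omega)
      · rw [dickson_add_two, h2]
        simp only [map_pow]
        ring
  exact (key n).1

/-- the values of the Dickson polynomials -/
theorem dickson_cos (c t : ℂ) (n : ℕ) : (dickson 1 (c ^ 4) n).eval (2 * c ^ 2 * Complex.cos t) =
    2 * c ^ (2 * n) * Complex.cos (n * t) := by
  have key : ∀ n : ℕ, (dickson 1 (c ^ 4) n).eval (2 * c ^ 2 * Complex.cos t) =
      2 * c ^ (2 * n) * Complex.cos (n * t) ∧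
      (dickson 1 (c ^ 4) (n + 1)).eval (2 * c ^ 2 * Complex.cos t) =
      2 * c ^ (2 * (n + 1)) * Complex.cos ((n + 1 : ℕ) * t) := by
    intro n
    induction n with
    | zero =>
      constructor
      · simp
        norm_num
      · simp
    | succ n ih =>
      refine ⟨ih.2, ?_⟩
      rw [dickson_add_two, eval_sub, eval_mul, eval_mul, eval_X, eval_C, ih.1, ih.2]
      have h1 : Complex.cos (((n + 1 + 1 : ℕ) : ℂ) * t) =
          2 * Complex.cos t * Complex.cos (((n + 1 : ℕ) : ℂ) * t) - Complex.cos ((n : ℂ) * t) := by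
        have h2 : ((n + 1 + 1 : ℕ) : ℂ) * t = ((n + 1 : ℕ) : ℂ) * t + t := by push_cast; ring
        have h3 : ((n : ℕ) : ℂ) * t = ((n + 1 : ℕ) : ℂ) * t - t := by push_cast; ring
        rw [h2, h3, Complex.cos_add, Complex.cos_sub]
        ring
      rw [h1]
      ring
  exact (key n).1

/-- the polynomial -/
noncomputable def pr (q n : ℕ) : ℚ[X] := dickson 1 ((q : ℚ) ^ 4) n - C (q : ℚ)

theorem pr_aeval (q n : ℕ) (t : ℂ) : aeval (2 * (q : ℂ) ^ 2 * Complex.cos t) (pr q n) =
    2 * (q : ℂ) ^ (2 * n) * Complex.cos (n * t) - q := by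
  rw [← dickson_cos, pr, map_sub, aeval_C]
  have h1 : (dickson 1 ((q : ℂ) ^ 4) n) = (dickson 1 ((q : ℚ) ^ 4) n).map (algebraMap ℚ ℂ) := by
    rw [map_dickson]
    simp
  rw [h1, eval_map_algebraMap]
  simp

variable {q n : ℕ} (hq : 1 < q) (hn : 0 < n)
include hq hn

theorem pr_bound : (q : ℝ) / (2 * (q : ℝ) ^ (2 * n)) ∈ Set.Icc (-1 : ℝ) 1 := by
  have h1 : (1 : ℝ) < q := by exact_mod_cast hq
  have h2 : (q : ℝ) ≤ (q : ℝ) ^ (2 * n) := le_self_pow₀ h1.le (by omega)
  constructor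
  · have : 0 ≤ (q : ℝ) / (2 * (q : ℝ) ^ (2 * n)) := by positivity
    linarith
  · rw [div_le_one (by positivity)]
    linarith

theorem pr_RR : RR (pr q n) := by
  have hq0 : (q : ℂ) ≠ 0 := by
    have : q ≠ 0 := by omega
    exact_mod_cast this
  have hreal : ∀ x : ℂ, aeval x (pr q n) = 0 → (starRingEnd ℂ) x = x := by
    intro x hx
    obtain ⟨t, ht⟩ := Complex.cos_surjective (x / (2 * (q : ℂ) ^ 2))
    have hxt : x = 2 * (q : ℂ) ^ 2 * Complex.cos t := by
      rw [ht]
      field_simp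
    rw [hxt, pr_aeval] at hx
    have h1 : Complex.cos (n * t) = Complex.cos
        ((Real.arccos ((q : ℝ) / (2 * (q : ℝ) ^ (2 * n))) : ℝ) : ℂ) := by
      rw [← Complex.ofReal_cos, Real.cos_arccos (pr_bound hq hn).1 (pr_bound hq hn).2]
      push_cast
      rw [eq_div_iff (mul_ne_zero two_ne_zero (pow_ne_zero _ hq0))]
      linear_combination hx
    have hn0 : (n : ℂ) ≠ 0 := by exact_mod_cast hn.ne'
    have ht : (starRingEnd ℂ) t = t := by
      rw [Complex.cos_eq_cos_iff] at h1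
      obtain ⟨k, h2 | h2⟩ := h1
      · have h3 : t = (((Real.arccos ((q : ℝ) / (2 * (q : ℝ) ^ (2 * n))) - 2 * k * Real.pi) / n : ℝ)
            : ℂ) := by
          push_cast
          rw [eq_div_iff hn0]
          linear_combination -h2
        rw [h3, Complex.conj_ofReal]
      · have h3 : t = (((2 * k * Real.pi - Real.arccos ((q : ℝ) / (2 * (q : ℝ) ^ (2 * n)))) / n : ℝ)
            : ℂ) := by
          push_cast
          rw [eq_div_iff hn0]
          linear_combination h2
        rw [h3, Complex.conj_ofReal]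
    rw [hxt, map_mul, map_mul, map_pow, map_natCast, ← Complex.cos_conj, ht, map_ofNat]
  refine ⟨fun h0 => ?_, hreal⟩
  have h1 := hreal Complex.I (by rw [h0, map_zero])
  rw [Complex.conj_I] at h1
  have h2 := congrArg Complex.im h1
  simp at h2
  norm_num at h2

/-- the polynomial has a root in its splitting field -/
theorem pr_root : ∃ x : (pr q n).SplittingField, aeval x (pr q n) = 0 := by
  have hq0 : (q : ℂ) ≠ 0 := by
    have : q ≠ 0 := by omega
    exact_mod_cast this
  have hn0 : (n : ℂ) ≠ 0 := by exact_mod_cast hn.ne'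
  have hdeg : (pr q n).degree ≠ 0 := by
    intro hd
    obtain ⟨c, hc⟩ : ∃ c : ℚ, pr q n = C c := ⟨_, eq_C_of_degree_eq_zero hd⟩
    have h1 := pr_aeval q n (((Real.arccos ((q : ℝ) / (2 * (q : ℝ) ^ (2 * n))) : ℝ) : ℂ) / n)
    rw [mul_div_cancel₀ _ hn0, ← Complex.ofReal_cos,
      Real.cos_arccos (pr_bound hq hn).1 (pr_bound hq hn).2] at h1
    push_cast at h1
    rw [mul_div_cancel₀ _ (mul_ne_zero two_ne_zero (pow_ne_zero _ hq0)), sub_self, hc,
      aeval_C] at h1
    have h2 : c = 0 := by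
      have := (algebraMap ℚ ℂ).injective (h1.trans (map_zero _).symm)
      exact this
    exact (pr_RR hq hn).1 (by rw [hc, h2, map_zero])
  obtain ⟨x, hx⟩ := (SplittingField.splits (pr q n)).exists_eval_eq_zero (by rwa [degree_map])
  refine ⟨x, ?_⟩
  rwa [eval_map_algebraMap] at hx

/-- a root of the polynomial in a number field -/
theorem pr_int {N : Type} [Field N] [NumberField N] (x : N) (hx : aeval x (pr q n) = 0) :
    ∃ (α t : 𝓞 N), (α : N) = x ∧ α ^ n = (q : 𝓞 N) - (q : 𝓞 N) ^ 2 * t := by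
  obtain ⟨m, rfl⟩ : ∃ m, n = m + 1 := ⟨n - 1, by omega⟩
  obtain ⟨R, hR, h1⟩ := dickson_struct (q : ℤ) m
  let g : ℤ[X] := X ^ (m + 1) + (C ((q : ℤ) ^ 2) * R - C (q : ℤ))
  have hg : g.Monic := by
    refine monic_X_pow_add ?_
    refine lt_of_le_of_lt (degree_sub_le _ _) (max_lt ?_ ?_)
    · refine lt_of_le_of_lt degree_le_natDegree ?_
      have : (C ((q : ℤ) ^ 2) * R).natDegree < m + 1 :=
        lt_of_le_of_lt ((natDegree_C_mul_le _ _).trans hR) (by omega)
      exact_mod_cast this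
    · refine lt_of_le_of_lt degree_C_le ?_
      exact_mod_cast Nat.succ_pos m
  have h2 : pr q (m + 1) = g.map (algebraMap ℤ ℚ) := by
    have h3 : dickson 1 ((q : ℚ) ^ 4) (m + 1) =
        (dickson 1 ((q : ℤ) ^ 4) (m + 1)).map (algebraMap ℤ ℚ) := by
      rw [map_dickson]
      simp
    rw [pr, h3, h1]
    simp only [g, Polynomial.map_add, Polynomial.map_sub, Polynomial.map_mul, Polynomial.map_pow,
      map_X, map_C]
    simp
    ring
  have h4 : aeval x g = 0 := by
    rw [h2, aeval_map_algebraMap] at hx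
    exact hx
  have hint : IsIntegral ℤ x := ⟨g, hg, h4⟩
  let α : 𝓞 N := ⟨x, hint⟩
  have h5 : aeval α g = 0 := by
    apply RingOfIntegers.ext
    have h6 : algebraMap (𝓞 N) N (aeval α g) = aeval (algebraMap (𝓞 N) N α) g :=
      (aeval_algebraMap_apply N α g).symm
    change algebraMap (𝓞 N) N (aeval α g) = _
    rw [h6]
    exact h4
  refine ⟨α, aeval α R, rfl, ?_⟩
  simp only [g, map_add, map_sub, map_mul, map_pow, aeval_X] at h5
  simp only [map_natCast] at h5
  linear_combination h5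

/-- the ramification -/
theorem pr_ram {N : Type} [Field N] [NumberField N] (hqp : q.Prime) (x : N)
    (hx : aeval x (pr q n) = 0) (P : Ideal (𝓞 N)) [P.IsMaximal]
    [P.LiesOver (Ideal.span {(q : ℤ)})] : n ∣ P.ramificationIdx ℤ := by
  obtain ⟨α, t, -, hα⟩ := pr_int hq hn x hx
  have hspan : (Ideal.span {(q : ℤ)} : Ideal ℤ) ≠ ⊥ := by
    rw [Ne, Ideal.span_singleton_eq_bot]
    exact_mod_cast hqp.ne_zero
  have hP0 : P ≠ ⊥ := Ideal.ne_bot_of_liesOver_of_ne_bot hspan P
  have hPp : Prime P := Ideal.prime_of_isPrime hP0 inferInstance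
  have hqP : (q : 𝓞 N) ∈ P := by
    have h1 : (q : ℤ) ∈ P.under ℤ := by
      rw [← Ideal.over_def P (Ideal.span {(q : ℤ)})]
      exact Ideal.mem_span_singleton_self _
    rw [Ideal.mem_comap] at h1
    simpa using h1
  have hfac : (q : 𝓞 N) - (q : 𝓞 N) ^ 2 * t = q * (1 - q * t) := by ring
  have hu : (1 - q * t : 𝓞 N) ∉ P := by
    intro h
    have h1 : (1 : 𝓞 N) ∈ P := by
      have := P.add_mem h (P.mul_mem_right t hqP)
      simpa using this
    exact (Ideal.IsMaximal.ne_top inferInstance) ((Ideal.eq_top_iff_one P).2 h1)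
  have hmap : (Ideal.span {(q : ℤ)}).map (algebraMap ℤ (𝓞 N)) = Ideal.span {(q : 𝓞 N)} := by
    rw [Ideal.map_span, Set.image_singleton]
    congr 2
    simp
  have hq0 : (q : 𝓞 N) ≠ 0 := by exact_mod_cast hqp.ne_zero
  have hmap0 : (Ideal.span {(q : ℤ)}).map (algebraMap ℤ (𝓞 N)) ≠ ⊥ := by
    rw [hmap, Ne, Ideal.span_singleton_eq_bot]
    exact hq0
  rw [Ideal.IsDedekindDomain.ramificationIdx_eq_multiplicity (Ideal.span {(q : ℤ)}) P hmap0, hmap]
  have hu0 : (1 - q * t : 𝓞 N) ≠ 0 := fun h => hu (by rw [h]; exact P.zero_mem)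
  have hα0 : α ≠ 0 := by
    rintro rfl
    rw [hfac, zero_pow hn.ne'] at hα
    exact (mul_ne_zero hq0 hu0) hα.symm
  have h1 : Ideal.span {α} ^ n = Ideal.span {(q : 𝓞 N)} * Ideal.span {(1 - q * t : 𝓞 N)} := by
    rw [Ideal.span_singleton_pow, Ideal.span_singleton_mul_span_singleton, hα, hfac]
  have hne : ∀ y : 𝓞 N, y ≠ 0 → (Ideal.span {y} : Ideal (𝓞 N)) ≠ ⊥ := fun y hy => by
    rwa [Ne, Ideal.span_singleton_eq_bot]
  have h2 := congrArg (multiplicity P) h1
  rw [(FiniteMultiplicity.of_prime_left hPp (hne α hα0)).multiplicity_pow hPp,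
    multiplicity_mul hPp (FiniteMultiplicity.of_prime_left hPp
      (mul_ne_zero (hne _ hq0) (hne _ hu0)))] at h2
  have h3 : multiplicity P (Ideal.span {(1 - q * t : 𝓞 N)}) = 0 := by
    refine multiplicity_eq_zero.2 ?_
    rw [Ideal.dvd_span_singleton]
    exact hu
  rw [h3, add_zero] at h2
  rw [← h2]
  exact dvd_mul_right _ _

end dickson

end Pool.Agent.Q223.LD
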