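import Pool.Agent.Q223.LD.RG

/-! Powers of functions with a known continuation. -/

set_option autoImplicit false

namespace Pool.Agent.Q223.LD

open Filter Topology Pool.Agent.Q5.VL

/-- the identity theorem -/
theorem ident {Ω : Set ℂ} {s₁ : ℂ} (hΩ : IsDom Ω s₁) {f g : ℂ → ℂ} (hf : MeromorphicOn f Ω)
    (hg : MeromorphicOn g Ω) {t : ℕ} (hfg : ∃ b : ℝ, ∀ s : ℂ, b < s.re → g s = f s ^ t) :
    ∀ᶠ s in 𝓝[≠] s₁, g s = f s ^ t := by
  obtain ⟨c₁, hfg⟩ := hfg
  obtain ⟨hpre, h1, c₃, hhalf⟩ := hΩ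
  have hconn : IsConnected Ω := ⟨⟨s₁, h1⟩, hpre⟩
  have hd : MeromorphicOn (fun s => f s ^ t - g s) Ω := fun s hs =>
    ((hf s hs).fun_pow t).fun_sub (hg s hs)
  set c := max c₁ c₃ with hc
  have hopen : IsOpen {s : ℂ | c < s.re} := isOpen_lt continuous_const Complex.continuous_re
  have hp : c < (((c + 1 : ℝ)) : ℂ).re := by rw [Complex.ofReal_re]; linarith
  have h2 : meromorphicOrderAt (fun s => f s ^ t - g s) ((c + 1 : ℝ) : ℂ) = ⊤ := by
    rw [meromorphicOrderAt_eq_top_iff]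
    have h2' : ({s : ℂ | c < s.re} : Set ℂ) ∈ 𝓝 (((c + 1 : ℝ)) : ℂ) := hopen.mem_nhds hp
    filter_upwards [mem_nhdsWithin_of_mem_nhds h2'] with s hs
    rw [hfg s ((le_max_left _ _).trans_lt hs), sub_self]
  have h3 : meromorphicOrderAt (fun s => f s ^ t - g s) s₁ = ⊤ := by
    by_contra h4
    have h5 := (hd.exists_meromorphicOrderAt_ne_top_iff_forall hconn).1 ⟨⟨s₁, h1⟩, h4⟩
    exact h5 ⟨_, hhalf _ ((le_max_right _ _).trans_lt hp)⟩ h2
  rw [meromorphicOrderAt_eq_top_iff] at h3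
  filter_upwards [h3] with s hs
  exact (sub_eq_zero.1 hs).symm

/-- orders and leading coefficients of powers -/
theorem ident_order {Ω : Set ℂ} {s₁ : ℂ} (hΩ : IsDom Ω s₁) {f g : ℂ → ℂ} (hf : MeromorphicOn f Ω)
    (hg : MeromorphicOn g Ω) {t : ℕ} (ht : t ≠ 0)
    (hfg : ∃ b : ℝ, ∀ s : ℂ, b < s.re → g s = f s ^ t) {p : ℕ}
    (hp : meromorphicOrderAt g s₁ = ((t * p : ℕ) : WithTop ℤ)) :
    meromorphicOrderAt f s₁ = ((p : ℕ) : WithTop ℤ) ∧
      meromorphicTrailingCoeffAt g s₁ = (meromorphicTrailingCoeffAt f s₁) ^ t := by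
  have h1 := ident hΩ hf hg hfg
  have h2 : meromorphicOrderAt g s₁ = t * meromorphicOrderAt f s₁ := by
    rw [← fun_meromorphicOrderAt_pow (hf _ hΩ.2.1)]
    exact meromorphicOrderAt_congr h1
  constructor
  · rw [hp] at h2
    generalize meromorphicOrderAt f s₁ = x at h2
    cases x with
    | top =>
      exfalso
      have h7 : ((t : WithTop ℤ)) * ⊤ = ⊤ := WithTop.mul_top (by exact_mod_cast ht)
      rw [h7] at h2
      exact WithTop.coe_ne_top h2
    | coe x =>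
      have h7 : ((t * p : ℕ) : ℤ) = t * x := by
        apply WithTop.coe_injective
        rw [WithTop.coe_mul]
        exact h2
      have h8 : (t : ℤ) ≠ 0 := by exact_mod_cast ht
      push_cast at h7
      rw [← mul_left_cancel₀ h8 h7]
      rfl
  · rw [meromorphicTrailingCoeffAt_congr_nhdsNE h1]
    exact (hf _ hΩ.2.1).meromorphicTrailingCoeffAt_fun_pow

end Pool.Agent.Q223.LD
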