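import Mathlib

/-! A Galois extension of `ℚ` whose decomposition groups at `q` are not `r`-cyclic. -/

set_option autoImplicit false
set_option linter.unusedSectionVars false

namespace Pool.Agent.Q223.LD

open NumberField Polynomial

theorem geom_mul (A m n : ℕ) : ∑ i ∈ Finset.range (m * n), A ^ i =
    (∑ i ∈ Finset.range m, A ^ i) * ∑ j ∈ Finset.range n, (A ^ m) ^ j := by
  induction n with
  | zero => simp
  | succ n ih =>
    rw [Nat.mul_succ, Finset.sum_range_add, ih, Finset.sum_range_succ (fun j => (A ^ m) ^ j),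
      mul_add]
    congr 1
    rw [Finset.sum_mul]
    refine Finset.sum_congr rfl fun i _ => ?_
    rw [pow_add, pow_mul, mul_comm]

/-- `1 + A + ⋯ + A ^ (r ^ b - 1)` -/
theorem geom_dvd {r : ℕ} {A : ℕ} (hA : (A : ZMod r) = 1) (b : ℕ) :
    r ^ b ∣ ∑ i ∈ Finset.range (r ^ b), A ^ i := by
  induction b with
  | zero => simp
  | succ b ih =>
    rw [pow_succ, geom_mul]
    refine mul_dvd_mul ih ?_
    rw [← ZMod.natCast_eq_zero_iff]
    push_cast
    simp [hA]

/-- `A ^ (r ^ b) ≡ 1` modulo `r ^ b` -/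
theorem pow_modEq {r : ℕ} {A : ℕ} (hA : (A : ZMod r) = 1) (b : ℕ) :
    A ^ r ^ b ≡ 1 [MOD r ^ b] := by
  have h1 : (r : ℤ) ^ b ∣ (A : ℤ) ^ r ^ b - 1 := by
    rw [← geom_sum_mul]
    refine Dvd.dvd.mul_right ?_ _
    have := geom_dvd hA b
    exact_mod_cast this
  refine (Nat.ModEq.symm ?_)
  rw [Nat.modEq_iff_dvd]
  push_cast
  exact h1

theorem dvd_of_pow_sub_one {q a f : ℕ} (hq : 1 < q) (h : q ^ a - 1 ∣ q ^ f - 1) : a ∣ f := by
  have h1 := Nat.pow_sub_one_gcd_pow_sub_one q a f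
  rw [Nat.gcd_eq_left h] at h1
  have h2 : q ^ a = q ^ a.gcd f := by
    have h3 : 1 ≤ q ^ a := Nat.one_le_pow _ _ (by omega)
    have h4 : 1 ≤ q ^ a.gcd f := Nat.one_le_pow _ _ (by omega)
    omega
  have h5 := Nat.pow_right_injective (show 2 ≤ q by omega) h2
  rw [h5]
  exact Nat.gcd_dvd_right _ _

section
variable (q r b : ℕ)

/-- the polynomial -/
noncomputable def pol : ℚ[X] :=
  cyclotomic (r ^ b) ℚ * cyclotomic (q ^ r ^ b - 1) ℚ * (X ^ r ^ b - C (q : ℚ))

/-- the field -/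
abbrev KF : Type := (pol q r b).SplittingField

instance : CharZero (KF q r b) := charZero_of_injective_algebraMap (algebraMap ℚ (KF q r b)).injective

instance : NumberField (KF q r b) where
  to_charZero := inferInstance
  to_finiteDimensional := inferInstance

instance split : IsSplittingField ℚ (KF q r b) (pol q r b) :=
  Polynomial.IsSplittingField.splittingField (pol q r b)

instance : IsGalois ℚ (KF q r b) where
  to_isSeparable := inferInstance
  to_normal := Normal.of_isSplittingField (pol q r b)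

variable {q r b} (hq : 1 < q) (hr : 0 < r)
include hq hr

theorem pol_ne : pol q r b ≠ 0 := by
  refine mul_ne_zero (mul_ne_zero (cyclotomic_ne_zero _ _) (cyclotomic_ne_zero _ _)) ?_
  exact X_pow_sub_C_ne_zero (pow_pos hr b) _

theorem exists_root {f : ℚ[X]} (hf : f ∣ pol q r b) (hd : f.degree ≠ 0) :
    ∃ x : KF q r b, aeval x f = 0 := by
  have h1 : (f.map (algebraMap ℚ (KF q r b))).Splits := by
    refine Splits.of_dvd (SplittingField.splits (pol q r b)) ?_ (Polynomial.map_dvd _ hf)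
    exact (Polynomial.map_ne_zero_iff (algebraMap ℚ (KF q r b)).injective).2 (pol_ne hq hr)
  obtain ⟨x, hx⟩ := h1.exists_eval_eq_zero (by rwa [degree_map])
  refine ⟨x, ?_⟩
  rwa [eval_map_algebraMap] at hx

theorem exists_z₁ : ∃ x : KF q r b, IsPrimitiveRoot x (r ^ b) := by
  have hpos : 0 < r ^ b := pow_pos hr b
  obtain ⟨x, hx⟩ := exists_root (b := b) hq hr (f := cyclotomic (r ^ b) ℚ)
    ⟨cyclotomic (q ^ r ^ b - 1) ℚ * (X ^ r ^ b - C (q : ℚ)), by rw [pol, mul_assoc]⟩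
    (degree_cyclotomic_pos _ _ hpos).ne'
  refine ⟨x, ?_⟩
  have : NeZero ((r ^ b : ℕ) : KF q r b) := ⟨by exact_mod_cast hpos.ne'⟩
  rw [← isRoot_cyclotomic_iff, IsRoot.def, ← map_cyclotomic (r ^ b) (algebraMap ℚ (KF q r b)),
    eval_map_algebraMap]
  exact hx

theorem exists_z₂ : ∃ x : KF q r b, IsPrimitiveRoot x (q ^ r ^ b - 1) := by
  have hpos : 0 < q ^ r ^ b - 1 := by
    have : 1 < q ^ r ^ b := Nat.one_lt_pow (pow_pos hr b).ne' hq
    omega
  obtain ⟨x, hx⟩ := exists_root (b := b) hq hr (f := cyclotomic (q ^ r ^ b - 1) ℚ)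
    ⟨cyclotomic (r ^ b) ℚ * (X ^ r ^ b - C (q : ℚ)), by rw [pol]; ring⟩
    (degree_cyclotomic_pos _ _ hpos).ne'
  refine ⟨x, ?_⟩
  have : NeZero ((q ^ r ^ b - 1 : ℕ) : KF q r b) := ⟨by exact_mod_cast hpos.ne'⟩
  rw [← isRoot_cyclotomic_iff, IsRoot.def,
    ← map_cyclotomic (q ^ r ^ b - 1) (algebraMap ℚ (KF q r b)), eval_map_algebraMap]
  exact hx

theorem exists_a : ∃ x : KF q r b, x ^ r ^ b = (q : KF q r b) := by
  obtain ⟨x, hx⟩ := exists_root (b := b) hq hr (f := X ^ r ^ b - C (q : ℚ))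
    ⟨cyclotomic (r ^ b) ℚ * cyclotomic (q ^ r ^ b - 1) ℚ, by rw [pol, mul_comm]⟩
    (by
      rw [degree_X_pow_sub_C (pow_pos hr b)]
      exact_mod_cast (pow_pos hr b).ne')
  refine ⟨x, ?_⟩
  simpa [sub_eq_zero] using hx

/-- the automorphisms are determined by the generators -/
theorem aut_ext {z₁ z₂ a : KF q r b} (h₁ : IsPrimitiveRoot z₁ (r ^ b))
    (h₂ : IsPrimitiveRoot z₂ (q ^ r ^ b - 1)) (ha : a ^ r ^ b = (q : KF q r b))
    (s : Gal(KF q r b/ℚ)) (hs₁ : s z₁ = z₁) (hs₂ : s z₂ = z₂) (hsa : s a = a) : s = 1 := by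
  have hposr : 0 < r ^ b := pow_pos hr b
  have hpos : 0 < q ^ r ^ b - 1 := by
    have : 1 < q ^ r ^ b := Nat.one_lt_pow (pow_pos hr b).ne' hq
    omega
  have ha0 : a ≠ 0 := by
    rintro rfl
    rw [zero_pow hposr.ne'] at ha
    have : (q : KF q r b) ≠ 0 := by
      have : q ≠ 0 := by omega
      exact_mod_cast this
    exact this ha.symm
  have hroot : ∀ x ∈ (pol q r b).rootSet (KF q r b), s x = x := by
    intro x hx
    rw [mem_rootSet] at hx
    have hx' := hx.2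
    simp only [pol, map_mul, mul_eq_zero] at hx'
    rcases hx' with (hx' | hx') | hx'
    · have : NeZero ((r ^ b : ℕ) : KF q r b) := ⟨by exact_mod_cast hposr.ne'⟩
      have hp : IsPrimitiveRoot x (r ^ b) := by
        rw [← isRoot_cyclotomic_iff, IsRoot.def,
          ← map_cyclotomic (r ^ b) (algebraMap ℚ (KF q r b)), eval_map_algebraMap]
        exact hx'
      have : NeZero (r ^ b) := ⟨hposr.ne'⟩
      obtain ⟨i, -, rfl⟩ := h₁.eq_pow_of_pow_eq_one hp.pow_eq_one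
      rw [map_pow, hs₁]
    · have : NeZero ((q ^ r ^ b - 1 : ℕ) : KF q r b) := ⟨by exact_mod_cast hpos.ne'⟩
      have hp : IsPrimitiveRoot x (q ^ r ^ b - 1) := by
        rw [← isRoot_cyclotomic_iff, IsRoot.def,
          ← map_cyclotomic (q ^ r ^ b - 1) (algebraMap ℚ (KF q r b)), eval_map_algebraMap]
        exact hx'
      have : NeZero (q ^ r ^ b - 1) := ⟨hpos.ne'⟩
      obtain ⟨i, -, rfl⟩ := h₂.eq_pow_of_pow_eq_one hp.pow_eq_one
      rw [map_pow, hs₂]
    · have hx2 : x ^ r ^ b = (q : KF q r b) := by simpa [sub_eq_zero] using hx'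
      have h3 : (x / a) ^ r ^ b = 1 := by
        rw [div_pow, hx2, ha]
        refine div_self ?_
        rw [← ha]
        exact pow_ne_zero _ ha0
      have : NeZero (r ^ b) := ⟨hposr.ne'⟩
      obtain ⟨i, -, hi⟩ := h₁.eq_pow_of_pow_eq_one h3
      have h4 : x = z₁ ^ i * a := by
        rw [hi, div_mul_cancel₀ _ ha0]
      rw [h4, map_mul, map_pow, hs₁, hsa]
  have h5 : (s : KF q r b →ₐ[ℚ] KF q r b) = AlgHom.id ℚ _ := by
    refine AlgHom.ext_of_adjoin_eq_top (SplittingField.adjoin_rootSet (pol q r b)) ?_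
    intro x hx
    exact hroot x hx
  ext x
  exact DFunLike.congr_fun h5 x

end

end Pool.Agent.Q223.LD

namespace Pool.Agent.Q223.LD

open NumberField Polynomial

/-- **The field.** -/
theorem exists_field {q r : ℕ} (hq : 1 < q) (hr : 0 < r) (b : ℕ) :
    ∃ (N : Type) (_ : Field N) (_ : NumberField N) (_ : IsGalois ℚ N) (z₁ z₂ a : N),
      IsPrimitiveRoot z₁ (r ^ b) ∧ IsPrimitiveRoot z₂ (q ^ r ^ b - 1) ∧ a ^ r ^ b = (q : N) ∧
      (∀ s : Gal(N/ℚ), s z₁ = z₁ → s z₂ = z₂ → s a = a → s = 1) ∧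
      ∀ (L : Type) [Field L] [NumberField L], ((pol q r b).map (algebraMap ℚ L)).Splits →
        Nonempty (N →+* L) := by
  obtain ⟨z₁, h₁⟩ := exists_z₁ (b := b) hq hr
  obtain ⟨z₂, h₂⟩ := exists_z₂ (b := b) hq hr
  obtain ⟨a, ha⟩ := exists_a (b := b) hq hr
  exact ⟨KF q r b, inferInstance, inferInstance, inferInstance, z₁, z₂, a, h₁, h₂, ha,
    fun s => aut_ext hq hr h₁ h₂ ha s, fun L _ _ h =>
      ⟨(SplittingField.lift (pol q r b) h : KF q r b →ₐ[ℚ] L)⟩⟩

end Pool.Agent.Q223.LD
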