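import Pool.Agent.Q223.LD.Dec
import Pool.Agent.Q5.DP.Hyp
import Pool.Agent.Q5.VL.Abs

/-! The law for the local degrees. -/

set_option autoImplicit false
set_option linter.unusedSectionVars false

namespace Pool.Agent.Q223.LD

open NumberField MulAction Ideal Polynomial Pool.Agent.W353.NF Pool.Agent.W401.Cheb Pool.Agent.Q5.BR
open Pool.Agent.Q5.SO (Hyper)
open scoped Classical

/-- a Galois extension of `ℚ` above a number field -/
theorem exists_galois (F : Type) [Field F] [NumberField F] :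
    ∃ (L : Type) (_ : Field L) (_ : NumberField L) (_ : Algebra F L), IsGalois ℚ L := by
  let Ω := AlgebraicClosure F
  have : Algebra.IsAlgebraic ℚ Ω := Algebra.IsAlgebraic.trans ℚ F Ω
  have : IsAlgClosure ℚ Ω := ⟨inferInstance, inferInstance⟩
  have : Normal ℚ Ω := IsAlgClosure.normal ℚ Ω
  let L := IntermediateField.normalClosure ℚ F Ω
  have : FiniteDimensional ℚ L := inferInstance
  have hn : Normal ℚ L := normalClosure.normal ℚ F Ω
  exact ⟨L, inferInstance, NumberField.of_module_finite ℚ L, inferInstance, ⟨⟩⟩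

/-- a Galois extension with many decomposition groups -/
theorem exists_big (F : Type) [Field F] [NumberField F] {ι : Type} (s : Finset ι)
    (f : ι → ℚ[X]) (hf : ∀ t ∈ s, f t ≠ 0) :
    ∃ (L : Type) (_ : Field L) (_ : NumberField L) (_ : Algebra F L), IsGalois ℚ L ∧
      ∀ t ∈ s, ((f t).map (algebraMap ℚ L)).Splits := by
  let g : F[X] := ∏ t ∈ s, (f t).map (algebraMap ℚ F)
  have hg : g ≠ 0 := by
    rw [Finset.prod_ne_zero_iff]
    intro t ht
    exact (Polynomial.map_ne_zero_iff (algebraMap ℚ F).injective).2 (hf t ht)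
  have hc : CharZero g.SplittingField :=
    charZero_of_injective_algebraMap (algebraMap F g.SplittingField).injective
  have hnf : NumberField g.SplittingField := NumberField.of_module_finite F _
  obtain ⟨L, _, _, _, hL⟩ := exists_galois g.SplittingField
  refine ⟨L, inferInstance, inferInstance,
    ((algebraMap g.SplittingField L).comp (algebraMap F g.SplittingField)).toAlgebra, hL,
    fun t ht => ?_⟩
  have h1 : (g.map (algebraMap F g.SplittingField)).Splits := SplittingField.splits g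
  have h2 : (((f t).map (algebraMap ℚ F)).map (algebraMap F g.SplittingField)).Splits := by
    refine Splits.of_dvd h1 ?_ (Polynomial.map_dvd _ (Finset.dvd_prod_of_mem _ ht))
    exact (Polynomial.map_ne_zero_iff (algebraMap F g.SplittingField).injective).2 hg
  have h4 := h2.map (algebraMap g.SplittingField L)
  rw [Polynomial.map_map, Polynomial.map_map] at h4
  have h3 : ((algebraMap g.SplittingField L).comp
      (algebraMap F g.SplittingField)).comp (algebraMap ℚ F) = algebraMap ℚ L :=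
    Subsingleton.elim _ _
  rwa [h3] at h4

theorem hyper_hypP {G : Type} [Group G] (h : Hyper G) : ∃ p : ℕ, p.Prime ∧ HypP p G := by
  obtain ⟨p, hp, C, -, hC, -, hpow⟩ := h
  exact ⟨p, hp, C, hC, hpow⟩

theorem locDvd_mul {q : ℕ} {F : Type} [Field F] [NumberField F] {d e : ℕ} (hde : d.Coprime e)
    (hd : LocDvd q d F) (he : LocDvd q e F) : LocDvd q (d * e) F :=
  fun P hP hq => hde.mul_dvd_of_dvd_of_dvd (hd P hP hq) (he P hP hq)

theorem locDvd_of_primes {q m : ℕ} {F : Type} [Field F] [NumberField F] (hm : m ≠ 0)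
    (h : ∀ r ∈ m.primeFactors, LocDvd q (r ^ m.factorization r) F) : LocDvd q m F := by
  intro P hP hq
  rcases eq_or_ne (P.ramificationIdx ℤ * P.inertiaDeg ℤ) 0 with h0 | h0
  · rw [h0]; exact dvd_zero _
  rw [← Nat.factorization_le_iff_dvd hm h0]
  intro r
  by_cases hr : r ∈ m.primeFactors
  · exact (Nat.prime_of_mem_primeFactors hr).pow_dvd_iff_le_factorization h0 |>.1 (h r hr P hP hq)
  · rw [← Nat.support_factorization, Finsupp.notMem_support_iff] at hr
    rw [hr]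
    exact Nat.zero_le _

/-- **The relation.** -/
theorem loc_relation (F : Type) [Field F] [NumberField F] (S : Finset ℕ) (hS : ∀ q ∈ S, q.Prime)
    {M : ℕ} (hM : M ≠ 0) :
    ∃ (ι : Type) (_ : Fintype ι) (Y : ι → Ext F) (n : ι → ℤ),
      (∀ j, ∃ p : ℕ, p.Prime ∧ ∀ q ∈ S, LocDvd q (ordCompl[p] M) (Y j).F) ∧
      ∀ σ : GK F, ∑ j, n j * (fixn F (Y j).F σ : ℤ) = 1 := by
  obtain ⟨L, _, _, _, hgal, hL⟩ := exists_big F (S ×ˢ M.primeFactors)
    (fun t => pol t.1 t.2 (M.factorization t.2)) (fun t ht => by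
      rw [Finset.mem_product] at ht
      exact pol_ne (hS _ ht.1).one_lt (Nat.prime_of_mem_primeFactors ht.2).pos)
  have hgal' : IsGalois F L := IsGalois.tower_top_of_isGalois ℚ F L
  obtain ⟨ι, hι, Y, alg, n, hY, hrel⟩ := Pool.Agent.Q5.DP.hyper_relation L F
  refine ⟨ι, hι, Y, n, fun j => ?_, hrel⟩
  obtain ⟨p, hp, hH⟩ := hyper_hypP (hY j)
  refine ⟨p, hp, fun q hq => ?_⟩
  have hgY : IsGalois (Y j).F L := IsGalois.tower_top_of_isGalois ℚ (Y j).F L
  refine locDvd_of_primes (Nat.ordCompl_pos p hM).ne' fun r hr => ?_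
  have hr' : r.Prime := Nat.prime_of_mem_primeFactors hr
  have hrp : r ≠ p := by
    rintro rfl
    exact (Nat.not_dvd_ordCompl hr' hM) (Nat.dvd_of_mem_primeFactors hr)
  have hfac : (ordCompl[p] M).factorization r = M.factorization r := by
    rw [Nat.factorization_ordCompl, Finsupp.erase_ne hrp]
  have hrM : r ∈ M.primeFactors := by
    rw [Nat.mem_primeFactors]
    exact ⟨hr', (Nat.dvd_of_mem_primeFactors hr).trans (Nat.ordCompl_dvd M p), hM⟩
  have hb : 0 < M.factorization r := by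
    exact hr'.factorization_pos_of_dvd hM (Nat.dvd_of_mem_primeFactors hrM)
  rw [hfac]
  have hqf : Fact q.Prime := ⟨hS q hq⟩
  have hrf : Fact r.Prime := ⟨hr'⟩
  obtain ⟨N, _, _, hNgal, z₁, z₂, a, h₁, h₂, ha, hN, hemb⟩ :=
    exists_field (q := q) (r := r) (hS q hq).one_lt hr'.pos (M.factorization r)
  obtain ⟨i⟩ := hemb L (hL (q, r) (Finset.mem_product.2 ⟨hq, hrM⟩))
  exact locDvd_hyper hb h₁ h₂ ha hN hp hrp i hH

end Pool.Agent.Q223.LD

namespace Pool.Agent.Q223.LD

open NumberField MulAction Ideal Polynomial Pool.Agent.W353.NF Pool.Agent.W401.Cheb Pool.Agent.Q5.BR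
open Pool.Agent.Q5.VL (IsLaw)
open scoped Classical

/-- a set of integers closed under multiples without common divisor -/
theorem exists_M {D : Set ℕ} (hD : ∀ g : ℕ, (∀ d ∈ D, g ∣ d) → g = 1) :
    ∃ M : ℕ, M ≠ 0 ∧ ∀ p : ℕ, p.Prime → ∃ d ∈ D, d ≠ 0 ∧ d ∣ ordCompl[p] M := by
  have h1 : ∀ p : ℕ, p.Prime → ∃ d ∈ D, ¬ p ∣ d := by
    intro p hp
    by_contra hcon
    push Not at hcon
    exact hp.ne_one (hD p hcon)
  obtain ⟨d₀, hd₀, h2⟩ := h1 2 Nat.prime_two
  have h0 : d₀ ≠ 0 := by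
    rintro rfl
    exact h2 (dvd_zero _)
  choose! c hcD hcp using h1
  have hne : d₀ * ∏ p ∈ d₀.primeFactors, c p ≠ 0 := by
    refine mul_ne_zero h0 (Finset.prod_ne_zero_iff.2 fun p hp h => ?_)
    have := hcp p (Nat.prime_of_mem_primeFactors hp)
    rw [h] at this
    exact this (dvd_zero _)
  have hkey : ∀ p : ℕ, p.Prime → ∀ d : ℕ, d ≠ 0 → ¬ p ∣ d →
      d ∣ d₀ * ∏ p ∈ d₀.primeFactors, c p → d ∣ ordCompl[p] (d₀ * ∏ p ∈ d₀.primeFactors, c p) := by
    intro p hp d hd hpd hdvd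
    have h3 := Nat.ordCompl_dvd_ordCompl_of_dvd hdvd p
    rwa [(Nat.ordCompl_eq_self_iff_zero_or_not_dvd d hp).2 (Or.inr hpd)] at h3
  refine ⟨_, hne, fun p hp => ?_⟩
  by_cases hpd : p ∣ d₀
  · have hcp' := hcp p hp
    have hc0 : c p ≠ 0 := by
      intro h
      rw [h] at hcp'
      exact hcp' (dvd_zero _)
    refine ⟨c p, hcD p hp, hc0, hkey p hp _ hc0 hcp' ?_⟩
    refine Dvd.dvd.mul_left (Finset.dvd_prod_of_mem c ?_) _
    exact Nat.mem_primeFactors.2 ⟨hp, hpd, h0⟩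
  · exact ⟨d₀, hd₀, h0, hkey p hp _ h0 hpd (dvd_mul_right _ _)⟩

section
variable {K : Type} [Field K] [NumberField K]
  {P : ∀ (F : Type) [Field F] [NumberField F] [Algebra K F], ℤ → Prop}

/-- **The law for the local degrees.** -/
theorem loc_law (hP : IsLaw P) {S : Finset ℕ} (hS : ∀ q ∈ S, q.Prime) {D : ℕ → Set ℕ}
    (hD : ∀ q ∈ S, ∀ d ∈ D q, ∀ n : ℕ, 0 < n → d * n ∈ D q)
    (hD' : ∀ q ∈ S, ∀ g : ℕ, (∀ d ∈ D q, g ∣ d) → g = 1)
    (h : ∀ (F : Type) [Field F] [NumberField F] [Algebra K F],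
      (∀ q ∈ S, ∀ I : Ideal (𝓞 F), I.IsPrime → (q : 𝓞 F) ∈ I →
        I.ramificationIdx ℤ * I.inertiaDeg ℤ ∈ D q) → P F 1)
    (F : Type) [Field F] [NumberField F] [Algebra K F] : P F 1 := by
  have hM : ∀ q ∈ S, ∃ M : ℕ, M ≠ 0 ∧ ∀ p : ℕ, p.Prime → ∃ d ∈ D q, d ≠ 0 ∧
      d ∣ ordCompl[p] M := fun q hq => exists_M (hD' q hq)
  choose! M hM0 hMp using hM
  have hprod : ∏ q ∈ S, M q ≠ 0 := Finset.prod_ne_zero_iff.2 hM0
  obtain ⟨ι, _, Y, n, hY, hrel⟩ := loc_relation F S hS hprod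
  let _ : ∀ j, Algebra K (Y j).F := fun j =>
    ((algebraMap F (Y j).F).comp (algebraMap K F)).toAlgebra
  have : ∀ j, IsScalarTower K F (Y j).F := fun j => IsScalarTower.of_algebraMap_eq fun x => rfl
  have h2 := hP.step F ι Y n 1 hrel 1 (fun j => by
    refine h (Y j).F fun q hq I hI hqI => ?_
    obtain ⟨p, hp, hpl⟩ := hY j
    obtain ⟨d, hdD, hd0, hdvd⟩ := hMp q hq p hp
    have h3 := hpl q hq I hI hqI
    have h4 : d ∣ I.ramificationIdx ℤ * I.inertiaDeg ℤ :=
      (hdvd.trans (Nat.ordCompl_dvd_ordCompl_of_dvd (Finset.dvd_prod_of_mem M hq) p)).trans h3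
    obtain ⟨m, hm⟩ := h4
    rw [hm]
    refine hD q hq d hdD m (Nat.pos_of_ne_zero ?_)
    rintro rfl
    rw [mul_zero] at hm
    exact (Nat.mul_pos (ramificationIdx_pos I ℤ) (inertiaDeg_pos I ℤ)).ne' hm)
  rwa [one_mul] at h2

end

end Pool.Agent.Q223.LD
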