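import Pool.Agent.Q223.LD.Kum

/-! The decomposition groups at the primes above `q`. -/

set_option autoImplicit false
set_option linter.unusedSectionVars false

namespace Pool.Agent.Q223.LD

open NumberField MulAction Ideal
open scoped Pointwise

attribute [local instance] Ideal.Quotient.field

section
variable {N : Type} [Field N] [NumberField N] [IsGalois ℚ N] {q r b : ℕ} [Fact q.Prime]
  [Fact r.Prime] {z₁ z₂ a : N}
  (P : Ideal (𝓞 N)) [P.IsMaximal] [P.LiesOver (Ideal.span {(q : ℤ)})]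

/-- the ramification -/
theorem ram (ha : a ^ r ^ b = (q : N)) : r ^ b ∣ P.ramificationIdx ℤ := by
  have hq0 : q ≠ 0 := (Fact.out : q.Prime).ne_zero
  have hint : IsIntegral ℤ a := by
    refine IsIntegral.of_pow (pow_pos (Fact.out : r.Prime).pos b) ?_
    rw [ha]
    have h := isIntegral_algebraMap (R := ℤ) (A := N) (x := (q : ℤ))
    simpa using h
  let α : 𝓞 N := ⟨a, hint⟩
  have hα : α ^ r ^ b = (q : 𝓞 N) := by
    apply RingOfIntegers.ext
    push_cast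
    exact ha
  have hmap : (Ideal.span {(q : ℤ)}).map (algebraMap ℤ (𝓞 N)) = (Ideal.span {α}) ^ r ^ b := by
    rw [Ideal.map_span, Set.image_singleton, Ideal.span_singleton_pow, hα]
    congr 2
    simp
  have hα0 : α ≠ 0 := by
    intro h
    rw [h, zero_pow (pow_pos (Fact.out : r.Prime).pos b).ne'] at hα
    exact hq0 (by exact_mod_cast hα.symm)
  have hne : (Ideal.span {α} : Ideal (𝓞 N)) ≠ ⊥ := by
    rwa [Ne, Ideal.span_singleton_eq_bot]
  have hmap0 : (Ideal.span {(q : ℤ)}).map (algebraMap ℤ (𝓞 N)) ≠ ⊥ := by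
    rw [hmap]
    exact pow_ne_zero _ hne
  have hspan : (Ideal.span {(q : ℤ)} : Ideal ℤ) ≠ ⊥ := by
    rw [Ne, Ideal.span_singleton_eq_bot]
    exact_mod_cast hq0
  have hP0 : P ≠ ⊥ := Ideal.ne_bot_of_liesOver_of_ne_bot hspan P
  rw [Ideal.IsDedekindDomain.ramificationIdx_eq_multiplicity (Ideal.span {(q : ℤ)}) P hmap0, hmap]
  have hPp : Prime P := Ideal.prime_of_isPrime hP0 inferInstance
  have hfin : FiniteMultiplicity P (Ideal.span {α}) :=
    FiniteMultiplicity.of_prime_left hPp hne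
  rw [hfin.multiplicity_pow hPp]
  exact dvd_mul_right _ _

theorem prim_mk (h₂ : IsPrimitiveRoot z₂ (q ^ r ^ b - 1)) (Z : 𝓞 N) (hZ : (Z : N) = z₂) :
    IsPrimitiveRoot (Ideal.Quotient.mk P Z) (q ^ r ^ b - 1) := by
  have hq := (Fact.out : q.Prime)
  have hpos : 0 < q ^ r ^ b - 1 := by
    have : 1 < q ^ r ^ b :=
      Nat.one_lt_pow (pow_pos (Fact.out : r.Prime).pos b).ne' hq.one_lt
    omega
  have : NeZero (q ^ r ^ b - 1) := ⟨hpos.ne'⟩
  have hZp : IsPrimitiveRoot Z (q ^ r ^ b - 1) := by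
    refine IsPrimitiveRoot.of_map_of_injective (f := algebraMap (𝓞 N) N) ?_
      RingOfIntegers.coe_injective
    change IsPrimitiveRoot (Z : N) _
    rwa [hZ]
  refine hZp.idealQuotient_mk ?_ ?_
  · rw [Ne, absNorm_eq_one_iff]
    exact IsMaximal.ne_top inferInstance
  · rw [← pow_inertiaDeg q]
    refine Nat.Coprime.pow_left _ ?_
    rw [Nat.coprime_comm]
    have h1 : (q ^ r ^ b - 1).Coprime (q ^ r ^ b) := by
      have h2 : q ^ r ^ b = (q ^ r ^ b - 1) + 1 := by omega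
      conv_rhs => rw [h2]
      exact Nat.coprime_self_add_right.2 (Nat.coprime_one_right _)
    exact Nat.Coprime.coprime_dvd_right
      (dvd_pow_self q (pow_pos (Fact.out : r.Prime).pos b).ne') h1

/-- the inertia degree -/
theorem inert (h₂ : IsPrimitiveRoot z₂ (q ^ r ^ b - 1)) : r ^ b ∣ P.inertiaDeg ℤ := by
  have hq := (Fact.out : q.Prime)
  have hspan : (Ideal.span {(q : ℤ)} : Ideal ℤ) ≠ ⊥ := by
    rw [Ne, Ideal.span_singleton_eq_bot]
    exact_mod_cast hq.ne_zero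
  have hP0 : P ≠ ⊥ := Ideal.ne_bot_of_liesOver_of_ne_bot hspan P
  have hpos : 0 < q ^ r ^ b - 1 := by
    have : 1 < q ^ r ^ b :=
      Nat.one_lt_pow (pow_pos (Fact.out : r.Prime).pos b).ne' hq.one_lt
    omega
  have : NeZero (q ^ r ^ b - 1) := ⟨hpos.ne'⟩
  have hint : IsIntegral ℤ z₂ := h₂.isIntegral hpos
  let Z : 𝓞 N := ⟨z₂, hint⟩
  have h3 := prim_mk P h₂ Z rfl
  have : Finite (𝓞 N ⧸ P) := Ring.HasFiniteQuotients.finiteQuotient hP0
  have : Fintype (𝓞 N ⧸ P) := Fintype.ofFinite _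
  have h4 : (Ideal.Quotient.mk P Z) ^ (Fintype.card (𝓞 N ⧸ P) - 1) = 1 :=
    FiniteField.pow_card_sub_one_eq_one _ (h3.ne_zero hpos.ne')
  have h5 := h3.dvd_of_pow_eq_one _ h4
  have h6 : Fintype.card (𝓞 N ⧸ P) = q ^ P.inertiaDeg ℤ := by
    rw [pow_inertiaDeg q P, absNorm_apply, Submodule.cardQuot_apply, Nat.card_eq_fintype_card]
  rw [h6] at h5
  exact dvd_of_pow_sub_one hq.one_lt h5

/-- the action of the decomposition group on the roots of unity prime to `q` -/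
theorem dec_frob (h₂ : IsPrimitiveRoot z₂ (q ^ r ^ b - 1)) {s : Gal(N/ℚ)}
    (hs : s ∈ stabilizer Gal(N/ℚ) P) : ∃ i : ℕ, s z₂ = z₂ ^ q ^ i := by
  have hq := (Fact.out : q.Prime)
  have hspan : (Ideal.span {(q : ℤ)} : Ideal ℤ) ≠ ⊥ := by
    rw [Ne, Ideal.span_singleton_eq_bot]
    exact_mod_cast hq.ne_zero
  have hP0 : P ≠ ⊥ := Ideal.ne_bot_of_liesOver_of_ne_bot hspan P
  have hpos : 0 < q ^ r ^ b - 1 := by
    have : 1 < q ^ r ^ b :=
      Nat.one_lt_pow (pow_pos (Fact.out : r.Prime).pos b).ne' hq.one_lt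
    omega
  have : NeZero (q ^ r ^ b - 1) := ⟨hpos.ne'⟩
  have hint : IsIntegral ℤ z₂ := h₂.isIntegral hpos
  let Z : 𝓞 N := ⟨z₂, hint⟩
  have h3 := prim_mk P h₂ Z rfl
  let τ := IsFractionRing.stabilizerHom Gal(N/ℚ) (Ideal.span {(q : ℤ)}) P
     (ℤ ⧸ span {(q : ℤ)}) (𝓞 N ⧸ P) ⟨s, hs⟩
  have : CharP (ℤ ⧸ span {(q : ℤ)}) q := ringChar.of_eq <| Int.ringChar_idealQuot q
  have : Finite (𝓞 N ⧸ P) := Ring.HasFiniteQuotients.finiteQuotient hP0
  obtain ⟨i, hi⟩ := FiniteField.exists_forall_apply_eq_pow (ℤ ⧸ span {(q : ℤ)}) q (𝓞 N ⧸ P) τ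
  refine ⟨i, ?_⟩
  have h₁ := IsFractionRing.stabilizerHom_apply_apply_mk Gal(N/ℚ) (Ideal.span {(q : ℤ)}) P
      (ℤ ⧸ span {(q : ℤ)}) (𝓞 N ⧸ P) ⟨s, hs⟩ Z
  simp only [Algebra.algebraMap_self, RingHomCompTriple.comp_apply] at h₁
  specialize hi (Ideal.Quotient.mk P Z)
  obtain ⟨j, hj, hj'⟩ := h₂.eq_pow_of_pow_eq_one (ξ := s z₂) (by
    rw [← map_pow, h₂.pow_eq_one, map_one])
  have hsZ : s • Z = Z ^ j := by
    apply RingOfIntegers.ext
    change s z₂ = ((Z ^ j : 𝓞 N) : N)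
    rw [← hj']
    push_cast
    rfl
  rw [h₁, Int.card_ideal_quot, hsZ, map_pow, (h3.isOfFinOrder (NeZero.ne _)).pow_inj_mod,
    ← h3.eq_orderOf] at hi
  rw [← hj', (h₂.isOfFinOrder (NeZero.ne _)).pow_inj_mod, ← h₂.eq_orderOf]
  exact hi

/-- elements of `r`-power order of the decomposition group -/
theorem dec_exp (hb : 0 < b) (h₁ : IsPrimitiveRoot z₁ (r ^ b))
    (h₂ : IsPrimitiveRoot z₂ (q ^ r ^ b - 1)) (ha : a ^ r ^ b = (q : N))
    (hN : ∀ s : Gal(N/ℚ), s z₁ = z₁ → s z₂ = z₂ → s a = a → s = 1) {s : Gal(N/ℚ)}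
    (hs : s ∈ stabilizer Gal(N/ℚ) P) (hs' : ∃ k : ℕ, s ^ r ^ k = 1) : s ^ r ^ b = 1 := by
  have hq := (Fact.out : q.Prime)
  have hr := (Fact.out : r.Prime)
  have hposr : 0 < r ^ b := pow_pos hr.pos b
  have hner : NeZero (r ^ b) := ⟨hposr.ne'⟩
  have hpos : 0 < q ^ r ^ b - 1 := by
    have : 1 < q ^ r ^ b := Nat.one_lt_pow hposr.ne' hq.one_lt
    omega
  obtain ⟨k, hk⟩ := hs'
  -- the action on `z₁`
  obtain ⟨A, -, hA⟩ := h₁.eq_pow_of_pow_eq_one (ξ := s z₁) (by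
    rw [← map_pow, h₁.pow_eq_one, map_one])
  have hpowA : ∀ n : ℕ, (s ^ n) z₁ = z₁ ^ A ^ n := by
    intro n
    induction n with
    | zero => simp
    | succ n ih =>
      rw [pow_succ', AlgEquiv.mul_apply, ih, map_pow, ← hA, ← pow_mul, pow_succ']
  have hA1 : (A : ZMod r) = 1 := by
    have h3 := hpowA (r ^ k)
    rw [hk, AlgEquiv.one_apply] at h3
    have h4 : z₁ ^ 1 = z₁ ^ A ^ r ^ k := by rw [pow_one]; exact h3
    rw [(h₁.isOfFinOrder (NeZero.ne _)).pow_inj_mod, ← h₁.eq_orderOf] at h4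
    have h5 : 1 ≡ A ^ r ^ k [MOD r] :=
      Nat.ModEq.of_dvd (dvd_pow_self r hb.ne') h4
    have h6 := (ZMod.natCast_eq_natCast_iff _ _ _).2 h5
    push_cast at h6
    rw [ZMod.pow_card_pow] at h6
    exact h6.symm
  refine hN _ ?_ ?_ ?_
  · rw [hpowA]
    have h3 := pow_modEq hA1 b
    have h4 : z₁ ^ A ^ r ^ b = z₁ ^ 1 := by
      rw [(h₁.isOfFinOrder (NeZero.ne _)).pow_inj_mod, ← h₁.eq_orderOf]
      exact h3
    rw [h4, pow_one]
  · obtain ⟨i, hi⟩ := dec_frob P h₂ hs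
    have hpow : ∀ n : ℕ, (s ^ n) z₂ = z₂ ^ (q ^ i) ^ n := by
      intro n
      induction n with
      | zero => simp
      | succ n ih =>
        rw [pow_succ', AlgEquiv.mul_apply, ih, map_pow, hi, ← pow_mul, pow_succ']
    rw [hpow]
    have h4 : z₂ ^ (q ^ i) ^ r ^ b = z₂ ^ 1 := by
      have : NeZero (q ^ r ^ b - 1) := ⟨hpos.ne'⟩
      rw [(h₂.isOfFinOrder (NeZero.ne _)).pow_inj_mod, ← h₂.eq_orderOf]
      have h5 : q ^ r ^ b ≡ 1 [MOD (q ^ r ^ b - 1)] := by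
        have h6 : 1 ≤ q ^ r ^ b := by omega
        exact ((Nat.modEq_iff_dvd' h6).2 dvd_rfl).symm
      have h7 := h5.pow i
      rw [one_pow, ← pow_mul, mul_comm, pow_mul] at h7
      exact h7
    rw [h4, pow_one]
  · have ha0 : a ≠ 0 := by
      rintro rfl
      rw [zero_pow hposr.ne'] at ha
      have : (q : N) ≠ 0 := by exact_mod_cast hq.ne_zero
      exact this ha.symm
    obtain ⟨t, -, ht⟩ := h₁.eq_pow_of_pow_eq_one (ξ := s a / a) (by
      rw [div_pow, ← map_pow, ha, map_natCast]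
      refine div_self ?_
      exact_mod_cast hq.ne_zero)
    have hsa : s a = z₁ ^ t * a := by rw [ht, div_mul_cancel₀ _ ha0]
    have hpow : ∀ n : ℕ, (s ^ n) a = z₁ ^ (t * ∑ i ∈ Finset.range n, A ^ i) * a := by
      intro n
      induction n with
      | zero => simp
      | succ n ih =>
        rw [pow_succ, AlgEquiv.mul_apply, hsa, map_mul, map_pow, ih, hpowA, ← mul_assoc,
          ← pow_mul, ← pow_add, Finset.sum_range_succ]
        congr 2
        ring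
    rw [hpow]
    have h4 : z₁ ^ (t * ∑ i ∈ Finset.range (r ^ b), A ^ i) = 1 := by
      rw [h₁.pow_eq_one_iff_dvd]
      exact (geom_dvd hA1 b).mul_left t
    rw [h4, one_mul]

end

end Pool.Agent.Q223.LD
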