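import Pool.Agent.Q223.LD.Step
import Pool.Agent.Q223.LD.Dich

/-! The power law for the local degrees. -/

set_option autoImplicit false
set_option linter.unusedSectionVars false

namespace Pool.Agent.Q223.LD

open NumberField Ideal Polynomial Pool.Agent.W353.NF Pool.Agent.W401.Cheb Pool.Agent.Q5.BR
open Pool.Agent.Q5.SO (Hyper)
open Pool.Agent.Q5.VL (IsLaw)
open scoped Classical

theorem goodP_up {p : ℕ} {t : ℕ → ℕ} {S : Finset ℕ} {Y Z : Type} [Field Y] [NumberField Y] [Field Z]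
    [NumberField Z] [Algebra Y Z] (h : GoodP p t S Y) (hS : ∀ q ∈ S, q.Prime) : GoodP p t S Z := by
  intro q hq P' hP' hqP'
  set P := P'.under (𝓞 Y) with hPdef
  have hPp : P.IsPrime := Ideal.IsPrime.under (𝓞 Y) P'
  have hqP : (q : 𝓞 Y) ∈ P := by
    rw [hPdef, Ideal.mem_comap]
    simpa using hqP'
  have hover : P.LiesOver (Ideal.span {(q : ℤ)}) := liesOver_of_mem (hS q hq) P hqP
  have hspan : (Ideal.span {(q : ℤ)} : Ideal ℤ) ≠ ⊥ := by
    rw [Ne, Ideal.span_singleton_eq_bot]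
    exact_mod_cast (hS q hq).ne_zero
  have hP0 : P ≠ ⊥ := Ideal.ne_bot_of_liesOver_of_ne_bot hspan P
  have hPm : P.IsMaximal := Ideal.IsPrime.isMaximal inferInstance hP0
  have hP'0 : P' ≠ ⊥ := Ideal.ne_bot_of_liesOver_of_ne_bot hP0 P'
  have hP'm : P'.IsMaximal := Ideal.IsPrime.isMaximal inferInstance hP'0
  rcases h q hq P hPp hqP with h1 | h1 | h1
  · left
    rw [ramificationIdx_tower (R := ℤ) P P', inertiaDeg_tower (R := ℤ) P P']
    have h2 : P.ramificationIdx ℤ * P'.ramificationIdx (𝓞 Y) *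
        (P.inertiaDeg ℤ * P'.inertiaDeg (𝓞 Y)) = (P.ramificationIdx ℤ * P.inertiaDeg ℤ) *
        (P'.ramificationIdx (𝓞 Y) * P'.inertiaDeg (𝓞 Y)) := by ring
    rw [h2]
    exact h1.mul_right _
  · exact Or.inr (Or.inl h1)
  · right
    right
    have hfinP : Finite (𝓞 Y ⧸ P) := Ring.HasFiniteQuotients.finiteQuotient hP0
    have hfinP' : Finite (𝓞 Z ⧸ P') := Ring.HasFiniteQuotients.finiteQuotient hP'0
    have hcard : Nat.card (𝓞 Z ⧸ P') = Nat.card (𝓞 Y ⧸ P) ^ P'.inertiaDeg (𝓞 Y) := by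
      let _ : Field (𝓞 Y ⧸ P) := Ideal.Quotient.field P
      rw [Ideal.inertiaDeg_eq_of_isMaximal P P', Module.natCard_eq_pow_finrank (K := 𝓞 Y ⧸ P)]
    rw [hcard]
    refine h1.trans ?_
    simpa using Nat.sub_dvd_pow_sub_pow (Nat.card (𝓞 Y ⧸ P)) 1 (P'.inertiaDeg (𝓞 Y))

theorem locDvd_alg {q d : ℕ} {F F' : Type} [Field F] [NumberField F] [Field F'] [NumberField F']
    [Algebra F F'] (h : LocDvd q d F) : LocDvd q d F' := locDvd_up (algebraMap F F') h

section
variable {K : Type} [Field K] [NumberField K]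
  {P : ∀ (F : Type) [Field F] [NumberField F] [Algebra K F], ℤ → Prop}

theorem law_nsmul (hP : IsLaw P) (F : Type) [Field F] [NumberField F] [Algebra K F] {t : ℤ}
    (h : P F t) (k : ℕ) : P F (k * t) := by
  induction k with
  | zero =>
    rw [Nat.cast_zero, zero_mul]
    exact hP.zero F
  | succ k ih =>
    rw [Nat.cast_succ, add_mul, one_mul]
    exact hP.add F _ _ ih h

theorem good_law (hP : IsLaw P) {S : Finset ℕ} (hS : ∀ q ∈ S, q.Prime) {p : ℕ} (hp : p.Prime)
    {t R : ℕ → ℕ}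
    (h : ∀ (Z : Type) [Field Z] [NumberField Z] [Algebra K Z], (∀ q ∈ S, LocDvd q (p ^ t q) Z) →
      (∀ q ∈ S, LocDvd q (R q) Z) → P Z 1) (m : ℕ) :
    ∀ (Y : Type) [Field Y] [NumberField Y] [Algebra K Y], GoodP p t S Y →
      (∀ q ∈ S, LocDvd q (p ^ (t q - m)) Y) → (∀ q ∈ S, LocDvd q (R q) Y) →
      P Y ((p ^ m : ℕ) : ℤ) := by
  induction m with
  | zero =>
    intro Y _ _ _ _ h1 h2
    rw [pow_zero, Nat.cast_one]
    exact h Y (fun q hq => by simpa using h1 q hq) h2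
  | succ m ih =>
    intro Y _ _ _ hG h1 h2
    obtain ⟨ι, _, X, n, hX, hrel⟩ := step_relation hp hS hG m h1
    let _ : ∀ j, Algebra K (X j).F := fun j =>
      ((algebraMap Y (X j).F).comp (algebraMap K Y)).toAlgebra
    have : ∀ j, IsScalarTower K Y (X j).F := fun j =>
      IsScalarTower.of_algebraMap_eq fun x => rfl
    have h6 : ((p ^ (m + 1) : ℕ) : ℤ) = (p : ℤ) * ((p ^ m : ℕ) : ℤ) := by push_cast; ring
    rw [h6]
    exact hP.step Y ι X n p hrel ((p ^ m : ℕ) : ℤ) fun j =>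
      ih (X j).F (goodP_up hG hS) (hX j) fun q hq => locDvd_alg (h2 q hq)

/-- **The law for the local degrees.** -/
theorem loc_gen_law (hP : IsLaw P) {S : Finset ℕ} (hS : ∀ q ∈ S, q.Prime) {D : ℕ → Set ℕ}
    (hD : ∀ q ∈ S, ∀ d ∈ D q, ∀ n : ℕ, 0 < n → d * n ∈ D q)
    (h : ∀ (F : Type) [Field F] [NumberField F] [Algebra K F],
      (∀ q ∈ S, ∀ I : Ideal (𝓞 F), I.IsPrime → (q : 𝓞 F) ∈ I →
        I.ramificationIdx ℤ * I.inertiaDeg ℤ ∈ D q) → P F 1)
    (F : Type) [Field F] [NumberField F] [Algebra K F] {e : ℕ} (he : e ≠ 0)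
    (H : ∀ p : ℕ, p.Prime → ∃ d : ℕ → ℕ, ∀ q ∈ S, d q ∈ D q ∧ d q ≠ 0 ∧
      ∀ I : Ideal (𝓞 F), I.IsPrime → (q : 𝓞 F) ∈ I →
        ordProj[p] (d q) ∣ e * (I.ramificationIdx ℤ * I.inertiaDeg ℤ)) : P F (e : ℤ) := by
  -- a common multiple
  obtain ⟨M, hM0, hM⟩ : ∃ M : ℕ, M ≠ 0 ∧ ∀ p : ℕ, p.Prime → ∃ d : ℕ → ℕ, ∀ q ∈ S, d q ∈ D q ∧
      d q ≠ 0 ∧ d q ∣ M ∧ ∀ I : Ideal (𝓞 F), I.IsPrime → (q : 𝓞 F) ∈ I →
        ordProj[p] (d q) ∣ e * (I.ramificationIdx ℤ * I.inertiaDeg ℤ) := by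
    obtain ⟨d₂, hd₂⟩ := H 2 Nat.prime_two
    choose! c hc using H
    have hne₂ : ∏ q ∈ S, d₂ q ≠ 0 := Finset.prod_ne_zero_iff.2 fun q hq => (hd₂ q hq).2.1
    set A := (∏ q ∈ S, d₂ q).primeFactors with hA
    have hne : ∏ p ∈ A, ∏ q ∈ S, c p q ≠ 0 := by
      refine Finset.prod_ne_zero_iff.2 fun p hp => Finset.prod_ne_zero_iff.2 fun q hq => ?_
      exact (hc p (Nat.prime_of_mem_primeFactors hp) q hq).2.1
    refine ⟨(∏ q ∈ S, d₂ q) * ∏ p ∈ A, ∏ q ∈ S, c p q, mul_ne_zero hne₂ hne, fun p hp => ?_⟩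
    by_cases hpA : p ∈ A
    · refine ⟨c p, fun q hq => ?_⟩
      obtain ⟨h1, h2, h3⟩ := hc p hp q hq
      exact ⟨h1, h2, ((Finset.dvd_prod_of_mem _ hq).trans
        (Finset.dvd_prod_of_mem (fun p => ∏ q ∈ S, c p q) hpA)).trans (dvd_mul_left _ _), h3⟩
    · refine ⟨d₂, fun q hq => ?_⟩
      obtain ⟨h1, h2, -⟩ := hd₂ q hq
      refine ⟨h1, h2, (Finset.dvd_prod_of_mem _ hq).trans (dvd_mul_right _ _), fun I _ _ => ?_⟩
      have h4 : ¬ p ∣ d₂ q := by
        intro h5
        exact hpA (Nat.mem_primeFactors.2 ⟨hp, h5.trans (Finset.dvd_prod_of_mem _ hq), hne₂⟩)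
      rw [Nat.factorization_eq_zero_of_not_dvd h4, pow_zero]
      exact one_dvd _
  -- the big field
  obtain ⟨L, _, _, _, hgal, hL⟩ := exists_big F (S ×ˢ M.primeFactors)
    (fun t => pol t.1 t.2 (M.factorization t.2)) (fun t ht => by
      rw [Finset.mem_product] at ht
      exact pol_ne (hS _ ht.1).one_lt (Nat.prime_of_mem_primeFactors ht.2).pos)
  have hgal' : IsGalois F L := IsGalois.tower_top_of_isGalois ℚ F L
  obtain ⟨ι, hι, Y, alg, n, hY, hrel⟩ := Pool.Agent.Q5.DP.hyper_relation L F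
  let _ : ∀ j, Algebra K (Y j).F := fun j =>
    ((algebraMap F (Y j).F).comp (algebraMap K F)).toAlgebra
  have : ∀ j, IsScalarTower K F (Y j).F := fun j => IsScalarTower.of_algebraMap_eq fun x => rfl
  have key := hP.step F ι Y n 1 hrel (e : ℤ) (fun j => by
    obtain ⟨p, hp, C, hCn, hCcyc, hCc, hCp⟩ := hY j
    have hHyp : HypP p ((L ≃ₐ[(Y j).F] L)) := ⟨C, hCcyc, hCp⟩
    have hgY : IsGalois (Y j).F L := IsGalois.tower_top_of_isGalois ℚ (Y j).F L
    obtain ⟨d, hd⟩ := hM p hp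
    set m := e.factorization p with hm
    have hsplit : e = p ^ m * ordCompl[p] e := (Nat.ordProj_mul_ordCompl_eq_self e p).symm
    have h1 : P (Y j).F ((p ^ m : ℕ) : ℤ) := by
      refine good_law hP hS hp (t := fun q => (d q).factorization p)
        (R := fun q => ordCompl[p] (d q)) ?_ m (Y j).F ?_ ?_ ?_
      · -- the fields with the right local degrees
        intro Z _ _ _ h2 h3
        refine h Z fun q hq I hI hqI => ?_
        have h4 : d q ∣ I.ramificationIdx ℤ * I.inertiaDeg ℤ := by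
          have h5 := (Nat.Coprime.mul_dvd_of_dvd_of_dvd
            (Nat.Coprime.pow_left _ ((Nat.coprime_ordCompl hp (hd q hq).2.1)))
            (h2 q hq I hI hqI) (h3 q hq I hI hqI))
          rwa [Nat.ordProj_mul_ordCompl_eq_self] at h5
        obtain ⟨k, hk⟩ := h4
        rw [hk]
        refine hD q hq _ (hd q hq).1 k (Nat.pos_of_ne_zero ?_)
        rintro rfl
        rw [mul_zero] at hk
        exact (Nat.mul_pos (ramificationIdx_pos I ℤ) (inertiaDeg_pos I ℤ)).ne' hk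
      · -- the dichotomy
        intro q hq I hI hqI
        by_cases hqp : q = p
        · exact Or.inr (Or.inl hqp)
        by_cases hpM : p ∈ M.primeFactors
        · have hpf : Fact p.Prime := ⟨hp⟩
          obtain ⟨N, _, _, hNgal, z₁, z₂, a, h₁, h₂, ha, hN, hemb⟩ :=
            exists_field (q := q) (r := p) (hS q hq).one_lt hp.pos (M.factorization p)
          obtain ⟨i⟩ := hemb L (hL (q, p) (Finset.mem_product.2 ⟨hq, hpM⟩))
          have hz : IsPrimitiveRoot (i z₁) (p ^ M.factorization p) :=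
            h₁.map_of_injective i.injective
          have ha' : (i a) ^ p ^ M.factorization p = (q : L) := by
            rw [← map_pow, ha, map_natCast]
          rcases dich (hS q hq) hp hqp hz ha' hCn hCc hCp I hqI with h2 | h2
          · left
            refine ((pow_dvd_pow p ?_).trans h2).mul_right _
            exact (Nat.factorization_le_iff_dvd (hd q hq).2.1 hM0).2 (hd q hq).2.2.1 p
          · exact Or.inr (Or.inr h2)
        · left
          have h2 : ¬ p ∣ d q := by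
            intro h3
            exact hpM (Nat.mem_primeFactors.2 ⟨hp, h3.trans (hd q hq).2.2.1, hM0⟩)
          change p ^ (d q).factorization p ∣ _
          rw [Nat.factorization_eq_zero_of_not_dvd h2, pow_zero]
          exact one_dvd _
      · -- the `p`-part of the degrees
        intro q hq
        refine locDvd_alg (F := F) ?_
        intro I hI hqI
        have h2 := (hd q hq).2.2.2 I hI hqI
        rcases le_total ((d q).factorization p) m with h3 | h3
        · rw [Nat.sub_eq_zero_of_le h3, pow_zero]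
          exact one_dvd _
        · have h4 : p ^ m * p ^ ((d q).factorization p - m) ∣
              p ^ m * (ordCompl[p] e * (I.ramificationIdx ℤ * I.inertiaDeg ℤ)) := by
            rw [← pow_add, Nat.add_sub_cancel' h3, ← mul_assoc, ← hsplit]
            exact h2
          have h5 := Nat.dvd_of_mul_dvd_mul_left (pow_pos hp.pos m) h4
          exact (Nat.Coprime.pow_left _ (Nat.coprime_ordCompl hp he)).dvd_of_dvd_mul_left h5
      · -- the prime-to-`p` part of the degrees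
        intro q hq
        refine locDvd_of_primes (Nat.ordCompl_pos p (hd q hq).2.1).ne' fun r hr => ?_
        have hr' : r.Prime := Nat.prime_of_mem_primeFactors hr
        have hrp : r ≠ p := by
          rintro rfl
          exact (Nat.not_dvd_ordCompl hr' (hd q hq).2.1) (Nat.dvd_of_mem_primeFactors hr)
        have hrM : r ∈ M.primeFactors := by
          rw [Nat.mem_primeFactors]
          exact ⟨hr', ((Nat.dvd_of_mem_primeFactors hr).trans (Nat.ordCompl_dvd _ p)).trans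
            (hd q hq).2.2.1, hM0⟩
        have hb : 0 < M.factorization r :=
          hr'.factorization_pos_of_dvd hM0 (Nat.dvd_of_mem_primeFactors hrM)
        have hle : (ordCompl[p] (d q)).factorization r ≤ M.factorization r :=
          (Nat.factorization_le_iff_dvd (Nat.ordCompl_pos p (hd q hq).2.1).ne' hM0).2
            ((Nat.ordCompl_dvd _ p).trans (hd q hq).2.2.1) r
        have hqf : Fact q.Prime := ⟨hS q hq⟩
        have hrf : Fact r.Prime := ⟨hr'⟩
        obtain ⟨N, _, _, hNgal, z₁, z₂, a, h₁, h₂, ha, hN, hemb⟩ :=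
          exists_field (q := q) (r := r) (hS q hq).one_lt hr'.pos (M.factorization r)
        obtain ⟨i⟩ := hemb L (hL (q, r) (Finset.mem_product.2 ⟨hq, hrM⟩))
        have h2 := locDvd_hyper hb h₁ h₂ ha hN hp hrp i hHyp
        exact fun I hI hqI => (pow_dvd_pow r hle).trans (h2 I hI hqI)
    have h2 := law_nsmul hP (Y j).F h1 (ordCompl[p] e)
    have h3 : ((ordCompl[p] e : ℕ) : ℤ) * ((p ^ m : ℕ) : ℤ) = (e : ℤ) := by
      rw [← Nat.cast_mul, mul_comm, ← hsplit]
    rwa [h3] at h2)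
  rwa [one_mul] at key

/-- **The power law.** -/
theorem loc_power_law (hP : IsLaw P) {S : Finset ℕ} (hS : ∀ q ∈ S, q.Prime) {D : ℕ} (hD : D ≠ 0)
    (h : ∀ (F : Type) [Field F] [NumberField F] [Algebra K F],
      (∀ q ∈ S, ∀ I : Ideal (𝓞 F), I.IsPrime → (q : 𝓞 F) ∈ I →
        D ∣ I.ramificationIdx ℤ * I.inertiaDeg ℤ) → P F 1)
    (F : Type) [Field F] [NumberField F] [Algebra K F] {g : ℕ}
    (hg : ∀ q ∈ S, ∀ I : Ideal (𝓞 F), I.IsPrime → (q : 𝓞 F) ∈ I →
        g ∣ I.ramificationIdx ℤ * I.inertiaDeg ℤ) : P F ((D / D.gcd g : ℕ) : ℤ) := by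
  have hgcd : 0 < D.gcd g := Nat.gcd_pos_of_pos_left _ (Nat.pos_of_ne_zero hD)
  have hpos : 0 < D / D.gcd g :=
    Nat.div_pos (Nat.le_of_dvd (Nat.pos_of_ne_zero hD) (Nat.gcd_dvd_left _ _)) hgcd
  refine loc_gen_law hP hS (D := fun _ => {d | D ∣ d}) (fun q _ d hd n _ => hd.mul_right n) ?_ F
    hpos.ne' ?_
  · intro F' _ _ _ hF'
    exact h F' hF'
  · intro p hp
    refine ⟨fun _ => D, fun q hq => ⟨dvd_rfl, hD, fun I hI hqI => ?_⟩⟩
    refine (Nat.ordProj_dvd D p).trans ?_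
    obtain ⟨k, hk⟩ := hg q hq I hI hqI
    rw [hk]
    have h1 : D / D.gcd g * (g * k) = D * (g / D.gcd g * k) := by
      have h2 : D = D.gcd g * (D / D.gcd g) := (Nat.mul_div_cancel' (Nat.gcd_dvd_left _ _)).symm
      have h3 : g = D.gcd g * (g / D.gcd g) := (Nat.mul_div_cancel' (Nat.gcd_dvd_right _ _)).symm
      calc D / D.gcd g * (g * k) = D / D.gcd g * (D.gcd g * (g / D.gcd g) * k) := by rw [← h3]
        _ = D.gcd g * (D / D.gcd g) * (g / D.gcd g * k) := by ring
        _ = D * (g / D.gcd g * k) := by rw [← h2]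
    rw [h1]
    exact dvd_mul_right _ _

end

end Pool.Agent.Q223.LD
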