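import Pool.Agent.Q5.RG.Pub
import Pool.Agent.Q223.LD.PLaw

/-! The local power law for regulators. -/

set_option autoImplicit false

namespace Pool.Agent.Q223.LD

open NumberField IsDedekindDomain Polynomial Pool.Agent.Q5.RG Pool.Agent.Q5.VL

section
variable {K : Type} [Field K] [NumberField K] {n : ℕ} {X : Set (MvPolynomial (Fin n) (𝓞 K))}
  {d i N : ℕ} {m : ℤ} {Ω : Set ℂ} {M : Spaces ℚ ℝ Gal(AlgebraicClosure K/K)}

/-- the general law -/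
theorem rg_gen (hi : i ≤ 2 * d) (hΩ : IsDom Ω (m : ℂ))
    (hsys : ∀ (F : Type) [Field F] [NumberField F] [Algebra K F], ∃ B, Sys X d i N m F B)
    (hM : M.Good) {S : Finset ℕ} (hS : ∀ q ∈ S, q.Prime) {D : ℕ → Set ℕ}
    (hD : ∀ q ∈ S, ∀ k ∈ D q, ∀ l : ℕ, 0 < l → k * l ∈ D q)
    (h : ∀ (F : Type) [Field F] [NumberField F] [Algebra K F], (∀ q ∈ S, ∀ v : Ideal (𝓞 F),
      v.IsPrime → (q : 𝓞 F) ∈ v → v.ramificationIdx ℤ * v.inertiaDeg ℤ ∈ D q) →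
      (∃ p c, M.Reg F p c) ∧
        ∀ B : HeightOneSpectrum (𝓞 F) → ℚ[X], Sys X d i N m F B → M.Pow m Ω F B 1)
    (F : Type) [Field F] [NumberField F] [Algebra K F] (e : ℕ) (he : e ≠ 0)
    (H : ∀ p : ℕ, p.Prime → ∃ k : ℕ → ℕ, ∀ q ∈ S, k q ∈ D q ∧ k q ≠ 0 ∧
      ∀ v : Ideal (𝓞 F), v.IsPrime → (q : 𝓞 F) ∈ v →
        p ^ (k q).factorization p ∣ e * (v.ramificationIdx ℤ * v.inertiaDeg ℤ)) :
    (∃ p c, M.Reg F p c) ∧
      ∀ B : HeightOneSpectrum (𝓞 F) → ℚ[X], Sys X d i N m F B → M.Pow m Ω F B e := by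
  have hG := Spaces.goodM hM
  have h2 : ∀ (F : Type) [Field F] [NumberField F] [Algebra K F], (∀ q ∈ S, ∀ v : Ideal (𝓞 F),
      v.IsPrime → (q : 𝓞 F) ∈ v → v.ramificationIdx ℤ * v.inertiaDeg ℤ ∈ D q) →
      ConjQ X d i N m (M.datum hM.comp.onto) Ω F :=
    fun F _ _ _ hF => (Spaces.conj_iff hM.comp.onto).2 (h F hF)
  have h3 := loc_gen_law (K := K) (lawQ_isLaw hi hΩ hG hsys) hS hD (fun F' _ _ _ hF' =>
    law_of_conjQ (h2 F' hF') fun F'' _ _ _ _ _ => (h2 F'' (loc_closed hD hF')).1) F he H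
  have h4 := (Spaces.ex_iff hM.comp.onto).2 (h3.1 (by exact_mod_cast he) F)
  exact ⟨h4, fun B hB => (Spaces.pow_iff hM.comp.onto h4).2 (h3.2 B hB)⟩

/-- the power law -/
theorem rg_power (hi : i ≤ 2 * d) (hΩ : IsDom Ω (m : ℂ))
    (hsys : ∀ (F : Type) [Field F] [NumberField F] [Algebra K F], ∃ B, Sys X d i N m F B)
    (hM : M.Good) {S : Finset ℕ} (hS : ∀ q ∈ S, q.Prime) {D : ℕ} (hD : D ≠ 0)
    (h : ∀ (F : Type) [Field F] [NumberField F] [Algebra K F], (∀ q ∈ S, ∀ v : Ideal (𝓞 F),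
      v.IsPrime → (q : 𝓞 F) ∈ v → D ∣ v.ramificationIdx ℤ * v.inertiaDeg ℤ) →
      (∃ p c, M.Reg F p c) ∧
        ∀ B : HeightOneSpectrum (𝓞 F) → ℚ[X], Sys X d i N m F B → M.Pow m Ω F B 1)
    (F : Type) [Field F] [NumberField F] [Algebra K F] (g : ℕ)
    (hg : ∀ q ∈ S, ∀ v : Ideal (𝓞 F), v.IsPrime → (q : 𝓞 F) ∈ v →
      g ∣ v.ramificationIdx ℤ * v.inertiaDeg ℤ) :
    (∃ p c, M.Reg F p c) ∧
      ∀ B : HeightOneSpectrum (𝓞 F) → ℚ[X], Sys X d i N m F B →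
        M.Pow m Ω F B (D / D.gcd g : ℕ) := by
  have hG := Spaces.goodM hM
  have hgcd : 0 < D.gcd g := Nat.gcd_pos_of_pos_left _ (Nat.pos_of_ne_zero hD)
  have hpos : 0 < D / D.gcd g :=
    Nat.div_pos (Nat.le_of_dvd (Nat.pos_of_ne_zero hD) (Nat.gcd_dvd_left _ _)) hgcd
  have h2 : ∀ (F : Type) [Field F] [NumberField F] [Algebra K F], (∀ q ∈ S, ∀ v : Ideal (𝓞 F),
      v.IsPrime → (q : 𝓞 F) ∈ v → D ∣ v.ramificationIdx ℤ * v.inertiaDeg ℤ) →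
      ConjQ X d i N m (M.datum hM.comp.onto) Ω F :=
    fun F _ _ _ hF => (Spaces.conj_iff hM.comp.onto).2 (h F hF)
  have h3 := loc_power_law (K := K) (lawQ_isLaw hi hΩ hG hsys) hS hD (fun F' _ _ _ hF' =>
    law_of_conjQ (h2 F' hF') fun F'' _ _ _ _ _ => (h2 F'' (loc_closed (D := fun _ => {k | D ∣ k})
      (fun q _ k hk l _ => hk.mul_right l) hF')).1) F hg
  have h4 := (Spaces.ex_iff hM.comp.onto).2 (h3.1 (by exact_mod_cast hpos.ne') F)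
  exact ⟨h4, fun B hB => (Spaces.pow_iff hM.comp.onto h4).2 (h3.2 B hB)⟩

end

end Pool.Agent.Q223.LD
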