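import Pool.Agent.Q223.LD.Dick

/-! Maximal real subfields; a totally real field that is inert at `q`. -/

set_option autoImplicit false
set_option linter.unusedSectionVars false

namespace Pool.Agent.Q223.LD

open NumberField Polynomial Ideal MulAction
open scoped Pointwise

section
variable (L : Type) [Field L] [NumberField L]

/-- the maximal real subfield -/
noncomputable def RI : IntermediateField ℚ L :=
  (maximalRealSubfield L).toIntermediateField fun x => by
    rw [eq_ratCast]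
    exact SubfieldClass.ratCast_mem _ x

theorem mem_RI (x : L) : x ∈ RI L ↔ ∀ φ : L →+* ℂ, star (φ x) = φ x := Iff.rfl

instance ri_nf : NumberField (RI L) := NumberField.of_module_finite ℚ (RI L)

instance ri_real : IsTotallyReal (RI L) := isTotallyReal_maximalRealSubfield (K := L)

instance ri_galois [IsGalois ℚ L] : IsGalois ℚ (RI L) where
  to_isSeparable := inferInstance
  to_normal := by
    have h : @Normal ℚ (RI L) _ _ (IntermediateField.algebra' (RI L)) := by
      rw [IntermediateField.normal_iff_forall_map_le]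
      rintro s _ ⟨x, hx, rfl⟩
      have hx' : ∀ φ : L →+* ℂ, star (φ x) = φ x := hx
      change ∀ φ : L →+* ℂ, star (φ (s x)) = φ (s x)
      intro φ
      exact hx' (φ.comp (s : L →+* L))
    exact h

variable {L}

theorem ri_mem {N : Type} [Field N] [NumberField N] [IsTotallyReal N] (i : N →+* L) (x : N) :
    i x ∈ RI L := by
  rw [mem_RI]
  intro φ
  have h1 : ComplexEmbedding.IsReal (φ.comp i) := IsTotallyReal.complexEmbedding_isReal _
  rw [ComplexEmbedding.isReal_iff] at h1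
  exact DFunLike.congr_fun h1 x

theorem ri_lift {N : Type} [Field N] [NumberField N] [IsTotallyReal N] (i : N →+* L) :
    Nonempty (N →+* RI L) := ⟨i.codRestrict (RI L) (ri_mem i)⟩

end

/-- **A totally real field that is unramified at `q`, of large residue degree.** -/
theorem exists_unram {q r : ℕ} (hq : q.Prime) (hr : r.Prime) (c : ℕ) :
    ∃ (N : Type) (_ : Field N) (_ : NumberField N), IsGalois ℚ N ∧ IsTotallyReal N ∧
      ∀ P : Ideal (𝓞 N), P.IsMaximal → P.LiesOver (Ideal.span {(q : ℤ)}) →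
        P.ramificationIdx ℤ = 1 ∧ r ^ c ∣ P.inertiaDeg ℤ := by
  have hqf : Fact q.Prime := ⟨hq⟩
  have ha : 0 < r ^ c := pow_pos hr.pos c
  set m := q ^ (2 * r ^ c) - 1 with hm
  have hm4 : 4 ≤ q ^ (2 * r ^ c) := by
    calc 4 = 2 ^ 2 := rfl
      _ ≤ q ^ 2 := Nat.pow_le_pow_left hq.two_le 2
      _ ≤ q ^ (2 * r ^ c) := Nat.pow_le_pow_right hq.pos (by omega)
  have hm2 : 2 < m := by omega
  have hmne : NeZero m := ⟨by omega⟩
  have hqm : ¬ q ∣ m := by
    intro h
    have h1 : q ∣ q ^ (2 * r ^ c) := dvd_pow_self q (by omega)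
    have h2 : q ∣ q ^ (2 * r ^ c) - m := Nat.dvd_sub h1 h
    have h3 : q ^ (2 * r ^ c) - m = 1 := by omega
    rw [h3] at h2
    exact hq.one_lt.ne' (Nat.dvd_one.1 h2)
  let K := CyclotomicField m ℚ
  have hnf : NumberField K := inferInstance
  have hcyc : IsCyclotomicExtension {m} ℚ K := CyclotomicField.isCyclotomicExtension m ℚ
  have hcm : IsCMField K := IsCyclotomicExtension.Rat.isCMField K (S := {m}) ⟨m, rfl, hm2⟩
  have hgal : IsGalois ℚ K := IsCyclotomicExtension.isGalois {m} ℚ K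
  refine ⟨RI K, inferInstance, inferInstance, inferInstance, inferInstance, ?_⟩
  intro P hP hPq
  obtain ⟨Q, hQm, hQP⟩ := Ideal.exists_maximal_ideal_liesOver_of_isIntegral (S := 𝓞 K) P
  have hQq : Q.LiesOver (Ideal.span {(q : ℤ)}) := LiesOver.trans Q P (Ideal.span {(q : ℤ)})
  have he : Q.ramificationIdx ℤ = 1 :=
    IsCyclotomicExtension.Rat.ramificationIdx_eq_of_not_dvd q K Q hqm
  have hf : Q.inertiaDeg ℤ = orderOf (q : ZMod m) :=
    IsCyclotomicExtension.Rat.inertiaDeg_eq_of_not_dvd q K Q hqm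
  have hgal2 : IsGalois (RI K) K := IsGalois.tower_top_of_isGalois ℚ (RI K) K
  have hG : IsGaloisGroup Gal(K/RI K) (𝓞 (RI K)) (𝓞 K) :=
    IsGaloisGroup.of_isFractionRing _ _ _ (RI K) K
  have hspan : (Ideal.span {(q : ℤ)} : Ideal ℤ) ≠ ⊥ := by
    rw [Ne, Ideal.span_singleton_eq_bot]
    exact_mod_cast hq.ne_zero
  have hP0 : P ≠ ⊥ := Ideal.ne_bot_of_liesOver_of_ne_bot hspan P
  have hfinF : Finite (𝓞 (RI K) ⧸ P) := Ring.HasFiniteQuotients.finiteQuotient hP0
  have hcard : Nat.card (stabilizer Gal(K/RI K) Q) =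
      Q.ramificationIdx (𝓞 (RI K)) * Q.inertiaDeg (𝓞 (RI K)) := by
    rw [card_stabilizer_eq P, ramificationIdxIn_eq_ramificationIdx P Q Gal(K/RI K),
      inertiaDegIn_eq_inertiaDeg P Q Gal(K/RI K)]
  have hquad : Algebra.IsQuadraticExtension (maximalRealSubfield K) K := hcm.is_quadratic
  have hfr : Module.finrank (RI K) K = 2 := hquad.finrank_eq_two
  have hcard2 : Nat.card (stabilizer Gal(K/RI K) Q) ∣ 2 := by
    rw [← hfr, ← IsGalois.card_aut_eq_finrank (RI K) K]
    exact Subgroup.card_subgroup_dvd_card _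
  have hin : Q.inertiaDeg ℤ = P.inertiaDeg ℤ * Q.inertiaDeg (𝓞 (RI K)) :=
    inertiaDeg_tower (R := ℤ) P Q
  have hram : P.ramificationIdx ℤ ∣ Q.ramificationIdx ℤ := ramificationIdx_below_dvd (R := ℤ) P Q
  refine ⟨Nat.dvd_one.1 (he ▸ hram), ?_⟩
  have h1 : 2 * r ^ c ∣ Q.inertiaDeg ℤ := by
    rw [hf]
    refine dvd_of_pow_sub_one hq.one_lt ?_
    have h2 : ((q ^ orderOf (q : ZMod m) : ℕ) : ZMod m) = (1 : ℕ) := by
      push_cast
      exact pow_orderOf_eq_one _
    rw [ZMod.natCast_eq_natCast_iff] at h2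
    exact (Nat.modEq_iff_dvd' (Nat.one_le_pow _ _ hq.pos)).1 h2.symm
  have h3 : Q.inertiaDeg (𝓞 (RI K)) ∣ 2 := (dvd_mul_left _ _).trans (hcard ▸ hcard2)
  rw [hin] at h1
  have h4 : 2 * r ^ c ∣ 2 * P.inertiaDeg ℤ := by
    rw [mul_comm 2 (P.inertiaDeg ℤ)]
    exact h1.trans (mul_dvd_mul_left _ h3)
  exact Nat.dvd_of_mul_dvd_mul_left (by norm_num) h4

end Pool.Agent.Q223.LD
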