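import Mathlib

/-! The primes of a radical extension. -/

set_option autoImplicit false
set_option linter.unusedSectionVars false

namespace Pool.Agent.Q223.LD

open NumberField Ideal

attribute [local instance] Ideal.Quotient.field

section
variable {Y Z : Type} [Field Y] [NumberField Y] [Field Z] [NumberField Z] [Algebra Y Z] {p : ℕ}

/-- the multiplicity of a prime above `P` in an element of valuation one at `P` -/
theorem mult_map {a : 𝓞 Y} (P : Ideal (𝓞 Y)) [P.IsPrime] (haP : a ∈ P) (haP2 : a ∉ P ^ 2)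
    (P' : Ideal (𝓞 Z)) [P'.IsPrime] [P'.LiesOver P] :
    emultiplicity P' (Ideal.span {algebraMap (𝓞 Y) (𝓞 Z) a}) = P'.ramificationIdx (𝓞 Y) := by
  have ha0 : a ≠ 0 := by
    rintro rfl
    exact haP2 (zero_mem _)
  have hP0 : P ≠ ⊥ := by
    rintro rfl
    exact ha0 haP
  have hPm : P.IsMaximal := Ideal.IsPrime.isMaximal inferInstance hP0
  have hP'0 : P' ≠ ⊥ := Ideal.ne_bot_of_liesOver_of_ne_bot hP0 P'
  have hP'p : Prime P' := Ideal.prime_of_isPrime hP'0 inferInstance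
  have hinj : Function.Injective (algebraMap (𝓞 Y) (𝓞 Z)) :=
    FaithfulSMul.algebraMap_injective (𝓞 Y) (𝓞 Z)
  obtain ⟨J, hJ⟩ := Ideal.dvd_span_singleton.2 haP
  have hPJ : ¬ P ∣ J := by
    rintro ⟨J', rfl⟩
    apply haP2
    rw [← Ideal.dvd_span_singleton, hJ, ← mul_assoc, ← sq]
    exact dvd_mul_right _ _
  have hspan : (Ideal.span {a}).map (algebraMap (𝓞 Y) (𝓞 Z)) =
      Ideal.span {algebraMap (𝓞 Y) (𝓞 Z) a} := by
    rw [Ideal.map_span, Set.image_singleton]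
  rw [← hspan, hJ, Ideal.map_mul, emultiplicity_mul hP'p]
  have hmapP : P.map (algebraMap (𝓞 Y) (𝓞 Z)) ≠ ⊥ := Ideal.map_ne_bot_of_ne_bot hP0
  have h1 : emultiplicity P' (J.map (algebraMap (𝓞 Y) (𝓞 Z))) = 0 := by
    rw [emultiplicity_eq_zero]
    intro h
    apply hPJ
    rw [Ideal.dvd_iff_le] at h ⊢
    have h2 := Ideal.map_le_iff_le_comap.1 h
    rwa [← Ideal.under_def, ← Ideal.over_def P' P] at h2
  rw [h1, add_zero, Ideal.IsDedekindDomain.ramificationIdx_eq_multiplicity P P' hmapP]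
  have hfin : FiniteMultiplicity P' (P.map (algebraMap (𝓞 Y) (𝓞 Z))) :=
    FiniteMultiplicity.of_prime_left hP'p hmapP
  exact hfin.emultiplicity_eq_multiplicity

/-- the ramification in an extension by a root of an element of valuation one -/
theorem ram_of_root (hp : 0 < p) {a : 𝓞 Y} (P : Ideal (𝓞 Y)) [P.IsPrime] (haP : a ∈ P)
    (haP2 : a ∉ P ^ 2) {x : 𝓞 Z} (hx : x ^ p = algebraMap (𝓞 Y) (𝓞 Z) a)
    (P' : Ideal (𝓞 Z)) [P'.IsPrime] [P'.LiesOver P] : p ∣ P'.ramificationIdx (𝓞 Y) := by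
  have ha0 : a ≠ 0 := by
    rintro rfl
    exact haP2 (zero_mem _)
  have hP0 : P ≠ ⊥ := by
    rintro rfl
    exact ha0 haP
  have hP'0 : P' ≠ ⊥ := Ideal.ne_bot_of_liesOver_of_ne_bot hP0 P'
  have hP'p : Prime P' := Ideal.prime_of_isPrime hP'0 inferInstance
  have h1 := mult_map P haP haP2 P'
  have hx0 : x ≠ 0 := by
    rintro rfl
    rw [zero_pow hp.ne'] at hx
    have hinj : Function.Injective (algebraMap (𝓞 Y) (𝓞 Z)) :=
      FaithfulSMul.algebraMap_injective (𝓞 Y) (𝓞 Z)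
    exact ha0 (hinj (by rw [← hx, map_zero]))
  have hne : (Ideal.span {x} : Ideal (𝓞 Z)) ≠ ⊥ := by rwa [Ne, Ideal.span_singleton_eq_bot]
  have hfin : FiniteMultiplicity P' (Ideal.span {x}) := FiniteMultiplicity.of_prime_left hP'p hne
  rw [← hx, ← Ideal.span_singleton_pow, emultiplicity_pow hP'p,
    hfin.emultiplicity_eq_multiplicity] at h1
  refine ⟨multiplicity P' (Ideal.span {x}), ?_⟩
  exact_mod_cast h1.symm

/-- the wild case -/
theorem ram_of_root' (hp : p.Prime) {b : 𝓞 Y} (P : Ideal (𝓞 Y)) [P.IsPrime] (hpP : (p : 𝓞 Y) ∈ P)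
    (hb : b - 1 ∈ P) (hb2 : b - 1 ∉ P ^ 2) {x : 𝓞 Z} (hx : x ^ p = algebraMap (𝓞 Y) (𝓞 Z) b)
    (P' : Ideal (𝓞 Z)) [P'.IsPrime] [P'.LiesOver P] : p ∣ P'.ramificationIdx (𝓞 Y) := by
  have ha0 : b - 1 ≠ 0 := by
    intro h
    rw [h] at hb2
    exact hb2 (zero_mem _)
  have hP0 : P ≠ ⊥ := by
    rintro rfl
    exact ha0 hb
  have hP'0 : P' ≠ ⊥ := Ideal.ne_bot_of_liesOver_of_ne_bot hP0 P'
  have hP'p : Prime P' := Ideal.prime_of_isPrime hP'0 inferInstance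
  have h1 := mult_map P hb hb2 P'
  set e := P'.ramificationIdx (𝓞 Y) with he
  obtain ⟨w, hw⟩ := exists_add_pow_prime_eq hp (x - 1) (1 : 𝓞 Z)
  rw [sub_add_cancel, hx, one_pow, mul_one] at hw
  have hle : ∀ y : 𝓞 Y, y ∈ P → algebraMap (𝓞 Y) (𝓞 Z) y ∈ P' := by
    intro y hy
    have h2 : P = P'.under (𝓞 Y) := Ideal.over_def P' P
    rw [h2] at hy
    exact hy
  have hpP' : (p : 𝓞 Z) ∈ P' := by
    have := hle _ hpP
    rwa [map_natCast] at this
  have hb' : algebraMap (𝓞 Y) (𝓞 Z) (b - 1) = (x - 1) ^ p + p * (x - 1) * w := by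
    rw [map_sub, map_one, hw]
    ring
  have hy : x - 1 ∈ P' := by
    have h3 : (x - 1) ^ p ∈ P' := by
      have h4 : (x - 1) ^ p = algebraMap (𝓞 Y) (𝓞 Z) (b - 1) - p * (x - 1) * w := by
        rw [hb']; ring
      rw [h4]
      exact sub_mem (hle _ hb) (P'.mul_mem_right _ (P'.mul_mem_right _ hpP'))
    exact Ideal.IsPrime.mem_of_pow_mem inferInstance _ h3
  have hpe : (p : 𝓞 Z) ∈ P' ^ e := by
    have h5 : P.map (algebraMap (𝓞 Y) (𝓞 Z)) ≤ P' ^ e := by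
      have hPm : P.IsMaximal := Ideal.IsPrime.isMaximal inferInstance hP0
      rw [he, Ideal.IsDedekindDomain.ramificationIdx_eq_multiplicity P P'
        (Ideal.map_ne_bot_of_ne_bot hP0), ← Ideal.dvd_iff_le]
      exact pow_multiplicity_dvd _ _
    refine h5 ?_
    have h6 := Ideal.mem_map_of_mem (algebraMap (𝓞 Y) (𝓞 Z)) hpP
    rwa [map_natCast] at h6
  have hmem : p * (x - 1) * w ∈ P' ^ (e + 1) := by
    rw [pow_succ]
    exact Ideal.mul_mem_right _ _ (Ideal.mul_mem_mul hpe hy)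
  have hx0 : x - 1 ≠ 0 := by
    intro h
    have hinj : Function.Injective (algebraMap (𝓞 Y) (𝓞 Z)) :=
      FaithfulSMul.algebraMap_injective (𝓞 Y) (𝓞 Z)
    apply ha0
    apply hinj
    rw [hb', h, zero_pow hp.ne_zero, mul_zero, zero_mul, map_zero, add_zero]
  have hne : (Ideal.span {x - 1} : Ideal (𝓞 Z)) ≠ ⊥ := by rwa [Ne, Ideal.span_singleton_eq_bot]
  have hfin : FiniteMultiplicity P' (Ideal.span {x - 1}) :=
    FiniteMultiplicity.of_prime_left hP'p hne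
  have h7 : emultiplicity P' (Ideal.span {(x - 1) ^ p}) = e := by
    have h8 := emultiplicity_eq_coe.1 h1
    rw [emultiplicity_eq_coe]
    rw [Ideal.dvd_span_singleton, Ideal.dvd_span_singleton] at h8 ⊢
    have h9 : (x - 1) ^ p = algebraMap (𝓞 Y) (𝓞 Z) (b - 1) - p * (x - 1) * w := by
      rw [hb']; ring
    constructor
    · rw [h9]
      exact sub_mem h8.1 (Ideal.pow_le_pow_right (Nat.le_succ e) hmem)
    · intro h10
      apply h8.2
      rw [hb']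
      exact add_mem h10 hmem
  rw [← Ideal.span_singleton_pow, emultiplicity_pow hP'p,
    hfin.emultiplicity_eq_multiplicity] at h7
  refine ⟨multiplicity P' (Ideal.span {x - 1}), ?_⟩
  exact_mod_cast h7.symm

/-- the residue degree -/
theorem inert_of_root (hp : p.Prime) {b : 𝓞 Y} (P : Ideal (𝓞 Y)) [P.IsMaximal] (hP0 : P ≠ ⊥)
    (hN : p ∣ Nat.card (𝓞 Y ⧸ P) - 1)
    (hb : (Ideal.Quotient.mk P b) ^ ((Nat.card (𝓞 Y ⧸ P) - 1) / p) ≠ 1) (hbP : b ∉ P)
    {x : 𝓞 Z} (hx : x ^ p = algebraMap (𝓞 Y) (𝓞 Z) b) (P' : Ideal (𝓞 Z)) [P'.IsMaximal]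
    [P'.LiesOver P] : p ∣ P'.inertiaDeg (𝓞 Y) := by
  have hfinP : Finite (𝓞 Y ⧸ P) := Ring.HasFiniteQuotients.finiteQuotient hP0
  have hP'0 : P' ≠ ⊥ := Ideal.ne_bot_of_liesOver_of_ne_bot hP0 P'
  have hfinP' : Finite (𝓞 Z ⧸ P') := Ring.HasFiniteQuotients.finiteQuotient hP'0
  have := Fintype.ofFinite (𝓞 Y ⧸ P)
  have := Fintype.ofFinite (𝓞 Z ⧸ P')
  set Q := Nat.card (𝓞 Y ⧸ P) with hQ
  have hcard : Nat.card (𝓞 Z ⧸ P') = Q ^ P'.inertiaDeg (𝓞 Y) := by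
    rw [Ideal.inertiaDeg_eq_of_isMaximal P P', Module.natCard_eq_pow_finrank (K := 𝓞 Y ⧸ P)]
  set f := P'.inertiaDeg (𝓞 Y) with hf
  have hQ1 : 1 < Q := by
    rw [hQ]
    exact Finite.one_lt_card
  let xb : 𝓞 Z ⧸ P' := Ideal.Quotient.mk P' x
  let bb : 𝓞 Y ⧸ P := Ideal.Quotient.mk P b
  have hxb : xb ^ p = algebraMap (𝓞 Y ⧸ P) (𝓞 Z ⧸ P') bb := by
    change (Ideal.Quotient.mk P' x) ^ p = _
    rw [← map_pow, hx]
    rfl
  have hbb0 : bb ≠ 0 := by
    rw [Ne, Ideal.Quotient.eq_zero_iff_mem]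
    exact hbP
  have hinj : Function.Injective (algebraMap (𝓞 Y ⧸ P) (𝓞 Z ⧸ P')) := RingHom.injective _
  have hxb0 : xb ≠ 0 := by
    intro h
    rw [h, zero_pow hp.ne_zero] at hxb
    exact hbb0 (hinj (by rw [← hxb, map_zero]))
  obtain ⟨k, hk⟩ := hN
  have hkQ : (Q - 1) / p = k := by
    rw [hk, Nat.mul_div_cancel_left _ hp.pos]
  rw [hkQ] at hb
  have h1 : xb ^ (Q - 1) ≠ 1 := by
    rw [hk, pow_mul, hxb, ← map_pow]
    intro h
    exact hb (hinj (by rw [h, map_one]))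
  have h2 : (xb ^ (Q - 1)) ^ p = 1 := by
    rw [← pow_mul, mul_comm, pow_mul, hxb, ← map_pow]
    have h3 : bb ^ (Q - 1) = 1 := by
      rw [hQ, Nat.card_eq_fintype_card]
      exact FiniteField.pow_card_sub_one_eq_one _ hbb0
    rw [h3, map_one]
  have hpf : Fact p.Prime := ⟨hp⟩
  have hord : orderOf (xb ^ (Q - 1)) = p := orderOf_eq_prime h2 h1
  have h4 : xb ^ (Q ^ f - 1) = 1 := by
    rw [← hcard, Nat.card_eq_fintype_card]
    exact FiniteField.pow_card_sub_one_eq_one _ hxb0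
  have h5 : Q ^ f - 1 = (Q - 1) * ∑ i ∈ Finset.range f, Q ^ i := by
    rw [Nat.geomSum_eq (by omega : 2 ≤ Q)]
    rw [Nat.mul_div_cancel']
    simpa using Nat.sub_dvd_pow_sub_pow Q 1 f
  rw [h5, pow_mul] at h4
  have h6 := orderOf_dvd_of_pow_eq_one h4
  rw [hord, ← ZMod.natCast_eq_zero_iff] at h6
  have h7 : (Q : ZMod p) = 1 := by
    have h8 : Q = p * k + 1 := by omega
    rw [h8]
    push_cast
    simp
  push_cast at h6
  rw [h7] at h6
  simp only [one_pow, Finset.sum_const, Finset.card_range, nsmul_eq_mul, mul_one] at h6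
  rwa [ZMod.natCast_eq_zero_iff] at h6

end

end Pool.Agent.Q223.LD
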