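import Pool.Agent.Q223.LD.RI
import Pool.Agent.Q223.LD.Law

/-! Totally real fields with prescribed local degrees. -/

set_option autoImplicit false
set_option linter.unusedSectionVars false

namespace Pool.Agent.Q223.LD

open NumberField Polynomial Ideal MulAction
open Pool.Agent.Q5.SO (Hyper)
open scoped Classical

theorem rr_minpoly {N : Type} [Field N] [NumberField N] [IsTotallyReal N] (x : N) :
    RR (minpoly ℚ x) := by
  refine ⟨minpoly.ne_zero (Algebra.IsIntegral.isIntegral x), fun y hy => ?_⟩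
  have h1 : y ∈ (minpoly ℚ x).rootSet ℂ := by
    rw [mem_rootSet]
    exact ⟨minpoly.ne_zero (Algebra.IsIntegral.isIntegral x), hy⟩
  rw [← NumberField.Embeddings.range_eval_eq_rootSet_minpoly] at h1
  obtain ⟨φ, rfl⟩ := h1
  have h2 : ComplexEmbedding.IsReal φ := IsTotallyReal.complexEmbedding_isReal _
  rw [ComplexEmbedding.isReal_iff] at h2
  exact DFunLike.congr_fun h2 x

theorem root_in_range {f : ℚ[X]} {N N' : Type} [Field N] [NumberField N] [Field N']
    [NumberField N'] (i : N →+* N') (hf : f ≠ 0) (h : (f.map (algebraMap ℚ N)).Splits) (x : N')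
    (hx : aeval x f = 0) : ∃ y : N, i y = x := by
  have h1 := h.image_rootSet (RingHom.toRatAlgHom i)
  have h2 : x ∈ f.rootSet N' := by
    rw [mem_rootSet]
    exact ⟨hf, hx⟩
  rw [← h1] at h2
  obtain ⟨y, -, hy⟩ := h2
  exact ⟨y, hy⟩

/-- an automorphism of a splitting field -/
theorem split_aut {f : ℚ[X]} {s : f.SplittingField ≃+* f.SplittingField}
    (h : ∀ x : f.SplittingField, eval₂ (algebraMap ℚ f.SplittingField) x f = 0 → s x = x) :
    ∀ x, s x = x := by
  let s' : f.SplittingField →ₐ[ℚ] f.SplittingField := RingHom.toRatAlgHom (s : _ →+* _)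
  have h5 : s' = AlgHom.id ℚ _ := by
    refine AlgHom.ext_of_adjoin_eq_top (SplittingField.adjoin_rootSet f) ?_
    intro x hx
    rw [mem_rootSet] at hx
    exact h x hx.2
  intro x
  exact DFunLike.congr_fun h5 x

/-- **A totally real field.** -/
theorem exists_field_real {q r b : ℕ} (hq : q.Prime) (hr : r.Prime) :
    ∃ (f : ℚ[X]) (N : Type) (_ : Field N) (_ : NumberField N), f ≠ 0 ∧ IsGalois ℚ N ∧
      IsTotallyReal N ∧ ZC q r b N ∧
      ∀ (L : Type) [Field L] [NumberField L], (f.map (algebraMap ℚ L)).Splits →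
        Nonempty (N →+* L) := by
  have hqf : Fact q.Prime := ⟨hq⟩
  have hrf : Fact r.Prime := ⟨hr⟩
  have hn : 0 < r ^ b := pow_pos hr.pos b
  set f₁ := pr q (r ^ b) with hf₁
  have hRR₁ : RR f₁ := pr_RR hq.one_lt hn
  have hc₁ : CharZero f₁.SplittingField :=
    charZero_of_injective_algebraMap (algebraMap ℚ f₁.SplittingField).injective
  have hnf₁ : NumberField f₁.SplittingField := NumberField.of_module_finite ℚ _
  have hs₁ : IsSplittingField ℚ f₁.SplittingField f₁ :=
    Polynomial.IsSplittingField.splittingField f₁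
  have hg₁ : IsGalois ℚ f₁.SplittingField :=
    { to_isSeparable := inferInstance
      to_normal := Normal.of_isSplittingField f₁ }
  obtain ⟨N₂, _, _, hg₂, hr₂, hN₂⟩ := exists_unram hq hr
    ((Nat.card Gal(f₁.SplittingField/ℚ)).factorization r)
  let pb := Field.powerBasisOfFiniteOfSeparable ℚ N₂
  set f₂ := minpoly ℚ pb.gen with hf₂
  have hRR₂ : RR f₂ := rr_minpoly pb.gen
  have hRR : RR (f₁ * f₂) := hRR₁.mul hRR₂
  have hc : CharZero (f₁ * f₂).SplittingField :=
    charZero_of_injective_algebraMap (algebraMap ℚ (f₁ * f₂).SplittingField).injective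
  have hnf : NumberField (f₁ * f₂).SplittingField := NumberField.of_module_finite ℚ _
  have hs : IsSplittingField ℚ (f₁ * f₂).SplittingField (f₁ * f₂) :=
    Polynomial.IsSplittingField.splittingField (f₁ * f₂)
  have hg : IsGalois ℚ (f₁ * f₂).SplittingField :=
    { to_isSeparable := inferInstance
      to_normal := Normal.of_isSplittingField (f₁ * f₂) }
  have hreal : IsTotallyReal (f₁ * f₂).SplittingField := rr_totallyReal hRR
  have hsp : ((f₁ * f₂).map (algebraMap ℚ (f₁ * f₂).SplittingField)).Splits :=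
    SplittingField.splits _
  have hne : (f₁ * f₂).map (algebraMap ℚ (f₁ * f₂).SplittingField) ≠ 0 :=
    (Polynomial.map_ne_zero_iff (algebraMap ℚ _).injective).2 hRR.1
  have hsp₁ : (f₁.map (algebraMap ℚ (f₁ * f₂).SplittingField)).Splits :=
    Splits.of_dvd hsp hne (Polynomial.map_dvd _ (dvd_mul_right _ _))
  have hsp₂ : (f₂.map (algebraMap ℚ (f₁ * f₂).SplittingField)).Splits :=
    Splits.of_dvd hsp hne (Polynomial.map_dvd _ (dvd_mul_left _ _))
  let i₁ : f₁.SplittingField →+* (f₁ * f₂).SplittingField := SplittingField.lift f₁ hsp₁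
  have hdeg₂ : f₂.degree ≠ 0 := (minpoly.degree_pos (Algebra.IsIntegral.isIntegral pb.gen)).ne'
  obtain ⟨y, hy⟩ := hsp₂.exists_eval_eq_zero (by rwa [degree_map])
  rw [eval_map_algebraMap] at hy
  let i₂ : N₂ →+* (f₁ * f₂).SplittingField := (pb.lift y hy : N₂ →ₐ[ℚ] (f₁ * f₂).SplittingField)
  let _ : Algebra f₁.SplittingField (f₁ * f₂).SplittingField := i₁.toAlgebra
  let _ : Algebra N₂ (f₁ * f₂).SplittingField := i₂.toAlgebra
  refine ⟨f₁ * f₂, (f₁ * f₂).SplittingField, inferInstance, hnf, hRR.1, hg, hreal, ?_, ?_⟩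
  · refine zc_pair (N₁ := f₁.SplittingField) (N₂ := N₂) ?_ ?_ hN₂
    · intro s hs₁ hs₂
      have hs : ∀ x, (s : (f₁ * f₂).SplittingField ≃+* (f₁ * f₂).SplittingField) x = x := by
        refine split_aut fun x hx => ?_
        rw [eval₂_mul, mul_eq_zero] at hx
        rcases hx with hx | hx
        · obtain ⟨z, rfl⟩ := root_in_range i₁ hRR₁.1 (SplittingField.splits f₁) x hx
          exact hs₁ z
        · have hspl : (f₂.map (algebraMap ℚ N₂)).Splits :=
            hg₂.to_normal.splits pb.gen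
          obtain ⟨z, rfl⟩ := root_in_range i₂ hRR₂.1 hspl x hx
          exact hs₂ z
      ext x
      exact hs x
    · intro P hP hPq
      obtain ⟨x, hx⟩ := pr_root (n := r ^ b) hq.one_lt hn
      exact pr_ram hq.one_lt hn hq x hx P
  · intro L _ _ hL
    exact ⟨(SplittingField.lift (f₁ * f₂) hL : (f₁ * f₂).SplittingField →ₐ[ℚ] L)⟩

/-- **The totally real extensions.** -/
theorem exists_real (F : Type) [Field F] [NumberField F] [IsTotallyReal F] (S : Finset ℕ)
    (hS : ∀ q ∈ S, q.Prime) {M : ℕ} (hM : M ≠ 0) :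
    ∃ (L : Type) (_ : Field L) (_ : NumberField L) (_ : Algebra F L), IsGalois ℚ L ∧
      IsTotallyReal L ∧ ∀ (Y : Type) [Field Y] [NumberField Y] [Algebra Y L],
        Hyper (L ≃ₐ[Y] L) → ∃ p : ℕ, p.Prime ∧ ∀ q ∈ S, LocDvd q (ordCompl[p] M) Y := by
  have hex : ∀ t : ℕ × ℕ, t ∈ S ×ˢ M.primeFactors →
      ∃ (f : ℚ[X]) (N : Type) (_ : Field N) (_ : NumberField N), f ≠ 0 ∧ IsGalois ℚ N ∧
      IsTotallyReal N ∧ ZC t.1 t.2 (M.factorization t.2) N ∧
      ∀ (L : Type) [Field L] [NumberField L], (f.map (algebraMap ℚ L)).Splits →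
        Nonempty (N →+* L) := by
    intro t ht
    rw [Finset.mem_product] at ht
    have hr := Nat.prime_of_mem_primeFactors ht.2
    exact exists_field_real (hS _ ht.1) hr
  choose! f hf using hex
  obtain ⟨L, _, _, _, hgal, hL⟩ := exists_big F (S ×ˢ M.primeFactors) f (fun t ht => by
    obtain ⟨_, _, _, h0, -⟩ := hf t ht
    exact h0)
  obtain ⟨j⟩ := ri_lift (algebraMap F L)
  refine ⟨RI L, inferInstance, inferInstance, j.toAlgebra, inferInstance, inferInstance, ?_⟩
  intro Y _ _ _ hY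
  obtain ⟨p, hp, hH⟩ := hyper_hypP hY
  refine ⟨p, hp, fun q hq => ?_⟩
  have hgY : IsGalois Y (RI L) := IsGalois.tower_top_of_isGalois ℚ Y (RI L)
  refine locDvd_of_primes (Nat.ordCompl_pos p hM).ne' fun r hr => ?_
  have hr' : r.Prime := Nat.prime_of_mem_primeFactors hr
  have hrp : r ≠ p := by
    rintro rfl
    exact (Nat.not_dvd_ordCompl hr' hM) (Nat.dvd_of_mem_primeFactors hr)
  have hfac : (ordCompl[p] M).factorization r = M.factorization r := by
    rw [Nat.factorization_ordCompl, Finsupp.erase_ne hrp]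
  have hrM : r ∈ M.primeFactors := by
    rw [Nat.mem_primeFactors]
    exact ⟨hr', (Nat.dvd_of_mem_primeFactors hr).trans (Nat.ordCompl_dvd M p), hM⟩
  rw [hfac]
  have hqf : Fact q.Prime := ⟨hS q hq⟩
  have hrf : Fact r.Prime := ⟨hr'⟩
  have ht : (q, r) ∈ S ×ˢ M.primeFactors := Finset.mem_product.2 ⟨hq, hrM⟩
  obtain ⟨N, _, _, -, hNg, hNr, hZ, hemb⟩ := hf (q, r) ht
  obtain ⟨i⟩ := hemb L (hL (q, r) ht)
  obtain ⟨i'⟩ := ri_lift i
  exact locDvd_hyperZ hZ hp hrp i' hH

end Pool.Agent.Q223.LD
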