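import Pool.Agent.Q223.LD.PLaw

/-! The exponents of the local power law cannot be improved by relations. -/

set_option autoImplicit false

namespace Pool.Agent.Q223.LD

open NumberField Ideal Pool.Agent.W353.NF Pool.Agent.W401.Cheb Pool.Agent.Q5.BR

theorem locDvd_finrank {q D : ℕ} (hq : q.Prime) {F : Type} [Field F] [NumberField F]
    (h : LocDvd q D F) : D ∣ Module.finrank ℚ F := by
  have hqp : Prime (q : ℤ) := Nat.prime_iff_prime_int.1 hq
  have hprime : (Ideal.span {(q : ℤ)}).IsPrime := (Ideal.span_singleton_prime hqp.ne_zero).2 hqp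
  have hmax : (Ideal.span {(q : ℤ)}).IsMaximal :=
    hprime.isMaximal (by rw [Ne, Ideal.span_singleton_eq_bot]; exact hqp.ne_zero)
  have hfin : ((Ideal.span {(q : ℤ)}).primesOver (𝓞 F)).Finite :=
    IsDedekindDomain.primesOver_finite (Ideal.span {(q : ℤ)}) (𝓞 F)
  have := hfin.fintype
  have h1 := Ideal.sum_ramification_inertia_eq_finrank (R := ℤ) (S := 𝓞 F)
    (p := Ideal.span {(q : ℤ)})
  rw [RingOfIntegers.rank] at h1
  rw [← h1]
  refine Finset.dvd_sum fun P _ => ?_
  have hP1 : (P : Ideal (𝓞 F)).IsPrime := P.2.1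
  have hP2 : (P : Ideal (𝓞 F)).LiesOver (Ideal.span {(q : ℤ)}) := P.2.2
  refine h P hP1 ?_
  have h2 : (q : ℤ) ∈ (P : Ideal (𝓞 F)).under ℤ := by
    rw [← Ideal.over_def (P : Ideal (𝓞 F)) (Ideal.span {(q : ℤ)})]
    exact Ideal.mem_span_singleton_self _
  rw [Ideal.mem_comap] at h2
  simpa using h2

theorem fixn_at_one (F Y : Type) [Field F] [NumberField F] [Field Y] [NumberField Y] [Algebra F Y] :
    fixn F Y 1 = Module.finrank F Y := by
  have hfd : FiniteDimensional F Y := by
    have : IsScalarTower ℚ F Y := inferInstance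
    exact FiniteDimensional.right ℚ F Y
  unfold fixn
  rw [← AlgHom.card F Y (AlgebraicClosure F), ← Nat.card_eq_fintype_card]
  refine Nat.card_congr (Equiv.subtypeUnivEquiv fun i => ?_)
  rw [map_one, Equiv.Perm.one_apply]

/-- **The exponents.** -/
theorem sharp {q D : ℕ} (hq : q.Prime) {F : Type} [Field F] [NumberField F] {ι : Type} [Fintype ι]
    (Y : ι → Ext F) (a : ι → ℤ) (e : ℤ)
    (hrel : ∀ σ : GK F, ∑ j, a j * (fixn F (Y j).F σ : ℤ) = e)
    (h : ∀ j, LocDvd q D (Y j).F) : (D : ℤ) ∣ e * Module.finrank ℚ F := by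
  rw [← hrel 1, Finset.sum_mul]
  refine Finset.dvd_sum fun j _ => ?_
  have h1 := locDvd_finrank hq (h j)
  rw [← Module.finrank_mul_finrank ℚ F (Y j).F] at h1
  rw [fixn_at_one, mul_assoc]
  refine Dvd.dvd.mul_left ?_ _
  rw [mul_comm]
  exact_mod_cast h1

end Pool.Agent.Q223.LD
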