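import Pool.Agent.Q223.LD.Law

/-! Local degrees in towers. -/

set_option autoImplicit false

namespace Pool.Agent.Q223.LD

open NumberField Ideal

section
variable {F F' : Type} [Field F] [NumberField F] [Field F'] [NumberField F'] [Algebra F F']

/-- local degrees are multiplicative in towers -/
theorem loc_up {q : ℕ} (I : Ideal (𝓞 F')) (hI : I.IsPrime) (hqI : (q : 𝓞 F') ∈ I) :
    ∃ J : Ideal (𝓞 F), J.IsPrime ∧ (q : 𝓞 F) ∈ J ∧ ∃ n : ℕ, 0 < n ∧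
      I.ramificationIdx ℤ * I.inertiaDeg ℤ = J.ramificationIdx ℤ * J.inertiaDeg ℤ * n := by
  refine ⟨I.under (𝓞 F), inferInstance, ?_, I.ramificationIdx (𝓞 F) * I.inertiaDeg (𝓞 F), ?_, ?_⟩
  · rw [Ideal.under_def, Ideal.mem_comap, map_natCast]
    exact hqI
  · exact Nat.mul_pos (ramificationIdx_pos I _) (inertiaDeg_pos I _)
  · rw [ramificationIdx_tower (R := ℤ) (I.under (𝓞 F)) I, inertiaDeg_tower (R := ℤ) (I.under (𝓞 F)) I]
    ring

/-- the fields with prescribed local degrees are closed under finite extensions -/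
theorem loc_closed {S : Finset ℕ} {D : ℕ → Set ℕ}
    (hD : ∀ q ∈ S, ∀ d ∈ D q, ∀ n : ℕ, 0 < n → d * n ∈ D q)
    (h : ∀ q ∈ S, ∀ I : Ideal (𝓞 F), I.IsPrime → (q : 𝓞 F) ∈ I →
        I.ramificationIdx ℤ * I.inertiaDeg ℤ ∈ D q) :
    ∀ q ∈ S, ∀ I : Ideal (𝓞 F'), I.IsPrime → (q : 𝓞 F') ∈ I →
        I.ramificationIdx ℤ * I.inertiaDeg ℤ ∈ D q := by
  intro q hq I hI hqI
  obtain ⟨J, hJ, hqJ, n, hn, h1⟩ := loc_up (F := F) I hI hqI
  rw [h1]
  exact hD q hq _ (h q hq J hJ hqJ) n hn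

end

end Pool.Agent.Q223.LD
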