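import Pool.Agent.Q223.LD.Rad
import Pool.Agent.Q223.LD.Up
import Pool.Agent.Q5.BR.RadRel

/-! The relation between radical extensions with prescribed local degrees. -/

set_option autoImplicit false
set_option linter.unusedSectionVars false

namespace Pool.Agent.Q223.LD

open NumberField Ideal Polynomial Pool.Agent.W353.NF Pool.Agent.W401.Cheb Pool.Agent.Q5.BR
open scoped Classical

attribute [local instance] Ideal.Quotient.field

section
variable {K : Type} [Field K] [NumberField K]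

/-- **The relation** between the extensions by the roots of `a b^i` and `b`, and of both. -/
theorem rad_relation {p : ℕ} [hp : Fact p.Prime] {a b : K} (ha0 : a ≠ 0) (hb0 : b ≠ 0)
    (hb : ∀ x : K, x ^ p ≠ b) (hab : ∀ (i : ℕ) (x : K), x ^ p ≠ a * b ^ i)
    (ha : ∀ x : AdjoinRoot (Pool.Agent.Q5.BR.pol p b), x ^ p ≠
      algebraMap K (AdjoinRoot (Pool.Agent.Q5.BR.pol p b)) a) :
    ∃ (ι : Type) (_ : Fintype ι) (X : ι → Ext K) (n : ι → ℤ),
      (∀ j, ((∃ (i : ℕ) (x : (X j).F), x ^ p = algebraMap K (X j).F (a * b ^ i)) ∨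
        (∃ x : (X j).F, x ^ p = algebraMap K (X j).F b))) ∧
      ∀ σ : GK K, ∑ j, n j * (fixn K (X j).F σ : ℤ) = p := by
  have hb' : Irreducible (Pool.Agent.Q5.BR.pol p b) := X_pow_sub_C_irreducible_of_prime hp.out hb
  let _ : Fact (Irreducible (Pool.Agent.Q5.BR.pol p b)) := ⟨hb'⟩
  let L := AdjoinRoot (Pool.Agent.Q5.BR.pol p b)
  let iL : NumberField L := numberField_rd
  have ha' : Irreducible (Pool.Agent.Q5.BR.pol p (algebraMap K L a)) :=
    X_pow_sub_C_irreducible_of_prime hp.out ha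
  let _ : Fact (Irreducible (Pool.Agent.Q5.BR.pol p (algebraMap K L a))) := ⟨ha'⟩
  let M := AdjoinRoot (Pool.Agent.Q5.BR.pol p (algebraMap K L a))
  let iM : NumberField M := numberField_rd
  have hroot : ∀ (c : K), (AdjoinRoot.root (Pool.Agent.Q5.BR.pol p c)) ^ p =
      algebraMap K (AdjoinRoot (Pool.Agent.Q5.BR.pol p c)) c := by
    intro c
    have h1 := AdjoinRoot.eval₂_root (Pool.Agent.Q5.BR.pol p c)
    unfold Pool.Agent.Q5.BR.pol at h1
    rw [eval₂_sub, eval₂_pow, eval₂_X, eval₂_C, sub_eq_zero] at h1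
    exact h1
  have hirr : ∀ i : ℕ, Irreducible (Pool.Agent.Q5.BR.pol p (a * b ^ i)) := fun i =>
    X_pow_sub_C_irreducible_of_prime hp.out (hab i)
  have hfac : ∀ i : ℕ, Fact (Irreducible (Pool.Agent.Q5.BR.pol p (a * b ^ i))) :=
    fun i => ⟨hirr i⟩
  have hnf : ∀ i : ℕ, NumberField (AdjoinRoot (Pool.Agent.Q5.BR.pol p (a * b ^ i))) := fun i =>
    numberField_rd
  let X : Fin p ⊕ Bool → Ext K := Sum.elim
    (fun i => @Ext.mk K _ _ (AdjoinRoot (Pool.Agent.Q5.BR.pol p (a * b ^ (i : ℕ)))) _ (hnf i) _)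
    (fun t => if t then @Ext.mk K _ _ L _ iL _ else @Ext.mk K _ _ M _ iM _)
  let n : Fin p ⊕ Bool → ℤ := Sum.elim (fun _ => 1) (fun t => if t then 1 else -1)
  refine ⟨Fin p ⊕ Bool, inferInstance, X, n, ?_, ?_⟩
  · rintro (i | t)
    · left
      exact ⟨i, AdjoinRoot.root _, hroot (a * b ^ (i : ℕ))⟩
    · right
      cases t with
      | true => exact ⟨AdjoinRoot.root _, hroot b⟩
      | false =>
        refine ⟨algebraMap L M (AdjoinRoot.root _), ?_⟩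
        change (algebraMap L M (AdjoinRoot.root _)) ^ p = algebraMap K M b
        rw [← map_pow, hroot b]
        rfl
  · intro σ
    rw [Fintype.sum_sum_type, Fintype.sum_bool]
    have h1 : ∀ i : Fin p, n (Sum.inl i) * (fixn K (X (Sum.inl i)).F σ : ℤ) =
        (Rt p (a * b ^ (i : ℕ)) σ : ℤ) := by
      intro i
      have h := fixn_rd (K := K) (L := K) (p := p) (c := a * b ^ (i : ℕ))
        (a * b ^ (i : ℕ)) rfl (hnf i) σ
      rw [fixn_self, one_mul] at h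
      change (1 : ℤ) * ((fixn K (AdjoinRoot (Pool.Agent.Q5.BR.pol p (a * b ^ (i : ℕ)))) σ : ℕ) : ℤ)
        = _
      rw [h, one_mul]
    have h2 : fixn K L σ = Rt p b σ := by
      have h := fixn_rd (K := K) (L := K) (p := p) (c := b) b rfl iL σ
      rwa [fixn_self, one_mul] at h
    have h3 : fixn K M σ = Rt p b σ * Rt p a σ := by
      have h := fixn_rd (K := K) (L := L) (p := p) (c := algebraMap K L a) a rfl iM σ
      rwa [h2] at h
    have h4 : n (Sum.inr true) * (fixn K (X (Sum.inr true)).F σ : ℤ) = (Rt p b σ : ℤ) := by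
      change (1 : ℤ) * ((fixn K L σ : ℕ) : ℤ) = _
      rw [h2, one_mul]
    have h5 : n (Sum.inr false) * (fixn K (X (Sum.inr false)).F σ : ℤ) =
        -((Rt p b σ : ℤ) * (Rt p a σ : ℤ)) := by
      change (-1 : ℤ) * ((fixn K M σ : ℕ) : ℤ) = _
      rw [h3]
      push_cast
      ring
    rw [Finset.sum_congr rfl fun i _ => h1 i, h4, h5]
    have h6 := congrArg (fun z : ℕ => (z : ℤ)) (Rt_rel (p := p) ha0 hb0 σ)
    simp only [Nat.cast_add, Nat.cast_sum, Nat.cast_mul] at h6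
    rw [Finset.sum_range] at h6
    linear_combination h6

end

/-- the local conditions at `P` -/
def LC {Y : Type} [Field Y] [NumberField Y] (p : ℕ) (P : Ideal (𝓞 Y)) (a b : 𝓞 Y) : Prop :=
  a ∈ P ∧ a ∉ P ^ 2 ∧ b ∉ P ∧ (((p : 𝓞 Y) ∈ P ∧ b - 1 ∈ P ∧ b - 1 ∉ P ^ 2) ∨
    (p ∣ Nat.card (𝓞 Y ⧸ P) - 1 ∧ (Ideal.Quotient.mk P b) ^ ((Nat.card (𝓞 Y ⧸ P) - 1) / p) ≠ 1))

section
variable {Y Z : Type} [Field Y] [NumberField Y] [Field Z] [NumberField Z] [Algebra Y Z] {p : ℕ}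

theorem LC.mul_not {P : Ideal (𝓞 Y)} [hP : P.IsPrime] {a c : 𝓞 Y} (h : a ∉ P ^ 2)
    (hc : c ∉ P) : a * c ∉ P ^ 2 := by
  intro h1
  rw [mul_comm] at h1
  rcases Ideal.IsPrime.mul_mem_pow P h1 with h2 | h2
  · exact hc h2
  · exact h h2

/-- the local degrees of the extensions -/
theorem LC.dvd (hp : p.Prime) {P : Ideal (𝓞 Y)} [P.IsPrime] {a b : 𝓞 Y} (h : LC p P a b)
    (hx : (∃ (i : ℕ) (x : Z), x ^ p = algebraMap Y Z ((a : Y) * (b : Y) ^ i)) ∨
      ∃ x : Z, x ^ p = algebraMap Y Z b) (P' : Ideal (𝓞 Z)) [P'.IsPrime] [P'.LiesOver P] :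
    p ∣ P'.ramificationIdx (𝓞 Y) * P'.inertiaDeg (𝓞 Y) := by
  obtain ⟨haP, haP2, hbP, hb⟩ := h
  have ha0 : a ≠ 0 := by
    rintro rfl
    exact haP2 (zero_mem _)
  have hP0 : P ≠ ⊥ := by
    rintro rfl
    exact ha0 haP
  have hPm : P.IsMaximal := Ideal.IsPrime.isMaximal inferInstance hP0
  have hP'0 : P' ≠ ⊥ := Ideal.ne_bot_of_liesOver_of_ne_bot hP0 P'
  have hP'm : P'.IsMaximal := Ideal.IsPrime.isMaximal inferInstance hP'0
  have key : ∀ (c : 𝓞 Y) (x : Z), x ^ p = algebraMap Y Z c → ∃ x' : 𝓞 Z,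
      x' ^ p = algebraMap (𝓞 Y) (𝓞 Z) c := by
    intro c x hx
    have hint : IsIntegral ℤ x := by
      refine IsIntegral.of_pow hp.pos ?_
      rw [hx]
      exact (RingOfIntegers.isIntegral_coe c).algebraMap
    refine ⟨⟨x, hint⟩, ?_⟩
    apply RingOfIntegers.ext
    exact hx
  rcases hx with ⟨i, x, hx⟩ | ⟨x, hx⟩
  · obtain ⟨x', hx'⟩ := key (a * b ^ i) x (by rw [hx]; push_cast; rfl)
    have h1 : a * b ^ i ∈ P := P.mul_mem_right _ haP
    have h2 : a * b ^ i ∉ P ^ 2 := LC.mul_not haP2 fun h3 =>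
      hbP (Ideal.IsPrime.mem_of_pow_mem inferInstance _ h3)
    exact (ram_of_root hp.pos P h1 h2 hx' P').mul_right _
  · obtain ⟨x', hx'⟩ := key b x hx
    rcases hb with ⟨h1, h2, h3⟩ | ⟨h1, h2⟩
    · exact (ram_of_root' hp P h1 h2 h3 hx' P').mul_right _
    · exact (inert_of_root hp P hP0 h1 h2 hbP hx' P').mul_left _

theorem self_one {R : Type} [CommRing R] [IsDedekindDomain R] (A : Algebra R R)
    (hA : A = Algebra.id R) (P : Ideal R) [P.IsPrime] (hP0 : P ≠ ⊥) [Finite (R ⧸ P)] :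
    @ramificationIdx R _ P R _ A * @inertiaDeg R _ P R _ A = 1 := by
  subst hA
  have hPm : P.IsMaximal := Ideal.IsPrime.isMaximal inferInstance hP0
  have hover : P.LiesOver P := ⟨by ext; rfl⟩
  have h1 : P.inertiaDeg R = 1 := by
    rw [Ideal.inertiaDeg_eq_of_isMaximal P P]
    exact Module.finrank_self _
  have h2 : P.ramificationIdx R = 1 := by
    have h3 : P.map (algebraMap R R) = P := Ideal.map_id P
    rw [Ideal.IsDedekindDomain.ramificationIdx_eq_multiplicity P P (by rwa [h3]), h3]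
    have hp : Prime P := Ideal.prime_of_isPrime hP0 inferInstance
    exact multiplicity_self
  rw [h1, h2]

/-- the elements are not `p`-th powers -/
theorem LC.not_pow (hp : p.Prime) {P : Ideal (𝓞 Y)} [P.IsPrime] {a b : 𝓞 Y} (h : LC p P a b) :
    (∀ x : Y, x ^ p ≠ (b : Y)) ∧ ∀ (i : ℕ) (x : Y), x ^ p ≠ (a : Y) * (b : Y) ^ i := by
  have hP0 : P ≠ ⊥ := by
    rintro rfl
    exact h.2.1 (by rw [(Ideal.mem_bot.1 h.1 : a = 0)]; exact zero_mem _)
  have hfin : Finite (𝓞 Y ⧸ P) := Ring.HasFiniteQuotients.finiteQuotient hP0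
  have key : ∀ (hx : (∃ (i : ℕ) (x : Y), x ^ p = algebraMap Y Y ((a : Y) * (b : Y) ^ i)) ∨
      ∃ x : Y, x ^ p = algebraMap Y Y b), False := by
    intro hx
    have h2 := @LC.dvd Y Y _ _ _ _ _ p hp P _ a b h hx P _ ⟨by ext y; rfl⟩
    have h3 : p ∣ 1 := h2.trans
      (self_one (R := 𝓞 Y) _ (Algebra.algebra_ext _ _ fun y => rfl) P hP0).dvd
    exact hp.one_lt.ne' (Nat.dvd_one.1 h3)
  exact ⟨fun x hx => key (Or.inr ⟨x, hx⟩), fun i x hx => key (Or.inl ⟨i, x, hx⟩)⟩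

theorem LC.congr {P : Ideal (𝓞 Y)} {a b a₀ b₀ : 𝓞 Y} (h : LC p P a₀ b₀) (ha : a - a₀ ∈ P ^ 2)
    (hb : b - b₀ ∈ P ^ 2) : LC p P a b := by
  have hle : P ^ 2 ≤ P := Ideal.pow_le_self two_ne_zero
  obtain ⟨h1, h2, h3, h4⟩ := h
  have e1 : a = (a - a₀) + a₀ := by ring
  have e2 : b = (b - b₀) + b₀ := by ring
  have e3 : b - 1 = (b - b₀) + (b₀ - 1) := by ring
  refine ⟨?_, ?_, ?_, ?_⟩
  · rw [e1]
    exact add_mem (hle ha) h1
  · rw [e1, Submodule.add_mem_iff_right _ ha]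
    exact h2
  · rw [e2, Submodule.add_mem_iff_right _ (hle hb)]
    exact h3
  · rcases h4 with ⟨h5, h6, h7⟩ | ⟨h5, h6⟩
    · left
      refine ⟨h5, ?_, ?_⟩
      · rw [e3]
        exact add_mem (hle hb) h6
      · rw [e3, Submodule.add_mem_iff_right _ hb]
        exact h7
    · right
      refine ⟨h5, ?_⟩
      have h7 : Ideal.Quotient.mk P b = Ideal.Quotient.mk P b₀ := Ideal.Quotient.eq.2 (hle hb)
      rwa [h7]

theorem exists_lc_one (hp : p.Prime) (P : Ideal (𝓞 Y)) [P.IsPrime] (hP0 : P ≠ ⊥)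
    (h : (p : 𝓞 Y) ∈ P ∨ p ∣ Nat.card (𝓞 Y ⧸ P) - 1) : ∃ a b : 𝓞 Y, LC p P a b := by
  have hPm : P.IsMaximal := Ideal.IsPrime.isMaximal inferInstance hP0
  obtain ⟨a, ha, ha2⟩ := Ideal.exists_mem_pow_notMem_pow_succ P hP0 hPm.ne_top 1
  rw [pow_one] at ha
  change a ∉ P ^ 2 at ha2
  rcases h with h | h
  · refine ⟨a, 1 + a, ha, ha2, ?_, Or.inl ⟨h, ?_, ?_⟩⟩
    · intro h1
      apply hPm.ne_top
      rw [Ideal.eq_top_iff_one]
      have h2 := sub_mem h1 ha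
      rwa [add_sub_cancel_right] at h2
    · rwa [add_sub_cancel_left]
    · rwa [add_sub_cancel_left]
  · have hfin : Finite (𝓞 Y ⧸ P) := Ring.HasFiniteQuotients.finiteQuotient hP0
    have hft := Fintype.ofFinite (𝓞 Y ⧸ P)
    obtain ⟨g, hg⟩ := IsCyclic.exists_ofOrder_eq_natCard (α := (𝓞 Y ⧸ P)ˣ)
    obtain ⟨b, hb⟩ := Ideal.Quotient.mk_surjective (g : 𝓞 Y ⧸ P)
    refine ⟨a, b, ha, ha2, ?_, Or.inr ⟨h, ?_⟩⟩
    · rw [← Ideal.Quotient.eq_zero_iff_mem, hb]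
      exact g.ne_zero
    · rw [hb]
      intro h1
      have h2 : g ^ ((Nat.card (𝓞 Y ⧸ P) - 1) / p) = 1 := by
        apply Units.ext
        push_cast
        exact h1
      have hcard : Nat.card (𝓞 Y ⧸ P)ˣ = Nat.card (𝓞 Y ⧸ P) - 1 := Nat.card_units _
      have h3 := orderOf_dvd_of_pow_eq_one h2
      rw [hg, hcard] at h3
      have h4 : 0 < Nat.card (𝓞 Y ⧸ P) - 1 := by
        rw [← hcard]
        exact Nat.card_pos
      obtain ⟨k, hk⟩ := h
      have hk0 : 0 < k := by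
        rcases Nat.eq_zero_or_pos k with rfl | h5
        · rw [mul_zero] at hk
          omega
        · exact h5
      rw [hk, Nat.mul_div_cancel_left _ hp.pos] at h3
      have h5 := Nat.le_of_dvd hk0 h3
      have h6 := hp.two_le
      nlinarith

theorem exists_lc (hp : p.Prime) (T : Finset (Ideal (𝓞 Y))) (hT : ∀ P ∈ T, P.IsPrime ∧ P ≠ ⊥ ∧
    ((p : 𝓞 Y) ∈ P ∨ p ∣ Nat.card (𝓞 Y ⧸ P) - 1)) : ∃ a b : 𝓞 Y, ∀ P ∈ T, LC p P a b := by
  have h1 : ∀ P : T, ∃ ab : 𝓞 Y × 𝓞 Y, LC p (P : Ideal (𝓞 Y)) ab.1 ab.2 := by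
    rintro ⟨P, hP⟩
    obtain ⟨h2, h3, h4⟩ := hT P hP
    obtain ⟨a, b, h⟩ := exists_lc_one hp P h3 h4
    exact ⟨(a, b), h⟩
  choose f hf using h1
  have hprime : ∀ P ∈ T, Prime P := fun P hP => Ideal.prime_of_isPrime (hT P hP).2.1 (hT P hP).1
  obtain ⟨a, ha⟩ := IsDedekindDomain.exists_forall_sub_mem_ideal (s := T) (fun P => P)
    (fun _ => 2) hprime (fun i _ j _ hij => hij) (fun P => (f P).1)
  obtain ⟨b, hb⟩ := IsDedekindDomain.exists_forall_sub_mem_ideal (s := T) (fun P => P)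
    (fun _ => 2) hprime (fun i _ j _ hij => hij) (fun P => (f P).2)
  exact ⟨a, b, fun P hP => LC.congr (hf ⟨P, hP⟩) (ha P hP) (hb P hP)⟩

end

/-- the local condition at the primes above `S` -/
def GoodP (p : ℕ) (t : ℕ → ℕ) (S : Finset ℕ) (Y : Type) [Field Y] [NumberField Y] : Prop :=
  ∀ q ∈ S, ∀ P : Ideal (𝓞 Y), P.IsPrime → (q : 𝓞 Y) ∈ P →
    p ^ t q ∣ P.ramificationIdx ℤ * P.inertiaDeg ℤ ∨ q = p ∨ p ∣ Nat.card (𝓞 Y ⧸ P) - 1

section
variable {Y : Type} [Field Y] [NumberField Y] {p : ℕ}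

theorem finite_above (S : Finset ℕ) (hS : ∀ q ∈ S, q.Prime) :
    {P : Ideal (𝓞 Y) | P.IsPrime ∧ ∃ q ∈ S, (q : 𝓞 Y) ∈ P}.Finite := by
  have h1 : (⋃ q ∈ S, ((Ideal.span {(q : ℤ)}).primesOver (𝓞 Y))).Finite := by
    refine Set.Finite.biUnion S.finite_toSet fun q hq => ?_
    have hq' := hS q hq
    have hmax : (Ideal.span {(q : ℤ)}).IsMaximal := by
      have hp : Prime (q : ℤ) := Nat.prime_iff_prime_int.1 hq'
      have : (Ideal.span {(q : ℤ)}).IsPrime := (Ideal.span_singleton_prime hp.ne_zero).2 hp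
      exact this.isMaximal (by rw [Ne, Ideal.span_singleton_eq_bot]; exact hp.ne_zero)
    exact IsDedekindDomain.primesOver_finite (Ideal.span {(q : ℤ)}) (𝓞 Y)
  refine h1.subset ?_
  rintro P ⟨hP, q, hq, hqP⟩
  refine Set.mem_iUnion₂.2 ⟨q, hq, hP, ?_⟩
  exact liesOver_of_mem (hS q hq) P hqP

/-- **The step.** -/
theorem step_relation (hp : p.Prime) {S : Finset ℕ} (hS : ∀ q ∈ S, q.Prime) {t : ℕ → ℕ}
    (hG : GoodP p t S Y) (m : ℕ) (hm : ∀ q ∈ S, LocDvd q (p ^ (t q - (m + 1))) Y) :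
    ∃ (ι : Type) (_ : Fintype ι) (X : ι → Ext Y) (n : ι → ℤ),
      (∀ j, ∀ q ∈ S, LocDvd q (p ^ (t q - m)) (X j).F) ∧
      ∀ σ : GK Y, ∑ j, n j * (fixn Y (X j).F σ : ℤ) = p := by
  have hpf : Fact p.Prime := ⟨hp⟩
  let T₀ : Set (Ideal (𝓞 Y)) := {P | P.IsPrime ∧ ∃ q ∈ S, (q : 𝓞 Y) ∈ P ∧
    ¬ p ^ t q ∣ P.ramificationIdx ℤ * P.inertiaDeg ℤ}
  have hT₀ : T₀.Finite := (finite_above S hS).subset fun P hP =>
    ⟨hP.1, hP.2.choose, hP.2.choose_spec.1, hP.2.choose_spec.2.1⟩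
  by_cases hT₀e : T₀ = ∅
  · refine ⟨Unit, inferInstance, fun _ => Ext.mk Y, fun _ => (p : ℤ), ?_, ?_⟩
    · intro _ q hq P hP hqP
      by_contra hcon
      have : P ∈ T₀ := ⟨hP, q, hq, hqP, fun h => hcon ((pow_dvd_pow p (Nat.sub_le _ _)).trans h)⟩
      rw [hT₀e] at this
      exact this
    · intro σ
      rw [Finset.univ_unique, Finset.sum_singleton]
      change (p : ℤ) * ((fixn Y Y σ : ℕ) : ℤ) = p
      rw [fixn_self, Nat.cast_one, mul_one]
  let T : Finset (Ideal (𝓞 Y)) := hT₀.toFinset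
  have hTmem : ∀ P, P ∈ T ↔ P ∈ T₀ := fun P => hT₀.mem_toFinset
  have hne0 : ∀ P ∈ T, P ≠ ⊥ := by
    rintro P hP rfl
    rw [hTmem] at hP
    obtain ⟨-, q, hq, hqP, -⟩ := hP
    have h1 : (q : 𝓞 Y) = 0 := hqP
    have h2 : (q : 𝓞 Y) ≠ 0 := by exact_mod_cast (hS q hq).ne_zero
    exact h2 h1
  obtain ⟨a, b, hab⟩ := exists_lc hp T (by
    intro P hP
    have h1 := hne0 P hP
    rw [hTmem] at hP
    obtain ⟨hPp, q, hq, hqP, hnd⟩ := hP
    refine ⟨hPp, h1, ?_⟩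
    rcases hG q hq P hPp hqP with h2 | h2 | h2
    · exact absurd h2 hnd
    · left
      rwa [← h2]
    · exact Or.inr h2)
  obtain ⟨P₀, hP₀⟩ := Set.nonempty_iff_ne_empty.2 hT₀e
  have hP₀p : P₀.IsPrime := hP₀.1
  have hP₀T : P₀ ∈ T := (hTmem P₀).2 hP₀
  have hLC₀ := hab P₀ hP₀T
  have hb0 : (b : Y) ≠ 0 := by
    intro h
    have h1 : b = 0 := RingOfIntegers.ext h
    exact hLC₀.2.2.1 (h1 ▸ zero_mem _)
  have hbp := (LC.not_pow hp hLC₀).1
  have hirr : Irreducible (Pool.Agent.Q5.BR.pol p (b : Y)) :=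
    X_pow_sub_C_irreducible_of_prime hp hbp
  let _ : Fact (Irreducible (Pool.Agent.Q5.BR.pol p (b : Y))) := ⟨hirr⟩
  let L := AdjoinRoot (Pool.Agent.Q5.BR.pol p (b : Y))
  let iL : NumberField L := numberField_rd
  have hinf : {l : ℕ | l.Prime ∧ l ∉ S}.Infinite := by
    have h1 : {l : ℕ | l.Prime}.Infinite := Nat.infinite_setOfPred_prime
    exact (h1.sdiff S.finite_toSet).mono fun l hl => ⟨hl.1, hl.2⟩
  obtain ⟨l, hl, hlp⟩ := exists_prime_not_pow L hp.two_le (T := {l : ℕ | l.Prime ∧ l ∉ S})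
    (fun l hl => hl.1) hinf
  have hlP : ∀ P ∈ T, (l : 𝓞 Y) ∉ P := by
    intro P hP hlP
    rw [hTmem] at hP
    obtain ⟨hPp, q, hq, hqP, -⟩ := hP
    have hcop : Nat.Coprime l q := (Nat.coprime_primes hl.1 (hS q hq)).2 (by
      rintro rfl
      exact hl.2 hq)
    apply hPp.ne_top
    rw [Ideal.eq_top_iff_one]
    have h1 := Nat.gcd_eq_gcd_ab l q
    rw [hcop.gcd_eq_one] at h1
    have h2 : (1 : 𝓞 Y) = (l : 𝓞 Y) * (Nat.gcdA l q : ℤ) + (q : 𝓞 Y) * (Nat.gcdB l q : ℤ) := by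
      have h3 := congrArg (fun z : ℤ => (z : 𝓞 Y)) h1
      push_cast at h3
      exact h3
    rw [h2]
    exact add_mem (P.mul_mem_right _ hlP) (P.mul_mem_right _ hqP)
  obtain ⟨a', ha', ha'L⟩ : ∃ a' : 𝓞 Y, (∀ P ∈ T, LC p P a' b) ∧
      ∀ x : L, x ^ p ≠ algebraMap Y L (a' : Y) := by
    by_cases h : ∃ x : L, x ^ p = algebraMap Y L (a : Y)
    · obtain ⟨x, hx⟩ := h
      refine ⟨a * l, fun P hP => ?_, ?_⟩
      · have hPp : P.IsPrime := ((hTmem P).1 hP).1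
        obtain ⟨h1, h2, h3⟩ := hab P hP
        exact ⟨P.mul_mem_right _ h1, LC.mul_not h2 (hlP P hP), h3⟩
      · intro y hy
        have ha0 : algebraMap Y L (a : Y) ≠ 0 := by
          rw [_root_.map_ne_zero]
          intro h
          have h1 : a = 0 := RingOfIntegers.ext h
          exact hLC₀.2.1 (h1 ▸ zero_mem _)
        apply hlp (y / x)
        have e : ((a * (l : 𝓞 Y) : 𝓞 Y) : Y) = (a : Y) * (l : Y) := by push_cast; rfl
        rw [div_pow, hy, hx, e, map_mul, map_natCast, mul_div_cancel_left₀ _ ha0]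
    · push Not at h
      exact ⟨a, hab, h⟩
  have ha'0 : (a' : Y) ≠ 0 := by
    intro h
    have h1 : a' = 0 := RingOfIntegers.ext h
    exact (ha' P₀ hP₀T).2.1 (h1 ▸ zero_mem _)
  obtain ⟨ι, hι, X, n, hX, hrel⟩ := rad_relation (p := p) ha'0 hb0 hbp
    (LC.not_pow hp (ha' P₀ hP₀T)).2 ha'L
  refine ⟨ι, hι, X, n, fun j q hq P' hP' hqP' => ?_, hrel⟩
  set P := P'.under (𝓞 Y) with hPdef
  have hPp : P.IsPrime := Ideal.IsPrime.under (𝓞 Y) P'
  have hqP : (q : 𝓞 Y) ∈ P := by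
    rw [hPdef, Ideal.mem_comap]
    simpa using hqP'
  have htow : P'.ramificationIdx ℤ * P'.inertiaDeg ℤ = (P.ramificationIdx ℤ * P.inertiaDeg ℤ) *
      (P'.ramificationIdx (𝓞 Y) * P'.inertiaDeg (𝓞 Y)) := by
    rw [ramificationIdx_tower (R := ℤ) P P', inertiaDeg_tower (R := ℤ) P P']
    ring
  rw [htow]
  by_cases hPT : P ∈ T
  · have h1 := LC.dvd hp (ha' P hPT) (hX j) P'
    have h2 := hm q hq P hPp hqP
    have h3 := mul_dvd_mul h2 h1
    rw [← pow_succ] at h3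
    exact (pow_dvd_pow p (by omega)).trans h3
  · have h1 : p ^ t q ∣ P.ramificationIdx ℤ * P.inertiaDeg ℤ := by
      by_contra hcon
      exact hPT ((hTmem P).2 ⟨hPp, q, hq, hqP, hcon⟩)
    exact ((pow_dvd_pow p (Nat.sub_le _ _)).trans h1).mul_right _

end

end Pool.Agent.Q223.LD
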